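import Pool.Agent.Lib.H80W.A2
import Pool.Agent.Lib.H44K.S3

set_option autoImplicit false

/-!
H80W, A3: linear models.  The dimension of the cocycles.
-/

open MvPolynomial

namespace Pool.Agent.H80W

open Pool.Agent.H89T Pool.Agent.H67T Pool.Agent.H53U Pool.Agent.H53V

open Pool.Agent.H44K (mdet dop Gt Ch wch E1 E2 s3_finite s3_finrank)

variable {E : Type} [CommRing E] [Algebra ℂ E] {N n : ℕ} {k : ℕ} {xi : Option (Fin N) → E}
  {M : Fin N → Fin n → E}

/-- PROOF.  `LinearMap.sum_apply`, `rfl`. -/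
theorem GtL_apply (t : ℕ) (f : WW E n k) : GtL E n k t f = Gt (E) t f := by
  unfold GtL Gt
  rw [LinearMap.sum_apply]
  rfl

/-- `Gt` in every coordinate. -/
noncomputable def g15_Gl (E : Type) [CommRing E] [Algebra ℂ E] (N n k t : ℕ) : (Option (Fin N) × Option (Fin N) → WW E n k) →ₗ[ℂ]
    (Option (Fin N) × Option (Fin N) → WW E n k) :=
  LinearMap.pi fun p => (GtL E n k t).comp (LinearMap.proj p)

theorem g15_Gl_apply (t : ℕ) (z : Option (Fin N) × Option (Fin N) → WW E n k)
    (p : Option (Fin N) × Option (Fin N)) : g15_Gl E N n k t z p = Gt (E) t (z p) := by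
  show GtL E n k t (z p) = _
  exact GtL_apply t (z p)

/-- PROOF.  Let `Gl : (ι × ι → W) →ₗ[ℂ] (ι × ι → W)` be `GtL` in every coordinate (`LinearMap.pi fun p => (GtL ..).comp (LinearMap.proj p)`).
`Gt_cob` (with `h a b := h (a, b)`; membership in `Zc`: `Submodule.mem_inf`, `Submodule.mem_pi`, `Submodule.mem_iInf`): `(Zc ..).map Gl ≤ Bc ..`.
`Zc` is finite-dimensional (`BB_finite`, a subspace of a finite product).  Rank-nullity for `Gl.domRestrict Zc`:
`finrank Zc = finrank (Zc.map Gl) + finrank (Zc ⊓ ker Gl)`, `Zc ⊓ ker Gl ≤ Submodule.pi univ (fun _ => BG k xi M t (A + s) m)`, whose dimension is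
`(N + 1) ^ 2 * finrank BG` (as `finrank_VP` in S3; `Fintype.card (Option (Fin N)) = N + 1`), and `finrank (Zc.map Gl) ≤ finrank Bc`
(`Bc` is finite-dimensional: the image of one). -/
theorem finrank_Zc {u : Option (Fin N)} (hux : IsUnit (xi u)) {D : ℕ} {y yi : E} (hyi : yi * y = 1)
    {A₀ : ℕ} (hS : HSat k xi M D yi A₀) (hR : HRight k xi M D y) {A s t : ℕ}
    (hE2 : ∀ c ≥ A₀, E2 (Ik k xi M) c (fun _ => s)) (hA : A₀ ≤ A) (hst : s ≤ D * t) (m : ℕ) :
    Module.finrank ℂ (Zc k xi M A s m) ≤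
      (N + 1) ^ 2 * Module.finrank ℂ (BG k xi M t (A + s) m) + Module.finrank ℂ (Bc k xi M A s m) := by
  have hB1 : FiniteDimensional ℂ (BB k xi M (A + s) m) := BB_finite k xi M (A + s) m
  have hB2 : FiniteDimensional ℂ (BB k xi M A m) := BB_finite k xi M A m
  have hP1 : FiniteDimensional ℂ ↥(Submodule.pi Set.univ
      fun _ : Option (Fin N) × Option (Fin N) => BB k xi M (A + s) m) := s3_finite _ _
  have hP2 : FiniteDimensional ℂ ↥(Submodule.pi Set.univ
      fun _ : Option (Fin N) => BB k xi M A m) := s3_finite _ _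
  have hZ : FiniteDimensional ℂ (Zc k xi M A s m) := Submodule.finiteDimensional_of_le inf_le_left
  have hBG : FiniteDimensional ℂ (BG k xi M t (A + s) m) :=
    Submodule.finiteDimensional_of_le (S₂ := BB k xi M (A + s) m) fun f hf => hf.1
  have hP3 : FiniteDimensional ℂ ↥(Submodule.pi Set.univ
      fun _ : Option (Fin N) × Option (Fin N) => BG k xi M t (A + s) m) := s3_finite _ _
  have hBc : FiniteDimensional ℂ (Bc k xi M A s m) := by
    unfold Bc
    infer_instance
  have h1 := LinearMap.finrank_range_add_finrank_ker ((g15_Gl E N n k t).domRestrict (Zc k xi M A s m))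
  have h2 : Module.finrank ℂ (LinearMap.range ((g15_Gl E N n k t).domRestrict (Zc k xi M A s m))) ≤
      Module.finrank ℂ (Bc k xi M A s m) := by
    apply Submodule.finrank_mono
    rintro _ ⟨⟨z, hz⟩, rfl⟩
    have hz' := Submodule.mem_inf.1 hz
    have hzB := Submodule.mem_pi.1 hz'.1
    have hzC := (Submodule.mem_iInf _).1 hz'.2
    obtain ⟨g, hg1, hg2⟩ := Gt_cob hux hyi hS hR hE2 hA hst (m := m) (fun a b => z (a, b))
      (fun a b => hzB (a, b) (Set.mem_univ _))
      (fun a b e => LinearMap.mem_ker.1 (hzC (a, b, e)))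
    refine ⟨g, Submodule.mem_pi.2 fun b _ => hg1 b, ?_⟩
    funext p
    show C (xi p.1) ^ s * g p.2 - C (xi p.2) ^ s * g p.1 = g15_Gl E N n k t z p
    rw [g15_Gl_apply, ← hg2 p.1 p.2]
  have h3 : Module.finrank ℂ (LinearMap.ker ((g15_Gl E N n k t).domRestrict (Zc k xi M A s m))) ≤
      (N + 1) ^ 2 * Module.finrank ℂ (BG k xi M t (A + s) m) := by
    rw [← Submodule.finrank_map_subtype_eq]
    have h4 : Module.finrank ℂ ↥(Submodule.pi Set.univ
        fun _ : Option (Fin N) × Option (Fin N) => BG k xi M t (A + s) m) =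
        (N + 1) ^ 2 * Module.finrank ℂ (BG k xi M t (A + s) m) := by
      rw [s3_finrank]
      congr 1
      rw [Fintype.card_prod, Fintype.card_option, Fintype.card_fin]
      ring
    rw [← h4]
    apply Submodule.finrank_mono
    rintro _ ⟨⟨z, hz⟩, hz0, rfl⟩
    have hz' := Submodule.mem_inf.1 hz
    have hzB := Submodule.mem_pi.1 hz'.1
    refine Submodule.mem_pi.2 fun p _ => ⟨hzB p (Set.mem_univ _), ?_⟩
    have h5 : (g15_Gl E N n k t) z = 0 := LinearMap.mem_ker.1 hz0
    have h6 := congrFun h5 p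
    rw [g15_Gl_apply] at h6
    exact h6
  omega

end Pool.Agent.H80W
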