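import Pool.Agent.Lib.H80W.A1
import Pool.Agent.Lib.H44K.G16

set_option autoImplicit false

/-!
H80W, A4: linear models.  Solution spaces modulo the special ideal and their images in the linear model.
-/

open MvPolynomial

namespace Pool.Agent.H80W

open Pool.Agent.H89T Pool.Agent.H67T Pool.Agent.H53U Pool.Agent.H53V

open Pool.Agent.H44K (mdet dop Gt Ch wch E1 E2 s3_finite s3_finrank kap c1 c2 Dm VP IP g16_rn g16_c1 g16_c2 g16_xbi g16_sub g16_add
  g16_kap_le g16_VP_fin g16_kap_fin g16_IP_fin finrank_IP finrank_VP)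

variable {E : Type} [CommRing E] [Algebra ℂ E] {N n : ℕ} {k : ℕ} {xi : Option (Fin N) → E}
  {M : Fin N → Fin n → E}

/-- `Phi` in every coordinate -/
noncomputable def aT (k : ℕ) (xi : Option (Fin N) → E) (M : Fin N → Fin n → E) (P : Type) :
    (P → MvPolynomial (HV N k) ℂ) →ₗ[ℂ] (P → WW E n k) :=
  LinearMap.pi fun p => (Phi k xi M).toLinearMap.comp (LinearMap.proj p)

theorem aT_apply {P : Type} (h : P → MvPolynomial (HV N k) ℂ) (p : P) :
    aT k xi M P h p = Phi k xi M (h p) := rfl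

theorem aT_z {I : Ideal (MvPolynomial (HV N k) ℂ)} (hI : I ≤ Ik k xi M)
    {f : MvPolynomial (HV N k) ℂ} (h : f ∈ I) : Phi k xi M f = 0 :=
  mem_Ik.1 (hI h)

theorem aT_zero {P : Type} {I : Ideal (MvPolynomial (HV N k) ℂ)} (hI : I ≤ Ik k xi M)
    {h : P → MvPolynomial (HV N k) ℂ}
    (hh : ∀ p, h p ∈ I) : aT k xi M P h = 0 := by
  funext p
  rw [aT_apply, aT_z hI (hh p), Pi.zero_apply]

theorem aT_coord {P : Type} {h : P → MvPolynomial (HV N k) ℂ}
    (hh : h ∈ LinearMap.ker (aT k xi M P)) (p : P) : h p ∈ Ik k xi M := by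
  rw [mem_Ik]
  have h1 := congrFun (LinearMap.mem_ker.1 hh) p
  rw [aT_apply, Pi.zero_apply] at h1
  exact h1

theorem aT_eq {P : Type} {h : P → MvPolynomial (HV N k) ℂ} {u : P → WW E n k}
    (hh : ∀ p, Phi k xi M (h p) = u p) : aT k xi M P h = u := by
  funext p
  rw [aT_apply, hh p]

theorem aDm (s : ℕ) (g : Option (Fin N) → MvPolynomial (HV N k) ℂ)
    (q : Option (Fin N) × Option (Fin N)) :
    Dm (c1 N k s) g q = X (xv q.1) ^ s * g q.2 - X (xv q.2) ^ s * g q.1 := by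
  rw [← g16_c1]
  simp [Dm]

theorem aT_Dm (s : ℕ) (g : Option (Fin N) → MvPolynomial (HV N k) ℂ) :
    aT k xi M _ (Dm (c1 N k s) g) = dl k xi n s (aT k xi M _ g) := by
  funext q
  rw [aT_apply, aDm, map_sub, map_mul, map_mul, map_pow, map_pow, Phi_x, Phi_x]
  rfl

theorem aT_coc (s : ℕ) (q : Option (Fin N) × Option (Fin N) × Option (Fin N))
    (h : Option (Fin N) × Option (Fin N) → MvPolynomial (HV N k) ℂ) :
    Phi k xi M (∑ p, map (Int.castRingHom ℂ) (c2 N k s q p) * h p) =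
      coc k xi n s q (aT k xi M _ h) := by
  rw [g16_c2, map_add, map_sub, map_mul, map_mul, map_mul, map_pow, map_pow, map_pow, Phi_x, Phi_x,
    Phi_x]
  rfl

/-- PROOF.  Let `Θ : (ι × ι → S) →ₗ[ℂ] (ι × ι → W)` be `Phi` in every coordinate, `I0 = IP Isp (ι × ι) (A + s) m`, `X = kap c2 Isp (A + s) m`,
`Y = (VP).map (Dm c1) ⊔ I0`.
 `X.map Θ = Zc`: for `h ∈ X`: `Phi (∑ p, c2 q p * h p) = coc q (Θ h)` (`c2`: the sums over `p` of the `if`s: `Finset.sum_ite_eq`; `Phi_x`), and it is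
`0` because `Isp ≤ Ik` (`Isp_le`); conversely lift the coordinates of `h' ∈ Zc` (`mem_BB`); the sums are bihomogeneous of bidegree `(A + s + s, m)` and in
`Ik`, so in `Isp` by `hL`.
 `X ⊓ ker Θ = I0`: `Phi (h p) = 0` and `h p` bihomogeneous of degree `A + s ≥ A₁` give `h p ∈ Isp` (`hL`); conversely clear.
 `Y.map Θ = Bc`: `Θ (Dm c1 g) = dl (Phi g)`, `Θ I0 = 0`.  `Y ⊓ ker Θ = I0`: the coordinates of the elements of `Y` are bihomogeneous of bidegree `(A + s, m)`.
 Rank-nullity (`finrank X = finrank (X.map Θ) + finrank (X ⊓ ker Θ)`) for `X` and `Y`: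
`finrank X = finrank Zc + finrank I0`, `finrank Y = finrank Bc + finrank I0`. -/
theorem kap2_sp {I : Ideal (MvPolynomial (HV N k) ℂ)} (hI : I ≤ Ik k xi M) {A₁ : ℕ} (hL : ∀ A ≥ A₁, ∀ m, ∀ f, BiH A m f → f ∈ Ik k xi M → f ∈ I)
    {A : ℕ} (hA : A₁ ≤ A) (s m : ℕ) :
    Module.finrank ℂ (kap (c2 N k s) I (A + s) m) +
        Module.finrank ℂ (Bc k xi M A s m) =
      Module.finrank ℂ (Zc k xi M A s m) +
        Module.finrank ℂ ↥((VP ℂ N k (Option (Fin N)) A m).map (Dm (c1 N k s)) ⊔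
          IP I (Option (Fin N) × Option (Fin N)) (A + s) m) := by
  have hXf := g16_kap_fin (c2 N k s) I (A + s) m
  have hVf := g16_VP_fin ℂ N k (Option (Fin N)) A m
  have hIf := g16_IP_fin (Q := Option (Fin N) × Option (Fin N)) I (A + s) m
  have hYf : FiniteDimensional ℂ ↥((VP ℂ N k (Option (Fin N)) A m).map
      (Dm (c1 N k s)) ⊔
      IP I (Option (Fin N) × Option (Fin N)) (A + s) m) := inferInstance
  have hX := g16_rn (aT k xi M _) (kap (c2 N k s) I (A + s) m)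
  have hY := g16_rn (aT k xi M _) ((VP ℂ N k (Option (Fin N)) A m).map
      (Dm (c1 N k s)) ⊔
      IP I (Option (Fin N) × Option (Fin N)) (A + s) m)
  have ha : (kap (c2 N k s) I (A + s) m).map (aT k xi M _) =
      Zc k xi M A s m := by
    apply le_antisymm
    · rintro _ ⟨h, ⟨h1, h2⟩, rfl⟩
      refine ⟨fun p _ => mem_BB.2 ⟨h p, h1 p, rfl⟩, ?_⟩
      rw [SetLike.mem_coe, Submodule.mem_iInf]
      intro q
      rw [LinearMap.mem_ker, ← aT_coc]
      exact aT_z hI (h2 q)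
    · rintro h' ⟨h1, h2⟩
      have h3 : ∀ p, ∃ g, BiH (A + s) m g ∧ Phi k xi M g = h' p := fun p =>
        mem_BB.1 (h1 p (Set.mem_univ p))
      choose g hg1 hg2 using h3
      have h4 : aT k xi M _ g = h' := aT_eq hg2
      refine ⟨g, ⟨hg1, fun q => ?_⟩, h4⟩
      refine hL (A + s + s) (by omega) m _ ?_ ?_
      · rw [g16_c2]
        exact g16_add (g16_sub (g16_xbi _ _ (hg1 _)) (g16_xbi _ _ (hg1 _))) (g16_xbi _ _ (hg1 _))
      · rw [mem_Ik, aT_coc, h4]
        rw [SetLike.mem_coe, Submodule.mem_iInf] at h2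
        exact LinearMap.mem_ker.1 (h2 q)
  have hb : kap (c2 N k s) I (A + s) m ⊓ LinearMap.ker (aT k xi M _) =
      IP I (Option (Fin N) × Option (Fin N)) (A + s) m := by
    apply le_antisymm
    · rintro h ⟨h1, h2⟩ p _
      exact ⟨hL (A + s) (by omega) m _ (h1.1 p) (aT_coord h2 p), h1.1 p⟩
    · intro h h1
      have h2 : ∀ p, h p ∈ I := fun p => (h1 p (Set.mem_univ p)).1
      refine ⟨⟨fun p => (h1 p (Set.mem_univ p)).2, fun q => ?_⟩, ?_⟩
      · exact Ideal.sum_mem _ fun p _ => Ideal.mul_mem_left _ _ (h2 p)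
      · exact LinearMap.mem_ker.2 (aT_zero hI h2)
  have hI0 : ∀ h ∈ IP I (Option (Fin N) × Option (Fin N)) (A + s) m,
      aT k xi M _ h = 0 := fun h h1 =>
    aT_zero hI fun p => (h1 p (Set.mem_univ p)).1
  have hc : ((VP ℂ N k (Option (Fin N)) A m).map (Dm (c1 N k s)) ⊔
      IP I (Option (Fin N) × Option (Fin N)) (A + s) m).map
        (aT k xi M _) = Bc k xi M A s m := by
    apply le_antisymm
    · rintro _ ⟨y, hy, rfl⟩
      obtain ⟨y1, ⟨g, hg, rfl⟩, y2, hy2, rfl⟩ := Submodule.mem_sup.1 hy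
      rw [map_add, hI0 y2 hy2, add_zero, aT_Dm]
      refine ⟨aT k xi M _ g, fun p hp => mem_BB.2 ⟨g p, hg p hp, rfl⟩, rfl⟩
    · rintro _ ⟨u, hu, rfl⟩
      have h3 : ∀ p, ∃ g, BiH A m g ∧ Phi k xi M g = u p := fun p =>
        mem_BB.1 (hu p (Set.mem_univ p))
      choose g hg1 hg2 using h3
      have h4 : aT k xi M _ g = u := aT_eq hg2
      refine ⟨Dm (c1 N k s) g, Submodule.mem_sup_left ⟨g, fun p _ => hg1 p, rfl⟩, ?_⟩
      rw [aT_Dm, h4]
  have hd' : ((VP ℂ N k (Option (Fin N)) A m).map (Dm (c1 N k s)) ⊔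
      IP I (Option (Fin N) × Option (Fin N)) (A + s) m) ⊓
        LinearMap.ker (aT k xi M _) =
      IP I (Option (Fin N) × Option (Fin N)) (A + s) m := by
    apply le_antisymm
    · rintro y ⟨hy, hy0⟩ p _
      have hbi : BiH (A + s) m (y p) := by
        obtain ⟨y1, ⟨g, hg, rfl⟩, y2, hy2, rfl⟩ := Submodule.mem_sup.1 hy
        rw [Pi.add_apply, aDm]
        exact g16_add (g16_sub (g16_xbi _ _ (hg _ (Set.mem_univ _)))
          (g16_xbi _ _ (hg _ (Set.mem_univ _)))) (hy2 p (Set.mem_univ p)).2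
      exact ⟨hL (A + s) (by omega) m _ hbi (aT_coord hy0 p), hbi⟩
    · intro h h1
      exact ⟨Submodule.mem_sup_right h1, LinearMap.mem_ker.2 (hI0 h h1)⟩
  rw [ha, hb] at hX
  rw [hc, hd'] at hY
  omega

/-- PROOF.  `X = kap c1 Isp A m`, `Θ` = `Phi` in every coordinate.  `QQ → X.map Θ`, `q ↦ (C (xi b) ^ s * q)_b`, is linear, injective
(`xi_last_unit`) and well defined: `C (xi b) ^ s * q ∈ BB A m` lifts to `g b` (`mem_BB`), `x_a ^ s g_b - x_b ^ s g_a` is bihomogeneous of degree `A + s`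
and in `Ik`, so in `Isp` (`hL`): so `finrank QQ ≤ finrank (X.map Θ)`.  `IP Isp ι A m ≤ X ⊓ ker Θ`, of dimension `(N + 1) * finrank (Isp ⊓ V)` (as
`finrank_IP` in S3: you may import S3).  Rank-nullity. -/
theorem kap1_sp {u : Option (Fin N)} (hux : IsUnit (xi u))
    {I : Ideal (MvPolynomial (HV N k) ℂ)} (hI : I ≤ Ik k xi M) {A₁ : ℕ} (hL : ∀ A ≥ A₁, ∀ m, ∀ f, BiH A m f → f ∈ Ik k xi M → f ∈ I)
    {A : ℕ} (hA : A₁ ≤ A) (s m : ℕ) :
    (N + 1) * Module.finrank ℂ ↥(I.restrictScalars ℂ ⊓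
        weightedHomogeneousSubmodule ℂ (hw : HV N k → ℕ × ℕ) (A, m)) +
      Module.finrank ℂ (QQ k xi M A s m) ≤
      Module.finrank ℂ (kap (c1 N k s) I A m) := by
  have hXf := g16_kap_fin (c1 N k s) I A m
  have hX := g16_rn (aT k xi M _) (kap (c1 N k s) I A m)
  have hcard : Fintype.card (Option (Fin N)) = N + 1 := by
    rw [Fintype.card_option, Fintype.card_fin]
  have hIP := finrank_IP I (Option (Fin N)) A m
  rw [hcard] at hIP
  have h1 : Module.finrank ℂ (IP I (Option (Fin N)) A m) ≤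
      Module.finrank ℂ ↥(kap (c1 N k s) I A m ⊓ LinearMap.ker (aT k xi M _)) := by
    apply Submodule.finrank_mono
    intro h h1
    have h2 : ∀ p, h p ∈ I := fun p => (h1 p (Set.mem_univ p)).1
    refine ⟨⟨fun p => (h1 p (Set.mem_univ p)).2, fun q => ?_⟩, ?_⟩
    · exact Ideal.sum_mem _ fun p _ => Ideal.mul_mem_left _ _ (h2 p)
    · exact LinearMap.mem_ker.2 (aT_zero hI h2)
  have h2 : Module.finrank ℂ (QQ k xi M A s m) ≤
      Module.finrank ℂ ↥((kap (c1 N k s) I A m).map (aT k xi M _)) := by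
    obtain ⟨ψ, hψ⟩ : ∃ ψ : WW E n k →ₗ[ℂ] (Option (Fin N) → WW E n k),
        ψ = LinearMap.pi fun b => LinearMap.mulLeft ℂ (C (xi b) ^ s) := ⟨_, rfl⟩
    have hψa : ∀ q b, ψ q b = C (xi b) ^ s * q := fun q b => by
      rw [hψ]
      rfl
    have hinj : Function.Injective ψ := by
      rw [← LinearMap.ker_eq_bot, LinearMap.ker_eq_bot']
      intro q hq
      have h3 := congrFun hq u
      rw [hψa, Pi.zero_apply] at h3
      have h5 : IsUnit (C (xi u) ^ s : MvPolynomial (Fin n × Fin k) (E)) :=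
        (hux.map C).pow s
      exact (h5.mul_right_eq_zero).1 h3
    rw [(Submodule.equivMapOfInjective ψ hinj (QQ k xi M A s m)).finrank_eq]
    apply Submodule.finrank_mono
    rintro _ ⟨q, hq, rfl⟩
    have h3 : ∀ b, ∃ g, BiH A m g ∧ Phi k xi M g = ψ q b := fun b => by
      rw [hψa]
      exact mem_BB.1 (hq b)
    choose g hg1 hg2 using h3
    refine ⟨g, ⟨hg1, fun x => ?_⟩, aT_eq hg2⟩
    refine hL (A + s) (by omega) m _ ?_ ?_
    · rw [g16_c1]
      exact g16_sub (g16_xbi _ _ (hg1 _)) (g16_xbi _ _ (hg1 _))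
    · rw [mem_Ik, g16_c1, map_sub, map_mul, map_mul, map_pow, map_pow, Phi_x, Phi_x, hg2, hg2, hψa, hψa]
      ring
  omega

end Pool.Agent.H80W
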