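import Pool.Agent.Lib.H80W.D0
import Pool.Agent.Lib.H44K.G17

set_option autoImplicit false

/-!
CHUNK B3 (M).  H80W: the special generators are the lowest parts of the generators at the special point.  Port of Lib/H44K/G17.lean.
-/

open MvPolynomial

namespace Pool.Agent.H80W

open Pool.Agent.H89T Pool.Agent.H67T Pool.Agent.H53U Pool.Agent.H53V

open Pool.Agent.H44K (vd)

variable {n c k : ℕ} {d : Fin c → ℕ} {α : Fin c → Option (Fin n) → ℂ}

/-- PROOF.  As `fermat_u` of H44K: the only exponents with `aF ≠ 0` are `0` (value `α j none`), `single (natAdd n j) (d j)` (value `1`) and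
`single (castAdd c i) (d j)` (value `α j (some i)`: `h.choose = i` by injectivity of `single`); pairwise different because `d j ≥ 1`. -/
theorem fermat_u (hd : ∀ j, 1 ≤ d j) (j : Fin c) (i : ℕ) :
    (uK k (aF n c d α) j i : MvPolynomial (JV (n + c) k) ℂ) =
      (Polynomial.C (C (α j none)) +
        ∑ b, Polynomial.C (C (α j (some b))) *
          arc (fun p => (X p : MvPolynomial (JV (n + c) k) ℂ)) (Fin.castAdd c b) ^ d j +
        arc (fun p => (X p : MvPolynomial (JV (n + c) k) ℂ)) (Fin.natAdd n j) ^ d j :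
        Polynomial (MvPolynomial (JV (n + c) k) ℂ)).coeff i := by
  classical
  obtain ⟨M, hM⟩ : ∃ M : (Fin (n + c) →₀ ℕ) → Polynomial (MvPolynomial (JV (n + c) k) ℂ),
      M = fun μ => ∏ b, arc (fun p => (X p : MvPolynomial (JV (n + c) k) ℂ)) b ^ μ b := ⟨_, rfl⟩
  have h0 : (uK k (aF n c d α) j i : MvPolynomial (JV (n + c) k) ℂ) =
      (∑ β : Idx (n + c) (d j), Polynomial.C (C (aF n c d α ⟨j, β⟩)) * M (expo β) :
        Polynomial (MvPolynomial (JV (n + c) k) ℂ)).coeff i := by
    rw [hM]
    rfl
  rw [h0]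
  congr 1
  have hd' := hd j
  have hs0 : ∀ b : Fin (n + c), Finsupp.single b (d j) ≠ 0 := fun b h => by
    have h1 := Finsupp.single_eq_zero.1 h
    omega
  have hinj : ∀ b b' : Fin (n + c), Finsupp.single b (d j) = Finsupp.single b' (d j) → b = b' := by
    intro b b' h
    rcases (Finsupp.single_eq_single_iff _ _ _ _).1 h with h2 | h2
    · exact h2.1
    · omega
  have hne : ∀ i : Fin n, Fin.castAdd c i ≠ Fin.natAdd n j := by
    intro i h
    have h2 := congrArg Fin.val h
    simp only [Fin.val_castAdd, Fin.val_natAdd] at h2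
    omega
  have h1 : ∀ β : Idx (n + c) (d j), Polynomial.C (C (aF n c d α ⟨j, β⟩)) * M (expo β) =
      Polynomial.C (C (α j none)) * (if expo β = 0 then M (expo β) else 0) +
        ∑ b, Polynomial.C (C (α j (some b))) *
          (if expo β = Finsupp.single (Fin.castAdd c b) (d j) then M (expo β) else 0) +
        (if expo β = Finsupp.single (Fin.natAdd n j) (d j) then M (expo β) else 0) := by
    intro β
    unfold aF
    by_cases hz : expo β = 0
    · simp only [hz, if_true]
      rw [Finset.sum_eq_zero, if_neg, add_zero, add_zero]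
      · exact fun h => hs0 _ h.symm
      · intro b _
        rw [if_neg, mul_zero]
        exact fun h => hs0 _ h.symm
    · by_cases hn : expo β = Finsupp.single (Fin.natAdd n j) (d j)
      · simp only [hn, if_true, if_neg (hs0 _)]
        rw [Finset.sum_eq_zero, C_1, Polynomial.C_1, one_mul, mul_zero, zero_add, zero_add]
        intro b _
        rw [if_neg, mul_zero]
        intro h
        exact hne b (hinj _ _ h).symm
      · by_cases hb : ∃ b, expo β = Finsupp.single (Fin.castAdd c b) (d j)
        · have hb2 := hb.choose_spec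
          simp only [if_neg hz, if_neg hn, dif_pos hb]
          rw [Finset.sum_eq_single hb.choose, if_pos hb2, mul_zero, zero_add, add_zero]
          · intro b' _ hb'
            rw [if_neg, mul_zero]
            intro h
            have h3 := hinj _ _ (h.symm.trans hb2)
            exact hb' (Fin.castAdd_injective _ _ h3)
          · intro h
            exact absurd (Finset.mem_univ _) h
        · simp only [if_neg hz, if_neg hn, dif_neg hb]
          rw [Finset.sum_eq_zero, C_0, Polynomial.C_0, zero_mul, mul_zero, zero_add, zero_add]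
          intro b _
          rw [if_neg, mul_zero]
          exact fun h => hb ⟨b, h⟩
  have hMs : ∀ b : Fin (n + c), M (Finsupp.single b (d j)) =
      arc (fun p => (X p : MvPolynomial (JV (n + c) k) ℂ)) b ^ d j := by
    intro b
    rw [hM]
    simp only
    rw [Finset.prod_eq_single b]
    · rw [Finsupp.single_eq_same]
    · intro b' _ hb'
      rw [Finsupp.single_eq_of_ne hb', pow_zero]
    · intro h
      exact absurd (Finset.mem_univ _) h
  rw [Finset.sum_congr rfl fun β _ => h1 β, Finset.sum_add_distrib, Finset.sum_add_distrib,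
    Finset.sum_comm, ← Finset.mul_sum, er7d_sum 0 (by rw [map_zero]; exact Nat.zero_le _) M,
    er7d_sum (Finsupp.single (Fin.natAdd n j) (d j)) (by rw [Finsupp.degree_single]) M, hMs]
  congr 1
  congr 1
  · rw [hM]
    simp
  · refine Finset.sum_congr rfl fun b _ => ?_
    rw [← Finset.mul_sum, er7d_sum (Finsupp.single (Fin.castAdd c b) (d j))
      (by rw [Finsupp.degree_single]) M, hMs]

/-- PROOF.  As `fermat_arc` of H44K (the same statement and proof for any number `N` of variables and any exponent `e`). -/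
theorem fermat_arc {N : ℕ} {e : ℕ} (he : 1 ≤ e) (b : Fin N) (l : Fin k) (μ : JV N k →₀ ℕ) :
    (jd μ = 0 → coeff μ ((arc (fun p => (X p : MvPolynomial (JV N k) ℂ)) b ^ e).coeff
      ((l : ℕ) + 1)) = 0) ∧
    (jd μ = 1 → coeff μ ((arc (fun p => (X p : MvPolynomial (JV N k) ℂ)) b ^ e).coeff
      ((l : ℕ) + 1)) = coeff μ (C (e : ℂ) * (X (b, 0) ^ (e - 1) * X (b, l.succ)))) := by
  have hs : ∀ i, coeff μ ((arc (fun p => (X p : MvPolynomial (JV N k) ℂ)) b ^ e).coeff i) =
      ∑ m ∈ Finset.range (e + 1), coeff μ ((Polynomial.C (X (b, 0)) ^ m * H44K.g17_v b ^ (e - m) *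
        ((e.choose m : ℕ) : Polynomial (MvPolynomial (JV N k) ℂ))).coeff i) := by
    intro i
    rw [H44K.g17_arc, add_pow, Polynomial.finsetSum_coeff, coeff_sum]
  have hG : ∀ m, H44K.g17_G (e - m) (Polynomial.C (X (b, 0)) ^ m * H44K.g17_v b ^ (e - m) *
        ((e.choose m : ℕ) : Polynomial (MvPolynomial (JV N k) ℂ))) := by
    intro m
    have h1 := H44K.g17_mul (H44K.g17_pow (H44K.g17_X0 (k := k) b) m)
      (H44K.g17_pow (H44K.g17_v_G (k := k) b) (e - m))
    rw [mul_zero, zero_add, mul_one] at h1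
    intro i
    rw [← Polynomial.C_eq_natCast, Polynomial.coeff_mul_C, ← map_natCast (C : ℂ →+* _)]
    have h2 := (h1 i).mul (isWeightedHomogeneous_C (H44K.g17_w : JV N k → ℕ) ((e.choose m : ℕ) : ℂ))
    rw [add_zero] at h2
    exact h2
  constructor
  · intro hμ
    rw [hs, Finset.sum_eq_single e]
    · rw [Nat.sub_self, pow_zero, mul_one, Nat.choose_self, Nat.cast_one, mul_one,
        ← Polynomial.C_pow, Polynomial.coeff_C, if_neg (by omega), coeff_zero]
    · intro m hm hmd
      rw [Finset.mem_range] at hm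
      apply H44K.g17_coeff (hG m)
      omega
    · intro h
      exact absurd (Finset.mem_range.2 (by omega)) h
  · intro hμ
    rw [hs, Finset.sum_eq_single (e - 1)]
    · have h1 : e - (e - 1) = 1 := by omega
      have h2 : e.choose (e - 1) = e := by
        rw [← Nat.choose_symm (by omega : e - 1 ≤ e), h1, Nat.choose_one_right]
      rw [h1, h2, pow_one, ← Polynomial.C_eq_natCast, Polynomial.coeff_mul_C, ← Polynomial.C_pow,
        Polynomial.coeff_C_mul, H44K.g17_v_coeff, ← map_natCast (C : ℂ →+* _)]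
      congr 1
      ring
    · intro m hm hmd
      rw [Finset.mem_range] at hm
      apply H44K.g17_coeff (hG m)
      omega
    · intro h
      exact absurd (Finset.mem_range.2 (by omega)) h

theorem b3_F (hd : ∀ j, 1 ≤ d j) (j : Fin c) : FhK k (aF n c d α) j = F0s n c k d α j := by
  unfold FhK F0s Fx
  rw [fermat_u hd]
  have harc : ∀ b : Fin (n + c), (arc (fun p => (X p : MvPolynomial (JV (n + c) k) ℂ)) b ^ d j).coeff 0 =
      X (b, 0) ^ d j := by
    intro b
    rw [Polynomial.coeff_zero_eq_eval_zero, Polynomial.eval_pow]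
    congr 1
    unfold arc
    rw [Fin.sum_univ_succ]
    simp [Polynomial.eval_finsetSum]
  have h1 : ((Polynomial.C (C (α j none)) +
        ∑ b, Polynomial.C (C (α j (some b))) *
          arc (fun p => (X p : MvPolynomial (JV (n + c) k) ℂ)) (Fin.castAdd c b) ^ d j +
        arc (fun p => (X p : MvPolynomial (JV (n + c) k) ℂ)) (Fin.natAdd n j) ^ d j :
        Polynomial (MvPolynomial (JV (n + c) k) ℂ))).coeff 0 =
      α j none • 1 + ∑ b, α j (some b) • X (Fin.castAdd c b, 0) ^ d j + X (Fin.natAdd n j, 0) ^ d j := by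
    rw [Polynomial.coeff_add, Polynomial.coeff_add, Polynomial.coeff_C_zero,
      Polynomial.finsetSum_coeff, harc, smul_eq_C_mul, mul_one]
    congr 2
    refine Finset.sum_congr rfl fun b _ => ?_
    rw [Polynomial.coeff_C_mul, harc, smul_eq_C_mul]
  rw [h1, map_add, map_add, map_sum, map_smul, H44K.g17_homz_one, H44K.g17_homz_pow, map_add,
    map_pow, rename_X, map_sum, Fintype.sum_option, add_comm (X (xv (vc n c j)) ^ d j)]
  congr 1
  congr 1
  · rw [map_mul, rename_C, map_pow, rename_X, smul_eq_C_mul]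
    rfl
  · refine Finset.sum_congr rfl fun b _ => ?_
    rw [map_smul, H44K.g17_homz_pow, map_mul, rename_C, map_pow, rename_X, smul_eq_C_mul]
    rfl

theorem b3_U (q : Fin c × Fin k) : U0s n c k d α q =
    homz (d q.1 - 1) (∑ b : Fin n, α q.1 (some b) • (C (d q.1 : ℂ) *
        (X (Fin.castAdd c b, 0) ^ (d q.1 - 1) * X (Fin.castAdd c b, q.2.succ))) +
      C (d q.1 : ℂ) * (X (Fin.natAdd n q.1, 0) ^ (d q.1 - 1) * X (Fin.natAdd n q.1, q.2.succ))) := by
  classical
  have hh : ∀ b : Fin (n + c), homz (d q.1 - 1) (C (d q.1 : ℂ) *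
      (X (b, 0) ^ (d q.1 - 1) * X (b, q.2.succ)) : MvPolynomial (JV (n + c) k) ℂ) =
      C (d q.1 : ℂ) * (X (some (b, 0)) ^ (d q.1 - 1) * X (some (b, q.2.succ))) := by
    intro b
    rw [C_mul', map_smul, homz_mul_jet _ _ _ (Fin.succ_ne_zero _), H44K.g17_homz_pow, C_mul']
  rw [map_add, map_sum, hh]
  unfold U0s
  rw [Fin.sum_univ_add, mul_add, Finset.mul_sum]
  congr 1
  · refine Finset.sum_congr rfl fun b _ => ?_
    rw [map_smul, hh]
    unfold Jx
    rw [Fin.addCases_left, map_mul, rename_C, map_pow, rename_X, smul_eq_C_mul]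
    have h2 : (xv (vb n c (some b)) : HV (n + c) k) = some (Fin.castAdd c b, 0) := rfl
    rw [h2]
    ring
  · rw [Finset.sum_eq_single q.1]
    · unfold Jx
      rw [Fin.addCases_right, if_pos rfl, map_pow, rename_X]
      rfl
    · intro j' _ hj
      unfold Jx
      rw [Fin.addCases_right, if_neg hj, map_zero, zero_mul]
    · intro h
      exact absurd (Finset.mem_univ _) h

/-- PROOF.  As `fermat_F` of H44K. -/
theorem fermat_F (hd : ∀ j, 1 ≤ d j) (j : Fin c) (μ : HV (n + c) k →₀ ℕ) :
    coeff μ (F0s n c k d α j) = if vd μ = 0 then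
      eval (aF n c d α) (coeff μ (FhK k (gc (n + c) d) j)) else 0 := by
  have h1 : eval (aF n c d α) (coeff μ (FhK k (gc (n + c) d) j)) =
      coeff μ (F0s n c k d α j) := by
    rw [← coeff_map, FhK_map, ← b3_F hd]
    congr 2
    funext p
    unfold gc
    rw [eval_X]
  rw [h1]
  split_ifs with h
  · rfl
  · have h2 : BiH (d j) 0 (FhK k (aF n c d α) j) := FhK_bi (aF n c d α) j
    rw [b3_F hd] at h2
    apply h2.coeff_eq_zero
    intro h3
    apply h
    have h4 := ehc_weight_snd μ
    rw [h3] at h4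
    have h5 : ∀ p ∈ (Finset.univ : Finset (Fin (n + c) × Fin k)),
        ((p.2 : ℕ) + 1) * μ (some (p.1, p.2.succ)) = 0 :=
      (Finset.sum_eq_zero_iff).1 h4.symm
    unfold H44K.vd
    refine Finset.sum_eq_zero fun p hp => ?_
    rcases Nat.mul_eq_zero.1 (h5 p hp) with h6 | h6
    · omega
    · exact h6

/-- PROOF.  As `fermat_U` of H44K. -/
theorem fermat_U (hd : ∀ j, 1 ≤ d j) (q : Fin c × Fin k) (μ : HV (n + c) k →₀ ℕ) :
    (vd μ < 1 → eval (aF n c d α) (coeff μ (UhK k (gc (n + c) d) q)) = 0) ∧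
    coeff μ (U0s n c k d α q) = if vd μ = 1 then
      eval (aF n c d α) (coeff μ (UhK k (gc (n + c) d) q)) else 0 := by
  have h1 : eval (aF n c d α) (coeff μ (UhK k (gc (n + c) d) q)) =
      coeff μ (UhK k (aF n c d α) q) := by
    rw [← coeff_map, UhK_map]
    congr 2
    funext p
    unfold gc
    rw [eval_X]
  have h2 : (uK k (aF n c d α) q.1 ((q.2 : ℕ) + 1) : MvPolynomial (JV (n + c) k) ℂ) =
      ∑ b, C (α q.1 (some b)) * (arc (fun p => (X p : MvPolynomial (JV (n + c) k) ℂ))
          (Fin.castAdd c b) ^ d q.1).coeff ((q.2 : ℕ) + 1) +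
        (arc (fun p => (X p : MvPolynomial (JV (n + c) k) ℂ))
          (Fin.natAdd n q.1) ^ d q.1).coeff ((q.2 : ℕ) + 1) := by
    rw [fermat_u hd, Polynomial.coeff_add, Polynomial.coeff_add, Polynomial.coeff_C,
      if_neg (by omega), zero_add, Polynomial.finsetSum_coeff]
    congr 1
    refine Finset.sum_congr rfl fun b _ => ?_
    rw [Polynomial.coeff_C_mul]
  rw [h1]
  unfold UhK
  rw [h2, b3_U, H44K.g17_homz, H44K.g17_homz, ← H44K.g17_vd, coeff_add, coeff_sum, coeff_add,
    coeff_sum]
  constructor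
  · intro h
    rw [Finset.sum_eq_zero, (fermat_arc (hd q.1) _ q.2 _).1 (by omega), add_zero, ite_self]
    intro b _
    rw [coeff_C_mul, (fermat_arc (hd q.1) _ q.2 _).1 (by omega), mul_zero]
  · by_cases h : jd (er1_res μ) = 1
    · rw [if_pos h, (fermat_arc (hd q.1) _ q.2 _).2 h]
      congr 2
      refine Finset.sum_congr rfl fun b _ => ?_
      rw [coeff_C_mul, (fermat_arc (hd q.1) _ q.2 _).2 h, coeff_smul, smul_eq_mul]
    · rw [if_neg h, Finset.sum_eq_zero, zero_add, coeff_C_mul, H44K.g17_jd _ _ _ h, mul_zero, ite_self]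
      intro b _
      rw [coeff_smul, coeff_C_mul, H44K.g17_jd _ _ _ h, mul_zero, smul_zero]

end Pool.Agent.H80W
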