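import Pool.Agent.Lib.H80W.C3
import Pool.Agent.Lib.H80W.A3
import Pool.Agent.Lib.H80W.A4
import Pool.Agent.Lib.H80W.B3
import Pool.Agent.Lib.H44K.G18
import Pool.Agent.Lib.H44K.GE

set_option autoImplicit false

/-!
H80W, C5: comparison of the generic and the special ideal (port of H44K G18).
-/

open MvPolynomial

namespace Pool.Agent.H80W

open Pool.Agent.H89T Pool.Agent.H67T Pool.Agent.H53U Pool.Agent.H53V

open Pool.Agent.H44K (mdet dop Gt Ch wch kap c1 c2 Dm VP IP finrank_IP finrank_VP s3_finite exists_E12 E1 E2 vd c1_bi c2_bi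
  kap_formula g16_kap_fin sup_le_kap semi)

variable {n c k : ℕ} {d : Fin c → ℕ} {α : Fin c → Option (Fin n) → ℂ}

theorem c5_F (j : Fin c) : map (algebraMap (RC (n + c) d)
    (KF (n + c) d)) (FhK k (gc (n + c) d) j) =
    FhK k (gK (n + c) d) j := by
  rw [FhK_map]
  unfold gK
  rfl

theorem c5_U (q : Fin c × Fin k) : map (algebraMap (RC (n + c) d)
    (KF (n + c) d)) (UhK k (gc (n + c) d) q) =
    UhK k (gK (n + c) d) q := by
  rw [UhK_map]
  unfold gK
  rfl

theorem c5_univ {c : ℕ} (k : ℕ) :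
    {q : Fin c × Fin k | q.1 ∈ (Finset.univ : Finset (Fin c))} = Set.univ := by
  ext q
  constructor
  · intro _
    exact Set.mem_univ q
  · intro _
    show q.1 ∈ (Finset.univ : Finset (Fin c))
    exact Finset.mem_univ q.1

theorem c5_bi (t : Fin c ⊕ Fin c × Fin k) :
    BiH (dge k d t).1 (dge k d t).2 (gge n c k d t) := by
  rcases t with j | q
  · show BiH (d j) 0 (FhK k (gc (n + c) d) j)
    exact FhK_bi (gc (n + c) d) j
  · show BiH (d q.1 - 1) ((q.2 : ℕ) + 1) (UhK k (gc (n + c) d) q)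
    exact UhK_bi (gc (n + c) d) q

theorem c5_low (hd : ∀ j, 1 ≤ d j) (t : Fin c ⊕ Fin c × Fin k) (μ : HV (n + c) k →₀ ℕ)
    (h : vd μ < kge c k t) : eval (aF n c d α) (coeff μ (gge n c k d t)) = 0 := by
  rcases t with j | q
  · exact absurd h (Nat.not_lt_zero _)
  · show eval (aF n c d α) (coeff μ (UhK k (gc (n + c) d) q)) = 0
    exact (fermat_U hd q μ).1 h

theorem c5_eq (hd : ∀ j, 1 ≤ d j) (t : Fin c ⊕ Fin c × Fin k) (μ : HV (n + c) k →₀ ℕ) :
    coeff μ (gsp n c k d α t) = if vd μ = kge c k t then eval (aF n c d α) (coeff μ (gge n c k d t)) else 0 := by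
  rcases t with j | q
  · show coeff μ (F0s n c k d α j) = if vd μ = 0 then
      eval (aF n c d α) (coeff μ (FhK k (gc (n + c) d) j)) else 0
    exact fermat_F hd j μ
  · show coeff μ (U0s n c k d α q) = if vd μ = 1 then
      eval (aF n c d α) (coeff μ (UhK k (gc (n + c) d) q)) else 0
    exact (fermat_U hd q μ).2

/-- PROOF.  `Set.range (Sum.elim f g) = range f ∪ range g`, `{q | q.1 ∈ univ} = univ`, `Set.image_univ`, `FhK_map`, `UhK_map` (`gK p = algebraMap (gc p)`
by definition). -/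
theorem span_gge (n k : ℕ) {c : ℕ} (d : Fin c → ℕ) : Ideal.span (Set.range fun t => map (algebraMap
    (RC (n + c) d) (KF (n + c) d)) (gge n c k d t)) =
      Ige n c k d := by
  have h1 : (fun t => map (algebraMap (RC (n + c) d)
      (KF (n + c) d)) (gge n c k d t)) =
      Sum.elim (FhK k (gK (n + c) d)) (UhK k (gK (n + c) d)) := by
    funext t
    rcases t with j | q
    · exact c5_F j
    · exact c5_U q
  have h2 := c5_univ (c := c) k
  rw [h1, Set.Sum.elim_range]
  unfold Ige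
  rw [h2, Set.image_univ]

theorem span_gsp (k : ℕ) : Ideal.span (Set.range (gsp n c k d α)) = Isp n c k d α := by
  have h2 := c5_univ (c := c) k
  unfold gsp Isp
  rw [Set.Sum.elim_range, h2, Set.image_univ]

/-- PROOF.  `A₀` = the maximum of the given `A₀`, of `A₁` of `hf_eq` and `A₁` of `Ik_large`.  Abbreviate (all dimensions):
`kge = finrank (kap c1 Ige A m)`, `Yge = finrank (VP.map (Dm c1) ⊔ IP Ige (A + s))`, `ksp`, `Ysp` similarly.
 (1) `kap_formula` (c1) for `Ige` and `Isp`: `kge + Yge = VP + IPge`, `ksp + Ysp = VP + IPsp`; the right sides are equal: `finrank_VP`, `ehc_V_finrank`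
(independent of the field), `finrank_IP`, `ehc_hf`, `hf_eq` at `A + s`.
 (2) `Yge ≤ finrank (kap c2 Ige (A + s) m)` (`sup_le_kap`, `Submodule.finrank_mono`; `kap` is finite-dimensional: contained in `VP`).
 (3) `finrank (kap c2 Ige (A + s) m) ≤ finrank (kap c2 Isp (A + s) m)`: `semi (eval (aF n c d α)) gge gsp dge kge`, `FhK_bi`, `UhK_bi`, `fermat_F`, `fermat_U`,
`c2_bi`, `span_gge`, `span_gsp`, `hf_eq` at `A + s + s`.
 (4) `finrank (kap c2 Isp (A + s) m) + Bc = Zc + Ysp` (`kap2_sp`), `Zc ≤ (n + c + 1)^2 BG + Bc` (`finrank_Zc`).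
 So `Yge ≤ Ysp + (n + c + 1)^2 BG`, and `ksp ≤ kge + (n + c + 1)^2 BG` (`omega`). -/
theorem kap_ineq (k : ℕ) (hd : ∀ j, 2 ≤ d j) (hg : GoodA n c d α) :
    ∃ A₁ : ℕ, ∀ A ≥ A₁, ∀ m s t, 1 ≤ s → s ≤ DD d * t →
      Module.finrank ℂ (kap (c1 (n + c) k s) (Isp n c k d α) A m) ≤
        Module.finrank (KF (n + c) d) (kap (c1 (n + c) k s) (Ige n c k d) A m) +
          (n + c + 1) ^ 2 * Module.finrank ℂ (BG k (xi n c d α) (MM n c d α) t (A + s) m) := by
  have hd1 : ∀ j, 1 ≤ d j := fun j => by have := hd j; omega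
  obtain ⟨A₃, hA₃⟩ := exists_E12 (Ik_hom (n := n) k hd1 hg.ne)
  obtain ⟨A₄, hA₄⟩ := hSat_sp k hd1 hg
  obtain ⟨A₀, hA₀3, hA₀4⟩ : ∃ A₀, A₃ ≤ A₀ ∧ A₄ ≤ A₀ := ⟨max A₃ A₄, le_max_left _ _, le_max_right _ _⟩
  have hE2 : ∀ c' ≥ A₀, ∀ s, 1 ≤ s → E2 (Ik k (xi n c d α) (MM n c d α)) c' (fun _ => s) :=
    fun c' hc s hs => (hA₃ c' (by omega) (fun _ => s) fun _ => hs).2
  have hS : HSat k (xi n c d α) (MM n c d α) (DD d) (yi n c d α) A₀ := fun A hA =>
    hA₄ A (by omega)
  obtain ⟨A₁, hA₁⟩ := hf_eq k hd hg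
  obtain ⟨A₂, hA₂⟩ := Ik_large k hd hg
  refine ⟨max A₀ (max A₁ A₂), fun A hA m s t hs hst => ?_⟩
  have hA0 : A₀ ≤ A := (le_max_left _ _).trans hA
  have hA1 : A₁ ≤ A := ((le_max_left _ _).trans (le_max_right _ _)).trans hA
  have hA2 : A₂ ≤ A := ((le_max_right _ _).trans (le_max_right _ _)).trans hA
  have k1 := kap_formula (c1 (n + c) k s) (c1_bi (n + c) k s) (Ige n c k d) A m
  have k2 := kap_formula (c1 (n + c) k s) (c1_bi (n + c) k s) (Isp n c k d α) A m
  have v1 := finrank_VP (KF (n + c) d) (n + c) k (Option (Fin (n + c))) A m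
  have v2 := finrank_VP ℂ (n + c) k (Option (Fin (n + c))) A m
  have v3 := ehc_V_finrank (K := KF (n + c) d) (N := n + c) (k := k) A m
  have v4 := ehc_V_finrank (K := ℂ) (N := n + c) (k := k) A m
  have v5 : Module.finrank (KF (n + c) d)
      (VP (KF (n + c) d) (n + c) k (Option (Fin (n + c))) A m) =
      Module.finrank ℂ (VP ℂ (n + c) k (Option (Fin (n + c))) A m) := by
    rw [v1, v2]
    exact congrArg _ (v3.trans v4.symm)
  have i1 := finrank_IP (Ige n c k d) (Option (Fin (n + c)) × Option (Fin (n + c))) (A + s) m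
  have i2 := finrank_IP (Isp n c k d α) (Option (Fin (n + c)) × Option (Fin (n + c))) (A + s) m
  have i3 := ehc_hf (Ige n c k d) (A + s) m
  have i4 := ehc_hf (Isp n c k d α) (A + s) m
  have i5 := hA₁ (A + s) (by omega) m
  have i6 := ehc_V_finrank (K := KF (n + c) d) (N := n + c) (k := k) (A + s) m
  have i7 := ehc_V_finrank (K := ℂ) (N := n + c) (k := k) (A + s) m
  have i8 : Module.finrank (KF (n + c) d) (ehc_P (Ige n c k d) (A + s) m) =
      Module.finrank ℂ (ehc_P (Isp n c k d α) (A + s) m) := by omega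
  have i9 : Module.finrank (KF (n + c) d)
      (IP (Ige n c k d) (Option (Fin (n + c)) × Option (Fin (n + c))) (A + s) m) =
      Module.finrank ℂ (IP (Isp n c k d α) (Option (Fin (n + c)) × Option (Fin (n + c))) (A + s) m) := by
    rw [i1, i2]
    exact congrArg _ i8
  have fk := g16_kap_fin (c2 (n + c) k s) (Ige n c k d) (A + s) m
  have m2 := Submodule.finrank_mono (sup_le_kap (Ige n c k d) A s m)
  have m3 := semi (R := RC (n + c) d) (K := KF (n + c) d)
    (F := ℂ) (eval (aF n c d α)) (gge n c k d) (gsp n c k d α) (dge k d) (kge c k)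
    c5_bi (c5_low hd1) (c5_eq hd1)
    (c2 (n + c) k s) (c2_bi (n + c) k s) (A + s) m
    (by
      rw [span_gge, span_gsp]
      exact hA₁ (A + s + s) (by omega) m)
  rw [span_gge, span_gsp] at m3
  have m4 := kap2_sp (Isp_le k hd1 hg.ne) hA₂ hA2 s m
  have m5 := finrank_Zc (u := none) (xi_vb_unit none) (yi_yy hd1 hg.ne) hS (hRight_sp k hd1 hg.ne) (hE2 · · s hs) hA0 hst m
  omega

end Pool.Agent.H80W
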