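import Pool.Agent.Lib.H80W.B1

set_option autoImplicit false

/-!
CHUNK B4 (M).  H80W: the number of the values of the forms of degree `D`.  Port of the first part of Lib/H44K/G20.lean (`g20_span`, `g20_le`, `finrank_UU`).
-/

open MvPolynomial

namespace Pool.Agent.H80W

open Pool.Agent.H89T Pool.Agent.H67T Pool.Agent.H53U Pool.Agent.H53V

/-- The values in `E` of the forms of degree `D`. -/
noncomputable def UU {E : Type} [CommRing E] [Algebra ℂ E] {N : ℕ} (xi : Option (Fin N) → E) (D : ℕ) :
    Submodule ℂ E :=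
  (homogeneousSubmodule (Option (Fin N)) ℂ D).map (aeval xi).toLinearMap

section b4

variable {E : Type} [CommRing E] [Algebra ℂ E] {n c : ℕ} (d : Fin c → ℕ) (u : Fin c → E) (w : Option (Fin n) → E)

open Classical in
/-- the spanning family -/
noncomputable def b4_w (D : ℕ)
    (i : (∀ j, Fin (d j)) × ((Finset.univ : Finset (Option (Fin n))).finsuppAntidiag D)) : E :=
  (∏ j, u j ^ ((i.1 j : Fin (d j)) : ℕ)) *
    ∏ b, w b ^ (((i.2 : Option (Fin n) →₀ ℕ)) b - (if b = none then ∑ j, ((i.1 j : Fin (d j)) : ℕ) else 0))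

theorem b4_span (hd : ∀ j, 1 ≤ d j) (a : Fin c → Option (Fin n) → ℂ)
    (hrel : ∀ j, u j ^ d j + ∑ b, algebraMap ℂ E (a j b) * w b ^ d j = 0) (D : ℕ) :
    ∀ (s : ℕ) (e : Fin c → ℕ) (ν : Option (Fin n) → ℕ), ∑ j, e j = s → s + ∑ b, ν b = D →
    (∏ j, u j ^ e j) * ∏ b, w b ^ ν b ∈ Submodule.span ℂ (Set.range (b4_w d u w D)) := by
  classical
  intro s
  induction s using Nat.strong_induction_on with
  | _ s ih =>
    intro e ν hs hν
    by_cases he : ∀ j, e j < d j
    · refine Submodule.subset_span ⟨(fun j => ⟨e j, he j⟩,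
        ⟨Finsupp.equivFunOnFinite.symm ν + Finsupp.single none s, ?_⟩), ?_⟩
      · rw [Finset.mem_finsuppAntidiag]
        refine ⟨?_, Finset.subset_univ _⟩
        rw [← hν]
        have h1 : ∑ b, (Finsupp.equivFunOnFinite.symm ν + Finsupp.single none s : Option (Fin n) →₀ ℕ) b =
            ∑ b, ν b + ∑ b, (Finsupp.single (none : Option (Fin n)) s) b := by
          rw [← Finset.sum_add_distrib]
          rfl
        rw [h1, Finsupp.single_eq_pi_single]
        rw [Finset.sum_pi_single' (none : Option (Fin n)) s Finset.univ]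
        simp [add_comm]
      · unfold b4_w
        have h5 : ∑ j, (((fun j => ⟨e j, he j⟩ : ∀ j, Fin (d j)) j : Fin (d j)) : ℕ) = s := hs
        refine congrArg₂ (· * ·) rfl (Finset.prod_congr rfl fun b _ => ?_)
        have h2 : (Finsupp.equivFunOnFinite.symm ν + Finsupp.single (none : Option (Fin n)) s) b =
            ν b + (if b = none then s else 0) := by
          rw [Finsupp.add_apply, Finsupp.single_apply]
          by_cases hb : b = none
          · rw [if_pos hb, if_pos hb.symm]
            rfl
          · rw [if_neg hb, if_neg fun h => hb h.symm]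
            rfl
        have h3 : (Finsupp.equivFunOnFinite.symm ν + Finsupp.single (none : Option (Fin n)) s) b -
            (if b = none then ∑ j, (((fun j => ⟨e j, he j⟩ : ∀ j, Fin (d j)) j : Fin (d j)) : ℕ) else 0) = ν b := by
          rw [h2, h5, Nat.add_sub_cancel]
        exact congrArg (fun t => w b ^ t) h3
    · push Not at he
      obtain ⟨j0, hj0⟩ := he
      let e' : Fin c → ℕ := fun j => e j - if j = j0 then d j0 else 0
      have h6 : ∀ j, e j = e' j + if j = j0 then d j0 else 0 := by
        intro j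
        by_cases h : j = j0
        · change e j = e j - (if j = j0 then d j0 else 0) + _
          rw [if_pos h, h, Nat.sub_add_cancel hj0]
        · change e j = e j - (if j = j0 then d j0 else 0) + _
          rw [if_neg h, Nat.sub_zero, add_zero]
      have h7 : ∏ j, u j ^ e j = (∏ j, u j ^ e' j) * u j0 ^ d j0 := by
        have h8 : ∏ j, u j ^ (if j = j0 then d j0 else 0) = u j0 ^ d j0 := by
          rw [Finset.prod_eq_single j0]
          · rw [if_pos rfl]
          · intro b _ hb
            rw [if_neg hb, pow_zero]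
          · intro h
            exact absurd (Finset.mem_univ _) h
        rw [← h8, ← Finset.prod_mul_distrib]
        refine Finset.prod_congr rfl fun j _ => ?_
        rw [← pow_add, ← h6 j]
      have h0 : u j0 ^ d j0 = - ∑ b, algebraMap ℂ E (a j0 b) * w b ^ d j0 := eq_neg_of_add_eq_zero_left (hrel j0)
      have h1 : (∏ j, u j ^ e j) * ∏ b, w b ^ ν b =
          - ∑ x, a j0 x • ((∏ j, u j ^ e' j) * ∏ b, w b ^ (ν b + if b = x then d j0 else 0)) := by
        rw [h7, h0, mul_neg, neg_mul, Finset.mul_sum, Finset.sum_mul]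
        refine congrArg Neg.neg (Finset.sum_congr rfl fun x _ => ?_)
        have h3 : ∏ b, w b ^ (if b = x then d j0 else 0) = w x ^ d j0 := by
          rw [Finset.prod_eq_single x]
          · rw [if_pos rfl]
          · intro b _ hb
            rw [if_neg hb, pow_zero]
          · intro h
            exact absurd (Finset.mem_univ _) h
        have h4 : ∏ b, w b ^ (ν b + if b = x then d j0 else 0) = (∏ b, w b ^ ν b) * w x ^ d j0 := by
          rw [← h3, ← Finset.prod_mul_distrib]
          exact Finset.prod_congr rfl fun b _ => by rw [pow_add]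
        rw [h4, Algebra.smul_def]
        ring
      rw [h1]
      refine Submodule.neg_mem _ (Submodule.sum_mem _ fun x _ => Submodule.smul_mem _ _ ?_)
      have h9 : ∑ j, e j = ∑ j, e' j + d j0 := by
        rw [Finset.sum_congr rfl fun j _ => h6 j, Finset.sum_add_distrib, Finset.sum_ite_eq' Finset.univ j0,
          if_pos (Finset.mem_univ _)]
      have h10 := hd j0
      refine ih (∑ j, e' j) (by omega) e' _ rfl ?_
      rw [Finset.sum_add_distrib, Finset.sum_ite_eq' Finset.univ x, if_pos (Finset.mem_univ _)]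
      omega

theorem b4_gen (hd : ∀ j, 1 ≤ d j) (a : Fin c → Option (Fin n) → ℂ) (x : Option (Fin (n + c)) → E)
    (hrel : ∀ j, x (vc n c j) ^ d j + ∑ b, algebraMap ℂ E (a j b) * x (vb n c b) ^ d j = 0) (D : ℕ) :
    Module.finrank ℂ (UU x D) ≤ (∏ j, d j) * (D + n).choose n := by
  classical
  have hfin : Module.Finite ℂ (Submodule.span ℂ (Set.range (b4_w d (fun j => x (vc n c j)) (fun b => x (vb n c b)) D))) :=
    Module.Finite.span_of_finite ℂ (Set.finite_range _)
  have hle : UU x D ≤ Submodule.span ℂ (Set.range (b4_w d (fun j => x (vc n c j)) (fun b => x (vb n c b)) D)) := by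
    intro y hy
    unfold UU at hy
    rw [Submodule.mem_map] at hy
    obtain ⟨p, hp, rfl⟩ := hy
    have hp' : p.IsHomogeneous D := hp
    change aeval x p ∈ _
    rw [p.as_sum, map_sum]
    refine Submodule.sum_mem _ fun μ hμ => ?_
    have hdeg : μ.degree = D := by
      by_contra h
      exact mem_support_iff.1 hμ (hp'.coeff_eq_zero h)
    rw [aeval_monomial, ← Algebra.smul_def]
    refine Submodule.smul_mem _ _ ?_
    have h1 : (μ.prod fun i k => x i ^ k) = (∏ j, x (vc n c j) ^ μ (vc n c j)) *
        ∏ b, x (vb n c b) ^ μ (vb n c b) := by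
      rw [Finsupp.prod_fintype _ _ fun i => pow_zero _, Fintype.prod_option, Fin.prod_univ_add, Fintype.prod_option]
      change x none ^ μ none * ((∏ i : Fin n, x (some (Fin.castAdd c i)) ^ μ (some (Fin.castAdd c i))) *
        ∏ i : Fin c, x (some (Fin.natAdd n i)) ^ μ (some (Fin.natAdd n i))) =
        (∏ j : Fin c, x (some (Fin.natAdd n j)) ^ μ (some (Fin.natAdd n j))) *
          (x none ^ μ none * ∏ i : Fin n, x (some (Fin.castAdd c i)) ^ μ (some (Fin.castAdd c i)))
      ring
    rw [h1]
    refine b4_span d (fun j => x (vc n c j)) (fun b => x (vb n c b)) hd a hrel D _ (fun j => μ (vc n c j))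
      (fun b => μ (vb n c b)) rfl ?_
    have h20 : ∑ i, μ i = μ none + (∑ i : Fin n, μ (some (Fin.castAdd c i)) +
        ∑ i : Fin c, μ (some (Fin.natAdd n i))) := by
      rw [Fintype.sum_option, Fin.sum_univ_add]
    have h21 : ∑ b : Option (Fin n), μ (vb n c b) = μ none + ∑ i : Fin n, μ (some (Fin.castAdd c i)) := by
      rw [Fintype.sum_option]
      rfl
    rw [← hdeg, Finsupp.degree_eq_sum, h20, h21]
    change ∑ j : Fin c, μ (some (Fin.natAdd n j)) + (μ none + ∑ i : Fin n, μ (some (Fin.castAdd c i))) =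
      μ none + (∑ i : Fin n, μ (some (Fin.castAdd c i)) + ∑ i : Fin c, μ (some (Fin.natAdd n i)))
    ring
  refine (Submodule.finrank_mono hle).trans ?_
  refine (finrank_range_le_card (R := ℂ) (b4_w d (fun j => x (vc n c j)) (fun b => x (vb n c b)) D)).trans (le_of_eq ?_)
  rw [Fintype.card_prod, Fintype.card_pi, Fintype.card_coe, Finset.card_finsuppAntidiag_nat_eq_choose,
    Finset.card_univ, Fintype.card_option, Fintype.card_fin]
  have h1 : n + 1 + D - 1 = D + n := by omega
  rw [h1, Finset.prod_congr rfl fun j _ => Fintype.card_fin (d j), Nat.choose_symm_add]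

end b4

variable {n c : ℕ} {d : Fin c → ℕ} {α : Fin c → Option (Fin n) → ℂ}

/-- PROOF.  The values of the monomials `ν` of degree `D` with `ν (vc j) < d j` for all `j` span: strong induction on `∑ j, ν (vc j)`; if `ν (vc j) ≥ d j` use
`xi (vc j) ^ d j = - ∑ b, α j b * xi (vb b) ^ d j` (`xi_rel`): every term has a smaller `∑ j, ν (vc j)` (`d j ≥ 1`).  Index them by
`(∀ j, Fin (d j)) × finsuppAntidiag (univ : Finset (Option (Fin n))) D`: `(i, κ) ↦ ∏ j, xi (vc j) ^ i j * ∏ b, xi (vb b) ^ (κ b - if b = none then ∑ i else 0)`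
(surjective on the reduced monomials: `κ b = ν (vb b) + if b = none then ∑ j, ν (vc j) else 0`).  `Finset.card_finsuppAntidiag_nat_eq_choose`,
`Fintype.card_pi`. -/
theorem finrank_UU (hd : ∀ j, 1 ≤ d j) (D : ℕ) :
    Module.finrank ℂ (UU (xi n c d α) D) ≤ (∏ j, d j) * (D + n).choose n := by
  exact b4_gen (E := EE n c d α) d hd α (xi n c d α) (fun j => xi_rel j) D

end Pool.Agent.H80W
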