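import Pool.Agent.Lib.H80W.A1
import Pool.Agent.Lib.H80W.B4
import Pool.Agent.Lib.H80N.Q

set_option autoImplicit false

/-!
H80W, C6: linear models.  The elements of `BB` killed by the operator: a bound for the dimension (port of H44K G20).
-/

open MvPolynomial

namespace Pool.Agent.H80W

open Pool.Agent.H89T Pool.Agent.H67T Pool.Agent.H53U Pool.Agent.H53V

open Pool.Agent.H44K (mdet dop Gt Ch wch Good nbad ngoodS)

variable {E : Type} [CommRing E] [Algebra ℂ E] {N n : ℕ} {k : ℕ} {xi : Option (Fin N) → E}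
  {M : Fin N → Fin n → E}

/-- The space of forms is finite-dimensional. -/
theorem UU_finite (xi : Option (Fin N) → E) (D : ℕ) : Module.Finite ℂ (UU xi D) := by
  have h1 : Module.Finite ℂ (homogeneousSubmodule (Option (Fin N)) ℂ D) := by
    have h2 : homogeneousSubmodule (Option (Fin N)) ℂ D ≤ restrictTotalDegree (Option (Fin N)) ℂ D := by
      intro p hp
      rw [mem_restrictTotalDegree]
      exact (mem_homogeneousSubmodule _ _).1 hp |>.totalDegree_le
    exact Submodule.finiteDimensional_of_le h2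
  unfold UU
  exact Module.Finite.map _ _

theorem c6_mem {D : ℕ} {u : E} :
    u ∈ UU xi D ↔ ∃ p : MvPolynomial (Option (Fin (N))) ℂ, p.IsHomogeneous D ∧ aeval (xi) p = u := by
  unfold UU
  rw [Submodule.mem_map]
  rfl

theorem c6_mul {D D' : ℕ} {u v : E} (hu : u ∈ UU xi D) (hv : v ∈ UU xi D') :
    u * v ∈ UU xi (D + D') := by
  obtain ⟨p, hp, rfl⟩ := c6_mem.1 hu
  obtain ⟨q, hq, rfl⟩ := c6_mem.1 hv
  exact c6_mem.2 ⟨p * q, hp.mul hq, map_mul _ _ _⟩

theorem c6_xi (b : Option (Fin (N))) : xi b ∈ UU xi 1 :=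
  c6_mem.2 ⟨X b, isHomogeneous_X _ _, aeval_X _ _⟩

theorem c6_one : (1 : E) ∈ UU xi 0 :=
  c6_mem.2 ⟨1, isHomogeneous_one _ _, map_one _⟩

theorem c6_pow {D : ℕ} {u : E} (hu : u ∈ UU xi D) (e : ℕ) : u ^ e ∈ UU xi (D * e) := by
  induction e with
  | zero =>
    rw [pow_zero, mul_zero]
    exact c6_one
  | succ e ih =>
    rw [pow_succ, mul_add, mul_one]
    exact c6_mul ih hu

theorem c6_ite {D : ℕ} {u : E} (hu : u ∈ UU xi D) (c : Prop) [Decidable c] :
    u * (if c then 1 else 0) ∈ UU xi D := by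
  split_ifs
  · rw [mul_one]
    exact hu
  · rw [mul_zero]
    exact Submodule.zero_mem _

/-- the coefficients have bounded degree after multiplication by a power of `yy last` -/
def c6P (k n : ℕ) (xi : Option (Fin N) → E) (y : E) (D : ℕ) (v : ℕ × ℕ) (f : MvPolynomial (Fin n × Fin k) (E)) : Prop :=
  ∀ μ, y ^ v.2 * coeff μ f ∈ UU xi (v.1 + D * v.2)

variable {y : E} {D : ℕ}

theorem c6P_mul {v w : ℕ × ℕ} {f g : MvPolynomial (Fin n × Fin k) (E)} (hf : c6P k n xi y D v f)
    (hg : c6P k n xi y D w g) : c6P k n xi y D (v + w) (f * g) := by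
  classical
  intro μ
  rw [coeff_mul, Finset.mul_sum]
  refine Submodule.sum_mem _ fun x _ => ?_
  have h := c6_mul (hf x.1) (hg x.2)
  have e1 : y ^ (v + w).2 * (coeff x.1 f * coeff x.2 g) =
      (y ^ v.2 * coeff x.1 f) * (y ^ w.2 * coeff x.2 g) := by
    rw [Prod.snd_add, pow_add]
    ring
  have e2 : (v + w).1 + D * (v + w).2 = (v.1 + D * v.2) + (w.1 + D * w.2) := by
    rw [Prod.fst_add, Prod.snd_add]
    ring
  rw [e1, e2]
  exact h

theorem c6P_one : c6P k n xi y D 0 (1 : MvPolynomial (Fin n × Fin k) (E)) := by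
  classical
  intro μ
  rw [coeff_one]
  have h := c6_ite (c6_one (xi := xi)) (0 = μ)
  simpa using h

theorem c6P_pow {v : ℕ × ℕ} {f : MvPolynomial (Fin n × Fin k) (E)} (hf : c6P k n xi y D v f) (e : ℕ) :
    c6P k n xi y D (e • v) (f ^ e) := by
  induction e with
  | zero =>
    rw [zero_smul, pow_zero]
    exact c6P_one
  | succ e ih =>
    rw [pow_succ, succ_nsmul]
    exact c6P_mul ih hf

theorem c6P_var (hy : y ∈ UU xi D) (hM : ∀ b i, y * M b i ∈ UU xi D) (p : HV N k) :
    c6P k n xi y D (hw p) (Phi k xi M (X p)) := by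
  classical
  have hx : ∀ b : Option (Fin N), c6P k n xi y D (hw (xv b : HV N k)) (Phi k xi M (X (xv b))) := by
    intro b
    rw [Phi_x, hw_xv']
    intro μ
    rw [coeff_C]
    have h := c6_ite (c6_xi (xi := xi) b) (0 = μ)
    have e : y ^ ((1, 0) : ℕ × ℕ).2 * (if 0 = μ then xi b else 0) =
        xi b * (if 0 = μ then 1 else 0) := by
      change y ^ 0 * _ = _
      rw [pow_zero, one_mul, mul_ite, mul_one, mul_zero]
    rw [e]
    exact h
  rcases p with _ | ⟨b, i⟩
  · exact hx none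
  · refine Fin.cases ?_ (fun j => ?_) i
    · exact hx (some b)
    · rw [Phi_v, hw_succ']
      intro μ
      change y ^ ((j : ℕ) + 1) * _ ∈ UU xi (0 + D * ((j : ℕ) + 1))
      rw [zero_add]
      unfold vimg
      rw [coeff_sum, Finset.mul_sum]
      refine Submodule.sum_mem _ fun a _ => ?_
      rw [coeff_C_mul, coeff_X]
      have h1 : y ^ ((j : ℕ) + 1) * (M b a * (if Finsupp.single (a, j) 1 = μ then 1 else 0)) =
          (y ^ (j : ℕ) * (y * M b a)) * (if Finsupp.single (a, j) 1 = μ then 1 else 0) := by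
        rw [pow_succ]
        ring
      rw [h1, mul_add, mul_one]
      exact c6_ite (c6_mul (c6_pow hy _) (hM b a)) _

theorem c6P_prod (hy : y ∈ UU xi D) (hM : ∀ b i, y * M b i ∈ UU xi D) (ν : HV (N) k → ℕ) (s : Finset (HV (N) k)) :
    c6P k n xi y D (∑ p ∈ s, ν p • hw p) (∏ p ∈ s, Phi k xi M (X p) ^ ν p) := by
  classical
  induction s using Finset.induction_on with
  | empty =>
    rw [Finset.sum_empty, Finset.prod_empty]
    exact c6P_one
  | insert a s ha ih =>
    rw [Finset.sum_insert ha, Finset.prod_insert ha]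
    exact c6P_mul (c6P_pow (c6P_var hy hM a) _) ih

/-- PROOF.  `f = Phi g`, `g` bihomogeneous of bidegree `(A, m)`, a sum of monomials; by linearity it is enough to treat `g = monomial ν 1` of weight `(A, m)`,
a product of `A` variables `xv _` and `r` jets `some (b, j.succ)`, `r ≤ m`.  `Phi` of it is `∏ C (xi ..) * ∏ (z or - ∑ C (yq) * z)`.  CLAIM (induction on
the number of the jets): all the coefficients of `C (yy last) ^ r * Phi (product of r jets)` are in `UU xi (D * r)`: each factor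
`C (yy last) * vimg b j` has its coefficients in `UU xi D` (`yy last * yq b = yy b`), and `UU D * UU D' ⊆ UU (D + D')` (products of homogeneous
polynomials; the coefficients of a product of two polynomials are sums of products of coefficients, `coeff_mul`).  Then multiply by
`yy last ^ (m - r)` and by the `xi`: the coefficients of `C (yy last) ^ m * Phi g` are in `UU xi (A + D * m)`. -/
theorem coeff_BB (hy : y ∈ UU xi D) (hM : ∀ b i, y * M b i ∈ UU xi D) {A m : ℕ} {f : MvPolynomial (Fin n × Fin k) (E)} (hf : f ∈ BB k xi M A m) (μ : Fin n × Fin k →₀ ℕ) :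
    y ^ m * coeff μ f ∈ UU xi (A + D * m) := by
  obtain ⟨g, hg, rfl⟩ := mem_BB.1 hf
  rw [g.as_sum, map_sum, coeff_sum, Finset.mul_sum]
  refine Submodule.sum_mem _ fun ν hν => ?_
  have hw1 : Finsupp.weight hw ν = (A, m) := hg (mem_support_iff.1 hν)
  rw [monomial_eq, map_mul]
  have h2 : Phi k xi M (C (coeff ν g)) = C (algebraMap ℂ (E) (coeff ν g)) := by
    have h3 : (C (coeff ν g) : MvPolynomial (HV (N) k) ℂ) = algebraMap ℂ _ (coeff ν g) := rfl
    rw [h3, AlgHom.commutes]
    rfl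
  have h4 := c6P_prod hy hM ν ν.support
  have h5 : ∑ p ∈ ν.support, ν p • hw p = (A, m) := by
    rw [← hw1, Finsupp.weight_apply]
    rfl
  rw [h5] at h4
  have h6 := h4 μ
  rw [h2, coeff_C_mul, mul_left_comm, ← Algebra.smul_def]
  refine Submodule.smul_mem _ _ ?_
  have h7 : Phi k xi M (ν.prod fun p e => X p ^ e) = ∏ p ∈ ν.support, Phi k xi M (X p) ^ ν p := by
    rw [Finsupp.prod, map_prod]
    exact Finset.prod_congr rfl fun p _ => map_pow _ _ _
  rw [h7]
  exact h6

theorem c6_finite (n k m t : ℕ) :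
    Finite {μ : Fin n × Fin k → ℕ // ∑ p, ((p.2 : ℕ) + 1) * μ p = m ∧ ¬ Good t μ} := by
  have h1 : (Set.pi Set.univ (fun _ : Fin n × Fin k => (Set.Iic m : Set ℕ))).Finite :=
    Set.Finite.pi fun _ => Set.finite_Iic _
  refine (h1.subset ?_).to_subtype
  rintro μ ⟨hμ, -⟩ p _
  rw [Set.mem_Iic, ← hμ]
  refine le_trans ?_ (Finset.single_le_sum (f := fun p : Fin n × Fin k => ((p.2 : ℕ) + 1) * μ p)
    (fun _ _ => Nat.zero_le _) (Finset.mem_univ p))
  exact Nat.le_mul_of_pos_left _ (Nat.succ_pos _)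

/-- the coefficient map -/
noncomputable def c6_lin (y : E) (m : ℕ) (μ : Fin n × Fin k →₀ ℕ) :
    MvPolynomial (Fin n × Fin k) (E) →ₗ[ℂ] E where
  toFun f := y ^ m * coeff μ f
  map_add' f g := by rw [coeff_add, mul_add]
  map_smul' r f := by
    rw [coeff_smul, mul_smul_comm]
    rfl

/-- PROOF.  Let `B` be the set of the `μ : Fin n × Fin k →₀ ℕ` of weight `m` with `¬ Good t μ`, a finite set with `nbad n k m t` elements
(`Finsupp.equivFunOnFinite`).  The linear map `BG → (B → UU xi (A + D * m))`, `f ↦ fun μ => yy last ^ m * coeff μ f` (`coeff_BB`) is injective: if all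
values are `0` then (`yy last` is a unit: `yi_yy`) `coeff μ f = 0` for the bad `μ` of weight `m`, and for the `μ` of other weight by `BB_wt`
(`Finsupp.weight` for the weights `j + 1` is `∑ p, (p.2 + 1) * μ p`), so `f = 0` by `Pool.Agent.H80N.q_main`.
So `finrank BG ≤ nbad * finrank UU` (`LinearMap.finrank_le_finrank_of_injective`, `Module.finrank_pi_fintype`), `finrank_UU`. -/
theorem finrank_BG (hyu : IsUnit y) (hy : y ∈ UU xi D) (hM : ∀ b i, y * M b i ∈ UU xi D) (t A m : ℕ) :
    Module.finrank ℂ (BG k xi M t A m) ≤ nbad n k m t * Module.finrank ℂ (UU xi (A + D * m)) := by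
  classical
  have hfin := UU_finite xi (A + D * m)
  have hB := c6_finite n k m t
  have hBf : Fintype {μ : Fin n × Fin k → ℕ // ∑ p, ((p.2 : ℕ) + 1) * μ p = m ∧ ¬ Good t μ} := Fintype.ofFinite _
  let L : BG k xi M t A m →ₗ[ℂ]
      ({μ : Fin n × Fin k → ℕ // ∑ p, ((p.2 : ℕ) + 1) * μ p = m ∧ ¬ Good t μ} → UU xi (A + D * m)) :=
    LinearMap.pi fun μ => LinearMap.codRestrict (UU xi (A + D * m))
      ((c6_lin y m (Finsupp.equivFunOnFinite.symm μ.1)).comp (BG k xi M t A m).subtype)
      fun f => coeff_BB hy hM f.2.1 _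
  have hL : ∀ (f : BG k xi M t A m) (μ : {μ : Fin n × Fin k → ℕ // ∑ p, ((p.2 : ℕ) + 1) * μ p = m ∧ ¬ Good t μ}),
      ((L f μ : UU xi (A + D * m)) : E) =
        y ^ m * coeff (Finsupp.equivFunOnFinite.symm μ.1) (f : MvPolynomial (Fin n × Fin k) (E)) :=
    fun f μ => rfl
  have hinj : Function.Injective L := by
    rw [← LinearMap.ker_eq_bot, LinearMap.ker_eq_bot']
    intro f hf
    let _ : Algebra ℚ (E) := ((algebraMap ℂ (E)).comp (algebraMap ℚ ℂ)).toAlgebra
    refine Subtype.ext (Pool.Agent.H80N.q_main (t := t) f.1 f.2.2 fun μ hμ => ?_)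
    by_cases hm : ∑ p : Fin n × Fin k, ((p.2 : ℕ) + 1) * μ p = m
    · have h1 := hL f ⟨μ, hm, hμ⟩
      rw [hf] at h1
      have h2 : (Finsupp.equivFunOnFinite.symm (μ : Fin n × Fin k → ℕ)) = μ := Finsupp.equivFunOnFinite.symm_apply_apply μ
      have h3 : y ^ m * coeff μ (f : MvPolynomial (Fin n × Fin k) (E)) = 0 := by
        rw [← h2]
        exact h1.symm
      have hu : IsUnit (y ^ m) := hyu.pow m
      exact hu.mul_right_eq_zero.1 h3
    · by_contra h
      have h4 := BB_wt f.2.1 h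
      apply hm
      rw [Finsupp.weight_apply, Finsupp.sum_fintype μ (fun i c => c • ((i.2 : ℕ) + 1)) (fun i => zero_smul ℕ _)] at h4
      rw [← h4]
      exact Finset.sum_congr rfl fun p _ => by rw [smul_eq_mul, mul_comm]
  refine (LinearMap.finrank_le_finrank_of_injective hinj).trans ?_
  rw [Module.finrank_pi_fintype, Finset.sum_const, Finset.card_univ, smul_eq_mul, nbad, Nat.card_eq_fintype_card]

end Pool.Agent.H80W
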