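import Pool.Agent.Lib.H80W.C2
import Pool.Agent.Lib.H80W.C6

set_option autoImplicit false

/-!
H80W, C7: the element `yy` and the products `yy * MM b i` are values of forms of degree `DD d`.
-/

open MvPolynomial

namespace Pool.Agent.H80W

open Pool.Agent.H89T Pool.Agent.H67T Pool.Agent.H53U Pool.Agent.H53V

open Pool.Agent.H44K (mdet dop Gt Ch wch Good nbad ngoodS)

variable {n c k : ℕ} {d : Fin c → ℕ} {α : Fin c → Option (Fin n) → ℂ}

theorem c7_prod (S : Finset (Fin c)) :
    ∏ j ∈ S, xi n c d α (vc n c j) ^ (d j - 1) ∈ UU (xi n c d α) (∑ j ∈ S, (d j - 1)) := by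
  classical
  induction S using Finset.induction_on with
  | empty =>
    rw [Finset.prod_empty, Finset.sum_empty]
    exact c6_one
  | insert a S ha ih =>
    rw [Finset.prod_insert ha, Finset.sum_insert ha]
    have h := c6_pow (c6_xi (xi := xi n c d α) (vc n c a)) (d a - 1)
    rw [one_mul] at h
    exact c6_mul h ih

theorem yy_mem : yy n c d α ∈ UU (xi n c d α) (DD d) := c7_prod Finset.univ

theorem yy_MM_mem (hd : ∀ j, 1 ≤ d j) (hα : ∀ j b, α j b ≠ 0) (b : Fin (n + c)) (i : Fin n) :
    yy n c d α * MM n c d α b i ∈ UU (xi n c d α) (DD d) := by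
  classical
  refine Fin.addCases (fun a => ?_) (fun j => ?_) b
  · rw [MM_castAdd]
    exact c6_ite yy_mem _
  · rw [MM_natAdd]
    have h1 : yy n c d α = xi n c d α (vc n c j) ^ (d j - 1) *
        ∏ j' ∈ Finset.univ.erase j, xi n c d α (vc n c j') ^ (d j' - 1) := by
      unfold yy
      rw [Finset.mul_prod_erase Finset.univ (fun j' => xi n c d α (vc n c j') ^ (d j' - 1))
        (Finset.mem_univ j)]
    have h2 : DD d = (d j - 1) + ∑ j' ∈ Finset.univ.erase j, (d j' - 1) := by
      unfold DD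
      rw [Finset.add_sum_erase Finset.univ (fun j' => d j' - 1) (Finset.mem_univ j)]
    have h3 : xinv n c d α j ^ (d j - 1) * xi n c d α (vc n c j) ^ (d j - 1) = 1 := by
      rw [← mul_pow, xinv_mul hd hα, one_pow]
    have h4 : yy n c d α * -(algebraMap ℂ (EE n c d α) (α j (some i)) *
        xi n c d α (vb n c (some i)) ^ (d j - 1) * xinv n c d α j ^ (d j - 1)) =
        (-α j (some i)) • (xi n c d α (vb n c (some i)) ^ (d j - 1) *
          ∏ j' ∈ Finset.univ.erase j, xi n c d α (vc n c j') ^ (d j' - 1)) := by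
      rw [h1, Algebra.smul_def, map_neg]
      linear_combination (-(algebraMap ℂ (EE n c d α) (α j (some i)) *
        xi n c d α (vb n c (some i)) ^ (d j - 1) *
          ∏ j' ∈ Finset.univ.erase j, xi n c d α (vc n c j') ^ (d j' - 1))) * h3
    rw [h4, h2]
    refine Submodule.smul_mem _ _ (c6_mul ?_ (c7_prod _))
    have h := c6_pow (c6_xi (xi := xi n c d α) (vb n c (some i))) (d j - 1)
    rw [one_mul] at h
    exact h

theorem yy_unit (hd : ∀ j, 1 ≤ d j) (hα : ∀ j b, α j b ≠ 0) : IsUnit (yy n c d α) :=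
  IsUnit.of_mul_eq_one_right _ (yi_yy hd hα)

end Pool.Agent.H80W
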