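import Pool.Agent.Lib.H80W.E5

set_option autoImplicit false

/-!
H80W, E6: lower bound for the sections of the special linear model.
-/

open MvPolynomial

namespace Pool.Agent.H80W

open Pool.Agent.H89T Pool.Agent.H67T Pool.Agent.H53U Pool.Agent.H53V Pool.Agent.H80N

open Pool.Agent.H44K (mdet Ch Good ngoodS wch)

open Pool.Agent.H80Z (jc GZ chJ rst rst_add map_mdet)

variable {n c k : ℕ} {d : Fin c → ℕ} {α : Fin c → Option (Fin n) → ℂ}

/-- Finite dimension. -/
theorem finite_QQ (A s m : ℕ) : Module.Finite ℂ (QQ k (xi n c d α) (MM n c d α) A s m) := by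
  have h2 : Module.Finite ℂ (BB k (xi n c d α) (MM n c d α) A m) := BB_finite _ _ _ A m
  let T : QQ k (xi n c d α) (MM n c d α) A s m →ₗ[ℂ] BB k (xi n c d α) (MM n c d α) A m :=
    LinearMap.codRestrict (BB k (xi n c d α) (MM n c d α) A m) ((LinearMap.mulLeft ℂ
      ((C (xi n c d α none) : MvPolynomial (Fin n × Fin k) (EE n c d α)) ^ s)).comp
        (QQ k (xi n c d α) (MM n c d α) A s m).subtype) fun q => q.2 none
  refine Module.Finite.of_injective T fun q q' h => Subtype.ext ?_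
  have h3 : (C (xi n c d α none) : MvPolynomial (Fin n × Fin k) (EE n c d α)) ^ s * q.1 =
      C (xi n c d α none) ^ s * q'.1 := congrArg Subtype.val h
  have h4 : IsUnit ((C (xi n c d α none) : MvPolynomial (Fin n × Fin k) (EE n c d α)) ^ s) :=
    ((xi_vb_unit none).map C).pow s
  exact h4.mul_left_cancel h3

/-- The lower bound for the sections of the linear model. -/
theorem QQ_lower (hk : n ≤ k) (hd : ∀ j, 2 ≤ d j) (hα : ∀ j b, α j b ≠ 0) (j1 : Fin c) {A s m t : ℕ}
    (ht : s + (n + 2) * DD d ≤ DD d * t)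
    (hsat : ∀ m', ∀ f ∈ BB k (xi n c d α) (MM n c d α) (A + DD d * t) m', ∀ J : Fin t → Ch n k,
      (∏ i, (C (yi n c d α) * mdet (J i).1)) * f ∈
        BB k (xi n c d α) (MM n c d α) A (m' + ∑ i, wch (J i).1)) :
    (∏ j, d j) * (d j1 - 1) ^ n * ngoodS n k m t ≤
      Module.finrank ℂ (QQ k (xi n c d α) (MM n c d α) A s m) := by
  classical
  have hfin := finite_QQ (n := n) (k := k) (d := d) (α := α) A s m
  have hd1 : ∀ j, 1 ≤ d j := fun j => by have := hd j; omega
  -- degrees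
  let r : IW n k d j1 m t → ℕ := fun a => A + DD d * t - s - ∑ b, (a.2.1 b : ℕ) - ∑ j, (a.1 j : ℕ)
  have hr : ∀ a : IW n k d j1 m t, s + (r a + (∑ b, (a.2.1 b : ℕ)) + ∑ j, (a.1 j : ℕ)) =
      A + DD d * t := by
    intro a
    have h1 : (∑ j, (a.1 j : ℕ)) ≤ DD d := by
      unfold DD
      refine Finset.sum_le_sum fun j _ => ?_
      have := (a.1 j).2
      omega
    have h0 : d j1 - 1 ≤ DD d := by
      unfold DD
      exact Finset.single_le_sum (f := fun j => d j - 1) (fun _ _ => Nat.zero_le _) (Finset.mem_univ j1)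
    have h2 : (∑ b, (a.2.1 b : ℕ)) ≤ n * DD d := by
      have : ∀ b ∈ (Finset.univ : Finset (Fin n)), (a.2.1 b : ℕ) ≤ DD d := fun b _ =>
        (a.2.1 b).2.le.trans h0
      have h3 := Finset.sum_le_card_nsmul _ _ _ this
      rwa [Finset.card_univ, Fintype.card_fin, smul_eq_mul] at h3
    have h4 : (n + 2) * DD d = n * DD d + DD d + DD d := by ring
    simp only [r]
    omega
  have hf : ∀ a : IW n k d j1 m t, ∑ c', a.2.2.1.2 c' ≤ m := by
    intro a
    have h1 := a.2.2.2.1
    have h2 : ∑ c', a.2.2.1.2 c' ≤ ∑ i : Fin n, (k - n + (i : ℕ) + 1) * a.2.2.1.2 i :=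
      Finset.sum_le_sum fun c' _ => Nat.le_mul_of_pos_left _ (by omega)
    omega
  let q : IW n k d j1 m t → MvPolynomial (Fin n × Fin k) (EE n c d α) := fun a =>
    qw hk d α j1 (r a) (fun b => (a.2.1 b : ℕ)) (fun j => (a.1 j : ℕ)) (chJ a.2.2) (rst a.2.2)
      a.2.2.1.2
  -- the weights
  have hm : ∀ g : GZ n k m t, ((∑ p : Fin n × Fin k, ((p.2 : ℕ) + 1) * rst g p) +
      ∑ c' : Fin n, (k - n + (c' : ℕ) + 1) * g.1.2 c') + ∑ i, wch (chJ g i).1 = m := by
    intro g
    have h1 := g.2.1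
    have h2 : ∑ p : Fin n × Fin k, ((p.2 : ℕ) + 1) * g.1.1 p =
        (∑ i, wch (chJ g i).1) + ∑ p : Fin n × Fin k, ((p.2 : ℕ) + 1) * rst g p := by
      have h3 : ∑ i, wch (chJ g i).1 = ∑ p : Fin n × Fin k, ((p.2 : ℕ) + 1) *
          ∑ i, if (chJ g i).1 p.1 = p.2 then 1 else 0 := by
        simp only [Finset.mul_sum]
        rw [Finset.sum_comm]
        refine Finset.sum_congr rfl fun i _ => ?_
        unfold wch
        rw [Fintype.sum_prod_type]
        refine Finset.sum_congr rfl fun b _ => ?_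
        simp only
        rw [Finset.sum_eq_single ((chJ g i).1 b)]
        · rw [if_pos rfl, mul_one]
        · intro j _ hj
          rw [if_neg (Ne.symm hj), mul_zero]
        · intro h
          exact absurd (Finset.mem_univ _) h
      rw [h3, ← Finset.sum_add_distrib]
      refine Finset.sum_congr rfl fun p _ => ?_
      rw [← mul_add, rst_add]
    omega
  have hmem : ∀ a, q a ∈ QQ k (xi n c d α) (MM n c d α) A s m := by
    intro a b
    have h1 : X (xv b) ^ s * Pw hk j1 (α j1) (r a) (fun b => (a.2.1 b : ℕ)) (fun j => (a.1 j : ℕ))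
        (rst a.2.2) a.2.2.1.2 ∈ weightedHomogeneousSubmodule ℂ (hw : HV (n + c) k → ℕ × ℕ)
          (A + DD d * t, (∑ p : Fin n × Fin k, ((p.2 : ℕ) + 1) * rst a.2.2 p) +
            ∑ c' : Fin n, (k - n + (c' : ℕ) + 1) * a.2.2.1.2 c') := by
      have h2 := IsWeightedHomogeneous.mul (xv_pow_bi (k := k) b s)
        (bih_Pw hk j1 (α j1) (r a) (fun b => (a.2.1 b : ℕ)) (fun j => (a.1 j : ℕ)) (rst a.2.2)
          a.2.2.1.2)
      have e : ((s, 0) : ℕ × ℕ) + (r a + (∑ b, (a.2.1 b : ℕ)) + ∑ j, (a.1 j : ℕ),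
          (∑ p : Fin n × Fin k, ((p.2 : ℕ) + 1) * rst a.2.2 p) +
            ∑ c' : Fin n, (k - n + (c' : ℕ) + 1) * a.2.2.1.2 c') = (A + DD d * t,
          (∑ p : Fin n × Fin k, ((p.2 : ℕ) + 1) * rst a.2.2 p) +
            ∑ c' : Fin n, (k - n + (c' : ℕ) + 1) * a.2.2.1.2 c') := by
        rw [Prod.mk_add_mk, hr, zero_add]
      rw [e] at h2
      exact h2
    have h3 := hsat _ _ (Submodule.mem_map_of_mem h1) (chJ a.2.2)
    rw [hm] at h3
    have e : C (xi n c d α b) ^ s * q a = (∏ i, (C (yi n c d α) * mdet (chJ a.2.2 i).1)) *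
        (Phi k (xi n c d α) (MM n c d α)).toLinearMap (X (xv b) ^ s * Pw hk j1 (α j1) (r a)
          (fun b => (a.2.1 b : ℕ)) (fun j => (a.1 j : ℕ)) (rst a.2.2) a.2.2.1.2) := by
      simp only [q, qw, AlgHom.toLinearMap_apply, map_mul, map_pow, Phi_x]
      ring
    rw [e]
    exact h3
  have hli : LinearIndependent ℂ q := by
    refine LinearIndependent.of_comp (LinearMap.mulLeft ℂ
      (C (yy n c d α ^ t * xi n c d α (vc n c j1) ^ ((d j1 - 1) * m)) :
        MvPolynomial (Fin n × Fin k) (EE n c d α))) ?_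
    let Q : IW n k d j1 m t → ℕ := fun a =>
      ((a.1 j1 : ℕ) + (d j1 - 1) * (m - ∑ c', a.2.2.1.2 c')) / d j1
    have h1 := linInd_Qw hk (m := m) (t := t) (j1 := j1) hd hα r Q
    have h2 := h1.units_smul (fun a : IW n k d j1 m t =>
      (Units.mk0 (-(α j1 none)) (neg_ne_zero.2 (hα j1 none))) ^ Q a)
    have e : (LinearMap.mulLeft ℂ (C (yy n c d α ^ t * xi n c d α (vc n c j1) ^ ((d j1 - 1) * m)) :
        MvPolynomial (Fin n × Fin k) (EE n c d α)) ∘ q) =
        (fun a : IW n k d j1 m t => (Units.mk0 (-(α j1 none)) (neg_ne_zero.2 (hα j1 none))) ^ Q a) •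
          fun a : IW n k d j1 m t => Th n c k d α (Qw hk (d j1 - 1) (d j1) (α j1) (r a) (Q a)
            (fun b => (a.2.1 b : ℕ)) (icw a) (chJ a.2.2) (rst a.2.2) a.2.2.1.2) := by
      funext a
      have h3 := qw_eq hk hd1 hα j1 (m := m) (r a) (fun b => (a.2.1 b : ℕ)) (fun j => (a.1 j : ℕ))
        (chJ a.2.2) (rst a.2.2) a.2.2.1.2 (hf a)
      refine h3.trans ?_
      have h4 : icw a = fun j => if j = j1 then
          ((a.1 j : ℕ) + (d j1 - 1) * (m - ∑ c', a.2.2.1.2 c')) % d j1 else (a.1 j : ℕ) := by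
        funext j
        unfold icw Rw
        by_cases hj : j = j1
        · subst hj
          rw [if_pos rfl]
        · rw [if_neg hj, if_neg hj]
      rw [Pi.smul_apply', h4, Units.smul_def, Units.val_pow_eq_pow_val, Units.val_mk0, ← C_pow,
        ← map_pow, ← smul_eq_C_mul, algebraMap_smul]
    rw [e]
    exact h2
  have hli2 : LinearIndependent ℂ fun a => (⟨q a, hmem a⟩ : QQ k (xi n c d α) (MM n c d α) A s m) :=
    LinearIndependent.of_comp (QQ k (xi n c d α) (MM n c d α) A s m).subtype hli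
  have hfi : Finite (IW n k d j1 m t) := hli2.finite
  have := Fintype.ofFinite (IW n k d j1 m t)
  have h1 := hli2.fintype_card_le_finrank
  rw [← Nat.card_eq_fintype_card, Nat.card_prod, Nat.card_prod, Nat.card_pi, Nat.card_fun,
    Nat.card_fin, Nat.card_fin, ← mul_assoc] at h1
  simp only [Nat.card_fin] at h1
  exact h1

end Pool.Agent.H80W
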