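import Pool.Agent.Lib.H80W.C4
import Pool.Agent.Lib.H80W.C5
import Pool.Agent.Lib.H80W.C7
import Pool.Agent.Lib.H80W.E6

set_option autoImplicit false

/-!
H80W: the existence theorem for jet differentials of the generic complete intersection.
-/

open MvPolynomial

namespace Pool.Agent.H80W

open Pool.Agent.H89T Pool.Agent.H67T Pool.Agent.H53U Pool.Agent.H53V

open Pool.Agent.H44K (mdet dop Gt Ch wch Good nbad ngoodS)

variable {n c k : ℕ} {d : Fin c → ℕ} {α : Fin c → Option (Fin n) → ℂ}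

theorem finrank_piece_eq {A m : ℕ} (h : hf (Ige n c k d) A m = hf (Isp n c k d α) A m) :
    Module.finrank (KF (n + c) d)
          ↥((Ige n c k d).restrictScalars (KF (n + c) d) ⊓
            weightedHomogeneousSubmodule (KF (n + c) d)
              (hw : HV (n + c) k → ℕ × ℕ) (A, m)) =
      Module.finrank ℂ ↥((Isp n c k d α).restrictScalars ℂ ⊓
        weightedHomogeneousSubmodule ℂ (hw : HV (n + c) k → ℕ × ℕ) (A, m)) := by
  have h1 := ehc_hf (Ige n c k d) A m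
  have h2 := ehc_hf (Isp n c k d α) A m
  have h3 := ehc_V_finrank (K := KF (n + c) d) (N := n + c) (k := k) A m
  have h4 := ehc_V_finrank (K := ℂ) (N := n + c) (k := k) A m
  have h5 : Module.finrank (KF (n + c) d) (ehc_P (Ige n c k d) A m) =
      Module.finrank ℂ (ehc_P (Isp n c k d α) A m) := by omega
  exact h5

/-- MAIN THEOREM of module A: the generic complete intersection has jet differentials. -/
theorem dimV_W {n k : ℕ} {c : ℕ} {d : Fin c → ℕ} (j1 : Fin c) (hk : n ≤ k) (hd : ∀ j, 2 ≤ d j) :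
    ∃ A₀ : ℕ, ∀ A ≥ A₀, ∀ m s t t' R, 1 ≤ s → s ≤ (∑ j, (d j - 1)) * t →
      s + (n + 2) * (∑ j, (d j - 1)) ≤ (∑ j, (d j - 1)) * t' →
      R + (n + c + 1) ^ 2 * (nbad n k m t *
          ((∏ j, d j) * (A + s + (∑ j, (d j - 1)) * m + n).choose n)) ≤
        (∏ j, d j) * (d j1 - 1) ^ n * ngoodS n k m t' →
      ∀ l, DimV n k Finset.univ d m A s R l := by
  have hd1 : ∀ j, 1 ≤ d j := fun j => le_trans (by norm_num) (hd j)
  have hDD : ∑ j, (d j - 1) = DD d := rfl
  simp only [hDD]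
  obtain ⟨α, hg⟩ := exists_good n d hd
  obtain ⟨A₀, hA₀⟩ := hSat_sp k hd1 hg
  obtain ⟨A₁, hA₁⟩ := kap_ineq k hd hg
  obtain ⟨A₂, hA₂⟩ := dimV_of_kap n k d
  obtain ⟨A₃, hA₃⟩ := hf_eq k hd hg
  obtain ⟨A₄, hA₄⟩ := Ik_large k hd hg
  refine ⟨A₀ + A₁ + A₂ + A₃ + A₄, fun A hA m s t t' R hs hst ht' hR => ?_⟩
  refine hA₂ A (by omega) m s R hs ?_
  have h1 := kap1_sp (xi_vb_unit (n := n) (c := c) (d := d) (α := α) none) (Isp_le k hd1 hg.ne) hA₄
    (by omega : A₄ ≤ A) s m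
  have h2 := hA₁ A (by omega) m s t hs hst
  have h3 := finrank_piece_eq (hA₃ A (by omega) m)
  have h4 := finrank_BG (k := k) (yy_unit hd1 hg.ne) yy_mem (yy_MM_mem hd1 hg.ne) t (A + s) m
  have h4' := finrank_UU (n := n) (c := c) (d := d) (α := α) hd1 (A + s + DD d * m)
  have h5 := QQ_lower hk hd hg.ne j1 (A := A) (s := s) (m := m) ht' (fun m' f hf J =>
    satt hA₀ (by omega : A₀ ≤ A) (fun i => (J i).1) hf)
  rw [h3]
  have h6 : (n + c + 1) ^ 2 * Module.finrank ℂ (BG k (xi n c d α) (MM n c d α) t (A + s) m) ≤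
      (n + c + 1) ^ 2 * (nbad n k m t * ((∏ j, d j) * (A + s + DD d * m + n).choose n)) :=
    Nat.mul_le_mul_left _ (h4.trans (Nat.mul_le_mul_left _ h4'))
  omega

end Pool.Agent.H80W
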