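import Pool.Agent.Lib.H44K.D1
import Pool.Agent.Lib.H44K.S3D

set_option autoImplicit false

/-!
H80W: module A of H53W (MP_2a5ae2): existence of jet differentials on complete intersections.
Abstract linear models: a ring `E`, elements `xi b`, a matrix `M`.  The homomorphism `Phi` maps `x_b` to `xi b` and the jet `v (b, j)` to `∑ i, M b i * z (i, j)`.
-/

open MvPolynomial

namespace Pool.Agent.H80W

open Pool.Agent.H89T Pool.Agent.H67T Pool.Agent.H53U Pool.Agent.H53V

section Lin

variable {E : Type} [CommRing E] [Algebra ℂ E] {N n : ℕ} (k : ℕ) (xi : Option (Fin N) → E)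
  (M : Fin N → Fin n → E)

/-- The image of the jet `v (b, j + 1)`. -/
noncomputable def vimg (b : Fin N) (j : Fin k) : MvPolynomial (Fin n × Fin k) E :=
  ∑ i, C (M b i) * X (i, j)

/-- The parametrization of the linear model. -/
noncomputable def Phi : MvPolynomial (HV N k) ℂ →ₐ[ℂ] MvPolynomial (Fin n × Fin k) E :=
  aeval fun p => p.elim (C (xi none)) fun p =>
    Fin.cases (motive := fun _ => MvPolynomial (Fin n × Fin k) E)
      (C (xi (some p.1))) (fun j => vimg k M p.1 j) p.2

/-- The image of the bihomogeneous polynomials. -/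
noncomputable def BB (A m : ℕ) : Submodule ℂ (MvPolynomial (Fin n × Fin k) E) :=
  (weightedHomogeneousSubmodule ℂ (hw : HV N k → ℕ × ℕ) (A, m)).map (Phi k xi M).toLinearMap

/-- The ideal of the linear model. -/
noncomputable def Ik : Ideal (MvPolynomial (HV N k) ℂ) := RingHom.ker (Phi k xi M)

/-- The sections of degree `A - s`. -/
noncomputable def QQ (A s m : ℕ) : Submodule ℂ (MvPolynomial (Fin n × Fin k) E) where
  carrier := {q | ∀ b : Option (Fin N), C (xi b) ^ s * q ∈ BB k xi M A m}
  add_mem' := by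
    intro q q' h h' b
    rw [mul_add]
    exact (BB k xi M A m).add_mem (h b) (h' b)
  zero_mem' := by
    intro b
    rw [mul_zero]
    exact (BB k xi M A m).zero_mem
  smul_mem' := by
    intro r q h b
    rw [mul_smul_comm]
    exact (BB k xi M A m).smul_mem r (h b)

/-- The elements of `BB` killed by the operator. -/
noncomputable def BG (t A m : ℕ) : Submodule ℂ (MvPolynomial (Fin n × Fin k) E) where
  carrier := {f | f ∈ BB k xi M A m ∧ H44K.Gt E t f = 0}
  add_mem' := by
    rintro f f' ⟨h1, h2⟩ ⟨h1', h2'⟩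
    refine ⟨(BB k xi M A m).add_mem h1 h1', ?_⟩
    unfold H44K.Gt at h2 h2' ⊢
    have e : ∀ J : Fin t → H44K.Ch n k, (∏ i, H44K.mdet (J i).1) * H44K.dop (∏ i, H44K.mdet (J i).1) (f + f') =
        (∏ i, H44K.mdet (J i).1) * H44K.dop (∏ i, H44K.mdet (J i).1) f +
          (∏ i, H44K.mdet (J i).1) * H44K.dop (∏ i, H44K.mdet (J i).1) f' := fun J => by
      rw [map_add, mul_add]
    rw [Finset.sum_congr rfl fun J _ => e J, Finset.sum_add_distrib, h2, h2', add_zero]
  zero_mem' := by
    refine ⟨(BB k xi M A m).zero_mem, ?_⟩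
    unfold H44K.Gt
    refine Finset.sum_eq_zero fun J _ => ?_
    rw [map_zero, mul_zero]
  smul_mem' := by
    rintro r f ⟨h1, h2⟩
    refine ⟨(BB k xi M A m).smul_mem r h1, ?_⟩
    unfold H44K.Gt at h2 ⊢
    have e : ∀ J : Fin t → H44K.Ch n k, (∏ i, H44K.mdet (J i).1) * H44K.dop (∏ i, H44K.mdet (J i).1) (r • f) =
        r • ((∏ i, H44K.mdet (J i).1) * H44K.dop (∏ i, H44K.mdet (J i).1) f) := fun J => by
      rw [← mul_smul_comm]
      congr 1
      have h3 : r • f = (algebraMap ℂ E r) • f := by
        rw [algebraMap_smul]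
      rw [h3, map_smul, algebraMap_smul]
    rw [Finset.sum_congr rfl fun J _ => e J, ← Finset.smul_sum, h2, smul_zero]

/-- The ring of the linear model. -/
abbrev WW (E : Type) [CommRing E] (n k : ℕ) : Type := MvPolynomial (Fin n × Fin k) E

/-- The coboundary map. -/
noncomputable def dl (n s : ℕ) : (Option (Fin N) → WW E n k) →ₗ[ℂ]
    (Option (Fin N) × Option (Fin N) → WW E n k) :=
  LinearMap.pi fun p => (LinearMap.mulLeft ℂ (C (xi p.1) ^ s)).comp (LinearMap.proj p.2) -
    (LinearMap.mulLeft ℂ (C (xi p.2) ^ s)).comp (LinearMap.proj p.1)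

/-- The coboundaries. -/
noncomputable def Bc (A s m : ℕ) : Submodule ℂ (Option (Fin N) × Option (Fin N) → WW E n k) :=
  (Submodule.pi Set.univ fun _ => BB k xi M A m).map (dl k xi n s)

/-- The left side of the cocycle condition. -/
noncomputable def coc (n s : ℕ) (q : Option (Fin N) × Option (Fin N) × Option (Fin N)) :
    (Option (Fin N) × Option (Fin N) → WW E n k) →ₗ[ℂ] WW E n k :=
  (LinearMap.mulLeft ℂ (C (xi q.1) ^ s)).comp (LinearMap.proj (q.2.1, q.2.2)) -
    (LinearMap.mulLeft ℂ (C (xi q.2.1) ^ s)).comp (LinearMap.proj (q.1, q.2.2)) +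
      (LinearMap.mulLeft ℂ (C (xi q.2.2) ^ s)).comp (LinearMap.proj (q.1, q.2.1))

/-- The cocycles. -/
noncomputable def Zc (A s m : ℕ) : Submodule ℂ (Option (Fin N) × Option (Fin N) → WW E n k) :=
  (Submodule.pi Set.univ fun _ => BB k xi M (A + s) m) ⊓ ⨅ q, LinearMap.ker (coc k xi n s q)

end Lin

/-- The operator `Gt` as a linear map. -/
noncomputable def GtL (E : Type) [CommRing E] [Algebra ℂ E] (n k t : ℕ) : WW E n k →ₗ[ℂ] WW E n k :=
  ∑ J : Fin t → H44K.Ch n k, (LinearMap.mulLeft ℂ (∏ i, H44K.mdet (J i).1)).comp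
    ((H44K.dop (∏ i, H44K.mdet (J i).1)).restrictScalars ℂ)

/-! ### The special complete intersection -/

section Special

variable (n c k : ℕ) (d : Fin c → ℕ) (α : Fin c → Option (Fin n) → ℂ)

/-- `x_0, ..., x_n` among the variables. -/
def vb (b : Option (Fin n)) : Option (Fin (n + c)) := b.map (Fin.castAdd c)

/-- `x_(n + j)`. -/
def vc (j : Fin c) : Option (Fin (n + c)) := some (Fin.natAdd n j)

/-- `g_j = ∑_(b ≤ n) α_(j, b) x_b ^ (d j)`. -/
noncomputable def gj (j : Fin c) : MvPolynomial (Option (Fin n)) ℂ := ∑ b, C (α j b) * X b ^ d j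

/-- The forms of the special complete intersection. -/
noncomputable def Fx (j : Fin c) : MvPolynomial (Option (Fin (n + c))) ℂ :=
  X (vc n c j) ^ d j + ∑ b, C (α j b) * X (vb n c b) ^ d j

/-- The matrix of the derivatives `∂_b F_j / d_j`, `b` in the affine variables. -/
noncomputable def Jx (j : Fin c) (b : Fin (n + c)) : MvPolynomial (Option (Fin (n + c))) ℂ :=
  Fin.addCases (fun i => C (α j (some i)) * X (vb n c (some i)) ^ (d j - 1))
    (fun j' => if j' = j then X (vc n c j) ^ (d j - 1) else 0) b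

/-- The row `b` of the matrix `M`, multiplied by `x_(n + j) ^ (d j - 1)` for `b = n + j`. -/
noncomputable def Mx (b : Fin (n + c)) (i : Fin n) : MvPolynomial (Option (Fin (n + c))) ℂ :=
  Fin.addCases (fun a => if a = i then 1 else 0)
    (fun j => - (C (α j (some i)) * X (vb n c (some i)) ^ (d j - 1))) b

/-- The polynomials `Y0 * det M_β`. -/
noncomputable def wx (β : Fin n → Fin (n + c)) : MvPolynomial (Option (Fin (n + c))) ℂ :=
  (∏ j : Fin c, if ∃ r, β r = Fin.natAdd n j then 1 else X (vc n c j) ^ (d j - 1)) *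
    (Matrix.of fun r i : Fin n => Mx n c d α (β r) i).det

/-- The conditions for the numbers `α`: they are not zero, and the special complete intersection is smooth. -/
structure GoodA : Prop where
  ne : ∀ j b, α j b ≠ 0
  sm : ∀ b, ∃ r : ℕ, X b ^ r ∈ Ideal.span (Set.range (Fx n c d α) ∪ Set.range (wx n c d α))
  sm' : ∀ b, ∃ r : ℕ, X b ^ r ∈ Ideal.span (Set.range (Fx n c d α) ∪
    Set.range fun β : Fin c → Fin (n + c) => (Matrix.of fun j r : Fin c => Jx n c d α j (β r)).det)

/-- The field of fractions of `ℂ[x_0, ..., x_n]`. -/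
abbrev LF : Type := FractionRing (MvPolynomial (Option (Fin n)) ℂ)

/-- The relations `x_(n + j) ^ (d j) + g_j`. -/
noncomputable def rel : Ideal (MvPolynomial (Fin c) (LF n)) :=
  Ideal.span (Set.range fun j => X j ^ d j + C (algebraMap (MvPolynomial (Option (Fin n)) ℂ) (LF n) (gj n c d α j)))

/-- The functions on the special complete intersection. -/
def EE : Type := MvPolynomial (Fin c) (LF n) ⧸ rel n c d α

noncomputable instance : CommRing (EE n c d α) :=
  inferInstanceAs (CommRing (MvPolynomial (Fin c) (LF n) ⧸ rel n c d α))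

/-- The quotient map. -/
noncomputable def mkE : MvPolynomial (Fin c) (LF n) →+* EE n c d α :=
  Ideal.Quotient.mk (rel n c d α)

noncomputable instance : Algebra ℂ (EE n c d α) :=
  ((mkE n c d α).comp (algebraMap ℂ (MvPolynomial (Fin c) (LF n)))).toAlgebra

/-- The coordinates. -/
noncomputable def xi (b : Option (Fin (n + c))) : EE n c d α :=
  b.elim (mkE n c d α (C (algebraMap (MvPolynomial (Option (Fin n)) ℂ) (LF n) (X none)))) fun b =>
    Fin.addCases (fun i => mkE n c d α (C (algebraMap (MvPolynomial (Option (Fin n)) ℂ) (LF n) (X (some i)))))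
      (fun j => mkE n c d α (X j)) b

/-- The inverse of `x_(n + j)`. -/
noncomputable def xinv (j : Fin c) : EE n c d α :=
  mkE n c d α (X j ^ (d j - 1) *
    C (- algebraMap (MvPolynomial (Option (Fin n)) ℂ) (LF n) (gj n c d α j))⁻¹)

/-- The matrix of the linear model. -/
noncomputable def MM (b : Fin (n + c)) (i : Fin n) : EE n c d α :=
  Fin.addCases (fun a => if a = i then 1 else 0)
    (fun j => - (algebraMap ℂ (EE n c d α) (α j (some i)) * xi n c d α (vb n c (some i)) ^ (d j - 1) *
      xinv n c d α j ^ (d j - 1))) b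

/-- `Y0 = ∏ x_(n + j) ^ (d j - 1)`. -/
noncomputable def yy : EE n c d α := ∏ j, xi n c d α (vc n c j) ^ (d j - 1)

/-- Its inverse. -/
noncomputable def yi : EE n c d α := ∏ j, xinv n c d α j ^ (d j - 1)

/-- The forms, as polynomials in all variables. -/
noncomputable def F0s (j : Fin c) : MvPolynomial (HV (n + c) k) ℂ := rename xv (Fx n c d α j)

/-- The linear equations for the jets. -/
noncomputable def U0s (q : Fin c × Fin k) : MvPolynomial (HV (n + c) k) ℂ :=
  C (d q.1 : ℂ) * ∑ b, rename xv (Jx n c d α q.1 b) * X (some (b, q.2.succ))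

/-- The special ideal. -/
noncomputable def Isp : Ideal (MvPolynomial (HV (n + c) k) ℂ) :=
  Ideal.span (Set.range (F0s n c k d α) ∪ U0s n c k d α '' {q | q.1 ∈ (Finset.univ : Finset (Fin c))})

/-- The ideal of the generic complete intersection. -/
noncomputable def Ige : Ideal (MvPolynomial (HV (n + c) k) (KF (n + c) d)) :=
  Ideal.span (Set.range (FhK k (gK (n + c) d)) ∪
    UhK k (gK (n + c) d) '' {q | q.1 ∈ (Finset.univ : Finset (Fin c))})

/-- The coefficients of the special forms. -/
noncomputable def aF : CI (n + c) d → ℂ := by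
  classical
  exact fun p =>
    if expo p.2 = 0 then α p.1 none
    else if expo p.2 = Finsupp.single (Fin.natAdd n p.1) (d p.1) then 1
    else if h : ∃ i : Fin n, expo p.2 = Finsupp.single (Fin.castAdd c i) (d p.1) then α p.1 (some h.choose)
    else 0

/-- The generic generators. -/
noncomputable def gge : Fin c ⊕ Fin c × Fin k → MvPolynomial (HV (n + c) k) (RC (n + c) d) :=
  Sum.elim (FhK k (gc (n + c) d)) (UhK k (gc (n + c) d))

/-- The special generators. -/
noncomputable def gsp : Fin c ⊕ Fin c × Fin k → MvPolynomial (HV (n + c) k) ℂ :=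
  Sum.elim (F0s n c k d α) (U0s n c k d α)

end Special

/-- Their bidegrees. -/
def dge {c : ℕ} (k : ℕ) (d : Fin c → ℕ) : Fin c ⊕ Fin c × Fin k → ℕ × ℕ :=
  Sum.elim (fun j => (d j, 0)) fun q => (d q.1 - 1, (q.2 : ℕ) + 1)

/-- The lowest degrees in the jets of positive order at the special point. -/
def kge (c k : ℕ) : Fin c ⊕ Fin c × Fin k → ℕ := Sum.elim (fun _ => 0) fun _ => 1

end Pool.Agent.H80W
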