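import Pool.Agent.Lib.H80W.D0
import Pool.Agent.Lib.H44K.G10

set_option autoImplicit false

/-!
H80W, A1: linear models.  The homomorphism `Phi` and the spaces `BB`.
-/

open MvPolynomial

namespace Pool.Agent.H80W

open Pool.Agent.H89T Pool.Agent.H67T Pool.Agent.H53U Pool.Agent.H53V

open Pool.Agent.H44K (mdet dop Gt Ch wch Good nbad ngoodS)

variable {E : Type} [CommRing E] [Algebra ℂ E] {N n : ℕ} {k : ℕ} {xi : Option (Fin N) → E}
  {M : Fin N → Fin n → E}

theorem Phi_x (b : Option (Fin N)) : Phi k xi M (X (xv b)) = C (xi b) := by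
  unfold Phi
  rw [aeval_X]
  cases b with
  | none => rfl
  | some b => rfl

theorem Phi_v (b : Fin N) (j : Fin k) : Phi k xi M (X (some (b, j.succ))) = vimg k M b j := by
  unfold Phi
  rw [aeval_X]
  rfl

theorem Phi_C (a : ℂ) : Phi k xi M (C a) = C (algebraMap ℂ E a) := by
  have h3 : (C a : MvPolynomial (HV N k) ℂ) = algebraMap ℂ _ a := rfl
  rw [h3, AlgHom.commutes]
  rfl

theorem mem_Ik {f : MvPolynomial (HV N k) ℂ} : f ∈ Ik k xi M ↔ Phi k xi M f = 0 :=
  RingHom.mem_ker

theorem Phi_xpow (b : Option (Fin N)) (s : ℕ) (f : MvPolynomial (HV N k) ℂ) :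
    Phi k xi M (X (xv b) ^ s * f) = C (xi b) ^ s * Phi k xi M f := by
  rw [map_mul, map_pow, Phi_x]

/-- PROOF.  `Submodule.mem_map`, `mem_weightedHomogeneousSubmodule`. -/
theorem mem_BB {A m : ℕ} {f : MvPolynomial (Fin n × Fin k) E} :
    f ∈ BB k xi M A m ↔ ∃ g, BiH A m g ∧ Phi k xi M g = f := by
  unfold BB
  rw [Submodule.mem_map]
  rfl

variable (k xi M) in
/-- PROOF.  The image of a finite-dimensional space (`ehc_V_finite`). -/
theorem BB_finite (A m : ℕ) : Module.Finite ℂ (BB k xi M A m) := by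
  have h := ehc_V_finite (K := ℂ) (N := N) (k := k) A m
  unfold BB
  exact Module.Finite.map _ _

/-- PROOF.  `mem_BB`, `IsWeightedHomogeneous.mul`, `map_mul`. -/
theorem BB_mul {A A' m m' : ℕ} {f g : MvPolynomial (Fin n × Fin k) E}
    (hf : f ∈ BB k xi M A m) (hg : g ∈ BB k xi M A' m') : f * g ∈ BB k xi M (A + A') (m + m') := by
  obtain ⟨f', hf', rfl⟩ := mem_BB.1 hf
  obtain ⟨g', hg', rfl⟩ := mem_BB.1 hg
  refine mem_BB.2 ⟨f' * g', ?_, map_mul _ _ _⟩
  exact IsWeightedHomogeneous.mul hf' hg'

theorem hw_xv' (b : Option (Fin N)) : hw (xv b : HV N k) = (1, 0) := by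
  cases b with
  | none => rfl
  | some b => rfl

theorem hw_succ' (b : Fin N) (j : Fin k) : hw (some (b, j.succ) : HV N k) = (0, (j : ℕ) + 1) := by
  have h : (j.succ : Fin (k + 1)) ≠ 0 := Fin.succ_ne_zero j
  change (if (j.succ : Fin (k + 1)) = 0 then (1, 0) else (0, ((j.succ : Fin (k + 1)) : ℕ))) = _
  rw [if_neg h, Fin.val_succ]

theorem one_BB : (1 : MvPolynomial (Fin n × Fin k) E) ∈ BB k xi M 0 0 :=
  mem_BB.2 ⟨1, isWeightedHomogeneous_one _ _, map_one _⟩

/-- PROOF.  `Phi_x`. -/
theorem BB_xi (b : Option (Fin N)) : C (xi b) ∈ BB k xi M 1 0 := by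
  refine mem_BB.2 ⟨X (xv b), ?_, Phi_x b⟩
  have h := isWeightedHomogeneous_X ℂ (hw : HV N k → ℕ × ℕ) (xv b)
  rw [hw_xv'] at h
  exact h

theorem BB_v (b : Fin N) (j : Fin k) : vimg k M b j ∈ BB k xi M 0 ((j : ℕ) + 1) := by
  refine mem_BB.2 ⟨X (some (b, j.succ)), ?_, Phi_v b j⟩
  have h := isWeightedHomogeneous_X ℂ (hw : HV N k → ℕ × ℕ) (some (b, j.succ))
  rw [hw_succ'] at h
  exact h

theorem BB_xi_pow (b : Option (Fin N)) (s : ℕ) : C (xi b) ^ s ∈ BB k xi M s 0 := by
  induction s with
  | zero =>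
    rw [pow_zero]
    exact one_BB
  | succ s ih =>
    rw [pow_succ]
    exact BB_mul ih (BB_xi b)

theorem BB_xi_mul {A m : ℕ} (b : Option (Fin N)) (s : ℕ)
    {f : MvPolynomial (Fin n × Fin k) E} (hf : f ∈ BB k xi M A m) :
    C (xi b) ^ s * f ∈ BB k xi M (A + s) m := by
  have h := BB_mul (BB_xi_pow (k := k) (M := M) b s) hf
  rw [zero_add, add_comm s A] at h
  exact h

theorem BB_smul {A m : ℕ} (a : ℂ) {f : MvPolynomial (Fin n × Fin k) E} (hf : f ∈ BB k xi M A m) :
    C (algebraMap ℂ E a) * f ∈ BB k xi M A m := by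
  have h : C (algebraMap ℂ E a) * f = a • f := by
    rw [← smul_eq_C_mul, algebraMap_smul]
  rw [h]
  exact (BB k xi M A m).smul_mem a hf

theorem vimg_wt (b : Fin N) (j : Fin k) :
    IsWeightedHomogeneous (fun p : Fin n × Fin k => (p.2 : ℕ) + 1) (vimg k M b j) ((j : ℕ) + 1) := by
  unfold vimg
  refine Submodule.sum_mem (weightedHomogeneousSubmodule E (fun p : Fin n × Fin k => (p.2 : ℕ) + 1)
    ((j : ℕ) + 1)) fun a _ => ?_
  have h3 := IsWeightedHomogeneous.mul (isWeightedHomogeneous_C
    (fun p : Fin n × Fin k => (p.2 : ℕ) + 1) (M b a))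
    (isWeightedHomogeneous_X E (fun p : Fin n × Fin k => (p.2 : ℕ) + 1) (a, j))
  rw [zero_add] at h3
  exact h3

theorem Phi_var_wt (p : HV N k) :
    IsWeightedHomogeneous (fun p : Fin n × Fin k => (p.2 : ℕ) + 1) (Phi k xi M (X p)) (hw p).2 := by
  have hx : ∀ b : Option (Fin N),
      IsWeightedHomogeneous (fun p : Fin n × Fin k => (p.2 : ℕ) + 1) (Phi k xi M (X (xv b)))
        (hw (xv b : HV N k)).2 := by
    intro b
    rw [Phi_x, hw_xv']
    exact isWeightedHomogeneous_C _ _
  rcases p with _ | ⟨b, i⟩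
  · exact hx none
  · refine Fin.cases ?_ (fun j => ?_) i
    · exact hx (some b)
    · rw [Phi_v, hw_succ']
      exact vimg_wt b j

/-- PROOF.  As `BB_wt` of H44K. -/
theorem BB_wt {A m : ℕ} {f : MvPolynomial (Fin n × Fin k) E} (hf : f ∈ BB k xi M A m) :
    IsWeightedHomogeneous (fun p : Fin n × Fin k => (p.2 : ℕ) + 1) f m := by
  obtain ⟨g, hg, rfl⟩ := mem_BB.1 hf
  rw [g.as_sum, map_sum]
  refine Submodule.sum_mem (weightedHomogeneousSubmodule E
    (fun p : Fin n × Fin k => (p.2 : ℕ) + 1) m) fun μ hμ => ?_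
  have hw1 : Finsupp.weight hw μ = (A, m) := hg (mem_support_iff.1 hμ)
  have hw2 : μ.sum (fun p e => e * (hw p).2) = m := by
    have h1 : (Finsupp.weight hw μ).2 = m := by rw [hw1]
    rw [Finsupp.weight_apply, Finsupp.sum, Prod.snd_sum] at h1
    rw [Finsupp.sum, ← h1]
    exact Finset.sum_congr rfl fun p _ => (smul_eq_mul _ _).symm
  rw [monomial_eq, map_mul]
  have h4 : IsWeightedHomogeneous (fun p : Fin n × Fin k => (p.2 : ℕ) + 1)
      (Phi k xi M (μ.prod fun p e => X p ^ e)) m := by
    rw [Finsupp.prod, map_prod, ← hw2, Finsupp.sum]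
    refine IsWeightedHomogeneous.prod _ _ _ fun p _ => ?_
    rw [map_pow]
    have h5 := IsWeightedHomogeneous.pow (Phi_var_wt (xi := xi) (M := M) p) (μ p)
    rw [smul_eq_mul] at h5
    exact h5
  rw [Phi_C]
  have h6 := IsWeightedHomogeneous.mul (isWeightedHomogeneous_C
    (fun p : Fin n × Fin k => (p.2 : ℕ) + 1) (algebraMap ℂ E (coeff μ g))) h4
  rw [zero_add] at h6
  exact h6

/-- The chain rule. -/
theorem pderiv_Phi (p : Fin n × Fin k) (f : MvPolynomial (HV N k) ℂ) :
    pderiv p (Phi k xi M f) =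
      ∑ b, C (M b p.1) * Phi k xi M (pderiv (some (b, p.2.succ)) f) := by
  classical
  have hvar : ∀ q : HV N k, pderiv p (Phi k xi M (X q)) =
      ∑ b, C (M b p.1) * Phi k xi M (pderiv (some (b, p.2.succ)) (X q)) := by
    intro q
    rcases q with _ | ⟨b, j⟩
    · have h1 : Phi k xi M (X none) = C (xi none) := Phi_x none
      rw [h1, pderiv_C]
      refine (Finset.sum_eq_zero fun b _ => ?_).symm
      rw [pderiv_X_of_ne (by simp), map_zero, mul_zero]
    · refine Fin.cases ?_ (fun j => ?_) j
      · have h1 : Phi k xi M (X (some (b, 0))) = C (xi (some b)) := Phi_x (some b)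
        have hne : ∀ (a : Fin N) (l : Fin k), (some (b, 0) : HV N k) ≠ some (a, l.succ) := by
          intro a l h2
          have h3 := congrArg Prod.snd (Option.some_injective _ h2)
          exact (Fin.succ_ne_zero l) h3.symm
        rw [h1, pderiv_C]
        refine (Finset.sum_eq_zero fun b _ => ?_).symm
        rw [pderiv_X_of_ne (hne _ _), map_zero, mul_zero]
      · rw [Phi_v]
        have hR : ∀ b' : Fin N, C (M b' p.1) * Phi k xi M (pderiv (some (b', p.2.succ))
            (X (some (b, j.succ)) : MvPolynomial (HV N k) ℂ)) =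
            if b' = b then (if j = p.2 then C (M b p.1) else 0) else 0 := by
          intro b'
          by_cases hb : b' = b
          · rw [if_pos hb]
            by_cases hj : j = p.2
            · rw [if_pos hj, hb, hj, pderiv_X_self, map_one, mul_one]
            · rw [if_neg hj, pderiv_X_of_ne, map_zero, mul_zero]
              intro h2
              have h3 := congrArg Prod.snd (Option.some_injective _ h2)
              exact hj (Fin.succ_injective _ h3)
          · rw [if_neg hb, pderiv_X_of_ne, map_zero, mul_zero]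
            intro h2
            exact hb (congrArg Prod.fst (Option.some_injective _ h2)).symm
        rw [Finset.sum_congr rfl fun b' _ => hR b', Finset.sum_ite_eq' Finset.univ b
          (fun _ => if j = p.2 then (C (M b p.1) : MvPolynomial (Fin n × Fin k) E) else 0),
          if_pos (Finset.mem_univ _)]
        unfold vimg
        rw [map_sum]
        have hterm : ∀ i : Fin n, pderiv p (C (M b i) * X (i, j) :
            MvPolynomial (Fin n × Fin k) E) = if i = p.1 then (if j = p.2 then C (M b p.1) else 0) else 0 := by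
          intro i
          rw [pderiv_C_mul]
          by_cases hi : i = p.1
          · rw [if_pos hi]
            by_cases hj : j = p.2
            · have h4 : (i, j) = p := Prod.ext hi hj
              rw [if_pos hj, h4, pderiv_X_self, mul_one, hi]
            · rw [if_neg hj, pderiv_X_of_ne, mul_zero]
              intro h2
              exact hj (congrArg Prod.snd h2)
          · rw [if_neg hi, pderiv_X_of_ne, mul_zero]
            intro h2
            exact hi (congrArg Prod.fst h2)
        rw [Finset.sum_congr rfl fun i _ => hterm i, Finset.sum_ite_eq' Finset.univ p.1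
          (fun _ => if j = p.2 then (C (M b p.1) : MvPolynomial (Fin n × Fin k) E) else 0),
          if_pos (Finset.mem_univ _)]
  induction f using MvPolynomial.induction_on with
  | C a =>
    rw [Phi_C, pderiv_C]
    refine (Finset.sum_eq_zero fun b _ => ?_).symm
    rw [pderiv_C, map_zero, mul_zero]
  | add f g hf hg =>
    rw [map_add, map_add, hf, hg, ← Finset.sum_add_distrib]
    refine Finset.sum_congr rfl fun b _ => ?_
    rw [map_add, map_add, mul_add]
  | mul_X f q hf =>
    have hq := hvar q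
    rw [map_mul, Derivation.leibniz, hf, hq, smul_eq_mul, smul_eq_mul, Finset.mul_sum,
      Finset.mul_sum, ← Finset.sum_add_distrib]
    refine Finset.sum_congr rfl fun b _ => ?_
    rw [Derivation.leibniz, smul_eq_mul, smul_eq_mul, map_add, map_mul, map_mul]
    ring

end Pool.Agent.H80W
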