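import Pool.Agent.Lib.H80W.A1
import Pool.Agent.Lib.H44K.G13

set_option autoImplicit false

/-!
H80W, A2: linear models.  The Koszul condition in terms of `BB`; the left and the right factor; the operator `Gt` maps cocycles to coboundaries.
-/

open MvPolynomial

namespace Pool.Agent.H80W

open Pool.Agent.H89T Pool.Agent.H67T Pool.Agent.H53U Pool.Agent.H53V

open Pool.Agent.H44K (mdet dop Gt Ch wch E1 E2 dop_wt dop_small dop_mul dop_one g13_dop_C_mul)

variable {E : Type} [CommRing E] [Algebra ℂ E] {N n : ℕ} {k : ℕ} {xi : Option (Fin N) → E}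
  {M : Fin N → Fin n → E}

/-- PROOF.  As `BB_E2` of H44K: `u` is an index with `xi u` a unit. -/
theorem BB_E2 {u : Option (Fin N)} (hux : IsUnit (xi u)) {c s m : ℕ}
    (h2 : E2 (Ik k xi M) c (fun _ => s))
    (h : Option (Fin N) → Option (Fin N) → MvPolynomial (Fin n × Fin k) E)
    (hB : ∀ a b, h a b ∈ BB k xi M (c + s + s) m)
    (hcoc : ∀ a b e, C (xi a) ^ s * h b e - C (xi b) ^ s * h a e +
      C (xi e) ^ s * h a b = 0) :
    ∃ g : Option (Fin N) → MvPolynomial (Fin n × Fin k) E,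
      (∀ b, g b ∈ BB k xi M (c + s) m) ∧
      ∀ a b, h a b = C (xi a) ^ s * g b - C (xi b) ^ s * g a := by
  have hu : IsUnit ((C (xi u) : MvPolynomial (Fin n × Fin k) E) ^ s) :=
    (hux.map (C : E →+* MvPolynomial (Fin n × Fin k) E)).pow s
  have haa : ∀ a, h a a = 0 := by
    intro a
    have h1 := hcoc a a u
    rw [sub_self, zero_add] at h1
    exact hu.mul_right_eq_zero.1 h1
  have hab : ∀ a b, h a b + h b a = 0 := by
    intro a b
    have h1 := hcoc u a b
    have h3 := hcoc u b a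
    refine hu.mul_right_eq_zero.1 ?_
    linear_combination h1 + h3
  choose H hH hHh using fun a b => mem_BB.1 (hB a b)
  obtain ⟨g, hg, hg2⟩ := h2 m H hH
    (fun a => by rw [mem_Ik, hHh, haa])
    (fun a b => by rw [mem_Ik, map_add, hHh, hHh, hab])
    (fun a b e => by
      rw [mem_Ik, map_add, map_sub, Phi_xpow, Phi_xpow, Phi_xpow, hHh, hHh, hHh]
      exact hcoc a b e)
  refine ⟨fun b => Phi k xi M (g b), fun b => mem_BB.2 ⟨g b, hg b, rfl⟩, fun a b => ?_⟩
  have h4 := hg2 a b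
  rw [mem_Ik, map_sub, map_sub, Phi_xpow, Phi_xpow, hHh, sub_eq_zero] at h4
  exact h4

/-- The left factor, one step. -/
def HSat (k : ℕ) (xi : Option (Fin N) → E) (M : Fin N → Fin n → E) (D : ℕ) (yi : E) (A₀ : ℕ) : Prop :=
  ∀ A ≥ A₀, ∀ (m : ℕ) (J : Fin n → Fin k), ∀ f ∈ BB k xi M (A + D) m,
    C yi * mdet J * f ∈ BB k xi M A (m + wch J)

/-- The right factor, one step. -/
def HRight (k : ℕ) (xi : Option (Fin N) → E) (M : Fin N → Fin n → E) (D : ℕ) (y : E) : Prop :=
  ∀ (A m : ℕ) (J : Fin n → Fin k), ∀ f ∈ BB k xi M A (m + wch J),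
    C y * dop (mdet J) f ∈ BB k xi M (A + D) m

theorem satt {D : ℕ} {yi : E} {A₀ : ℕ} (h : HSat k xi M D yi A₀) {A : ℕ}
    (hA : A₀ ≤ A) {t m : ℕ} (J : Fin t → Fin n → Fin k)
    {f : MvPolynomial (Fin n × Fin k) E} (hf : f ∈ BB k xi M (A + D * t) m) :
    (∏ i, (C yi * mdet (J i))) * f ∈ BB k xi M A (m + ∑ i, wch (J i)) := by
  induction t generalizing A m f with
  | zero =>
    rw [Finset.univ_eq_empty, Finset.prod_empty, Finset.sum_empty, one_mul]
    rwa [mul_zero, add_zero] at hf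
  | succ t ih =>
    have h1 : A + D * (t + 1) = (A + D) + D * t := by ring
    rw [h1] at hf
    have h2 := ih (A := A + D) (by omega) (fun i => J i.succ) hf
    have h3 := h A hA _ (J 0) _ h2
    rw [Fin.prod_univ_succ, Fin.sum_univ_succ]
    have h4 : m + (wch (J 0) + ∑ i : Fin t, wch (J i.succ)) =
        m + ∑ i : Fin t, wch (J i.succ) + wch (J 0) := by ring
    rw [h4, mul_assoc]
    exact h3

theorem rightt {D : ℕ} {y : E} (h : HRight k xi M D y) {A t m : ℕ} (J : Fin t → Fin n → Fin k)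
    {f : MvPolynomial (Fin n × Fin k) E} (hf : f ∈ BB k xi M A (m + ∑ i, wch (J i))) :
    C y ^ t * dop (∏ i, mdet (J i)) f ∈ BB k xi M (A + D * t) m := by
  induction t generalizing A f with
  | zero =>
    rw [Fin.prod_univ_zero, dop_one, pow_zero, one_mul, mul_zero, add_zero]
    rw [Fin.sum_univ_zero, add_zero] at hf
    exact hf
  | succ t ih =>
    rw [Fin.sum_univ_succ] at hf
    have h1 : f ∈ BB k xi M A ((m + ∑ i : Fin t, wch (J i.succ)) + wch (J 0)) := by
      have e : m + (wch (J 0) + ∑ i : Fin t, wch (J i.succ)) =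
        (m + ∑ i : Fin t, wch (J i.succ)) + wch (J 0) := by ring
      rw [e] at hf
      exact hf
    have h2 := h A _ (J 0) _ h1
    have h3 := ih (fun i => J i.succ) h2
    rw [Fin.prod_univ_succ, mul_comm (mdet (J 0)), dop_mul]
    rw [g13_dop_C_mul, ← mul_assoc, ← pow_succ] at h3
    have e : A + D * (t + 1) = A + D + D * t := by ring
    rw [e]
    exact h3

theorem mdet_wt (B : Type*) [CommRing B] (J : Fin n → Fin k) : IsWeightedHomogeneous
    (fun p : Fin n × Fin k => (p.2 : ℕ) + 1) (mdet J : MvPolynomial (Fin n × Fin k) B)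
      (wch J) := by
  unfold mdet
  rw [Matrix.det_apply']
  refine Submodule.sum_mem (weightedHomogeneousSubmodule B
    (fun p : Fin n × Fin k => (p.2 : ℕ) + 1) (wch J)) fun σ _ => ?_
  have h1 : IsWeightedHomogeneous (fun p : Fin n × Fin k => (p.2 : ℕ) + 1)
      (∏ i : Fin n, (Matrix.of fun b i : Fin n => (X (b, J i) :
        MvPolynomial (Fin n × Fin k) B)) (σ i) i) (wch J) := by
    unfold wch
    refine IsWeightedHomogeneous.prod _ _ _ fun i _ => ?_
    exact isWeightedHomogeneous_X B (fun p : Fin n × Fin k => (p.2 : ℕ) + 1) (σ i, J i)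
  have h2 : (((Equiv.Perm.sign σ : ℤ)) : MvPolynomial (Fin n × Fin k) B) =
      C (((Equiv.Perm.sign σ : ℤ)) : B) := by
    rw [map_intCast]
  rw [h2]
  have h3 := IsWeightedHomogeneous.mul (isWeightedHomogeneous_C
    (fun p : Fin n × Fin k => (p.2 : ℕ) + 1) (((Equiv.Perm.sign σ : ℤ)) : B)) h1
  rw [zero_add] at h3
  exact h3

theorem mdet_prod_wt (B : Type*) [CommRing B] {t : ℕ} (J : Fin t → Fin n → Fin k) :
    IsWeightedHomogeneous (fun p : Fin n × Fin k => (p.2 : ℕ) + 1)
      (∏ i, mdet (J i) : MvPolynomial (Fin n × Fin k) B) (∑ i, wch (J i)) :=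
  IsWeightedHomogeneous.prod _ _ _ fun i _ => mdet_wt B (J i)

theorem rightt_small {A t m : ℕ} (J : Fin t → Fin n → Fin k)
    {f : MvPolynomial (Fin n × Fin k) E} (hf : f ∈ BB k xi M A m)
    (h : m < ∑ i, wch (J i)) : dop (∏ i, mdet (J i)) f = 0 :=
  dop_small _ (mdet_prod_wt E J) (BB_wt hf) h

theorem dop_lin (P f : MvPolynomial (Fin n × Fin k) E) (u : E) (s : ℕ) :
    dop P (C u ^ s * f) = C u ^ s * dop P f := by
  rw [← map_pow, ← smul_eq_C_mul, ← smul_eq_C_mul, map_smul]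

theorem Gt_cob_one {u : Option (Fin N)} (hux : IsUnit (xi u)) {D : ℕ} {y yi : E} (hyi : yi * y = 1)
    {A₀ : ℕ} (hS : HSat k xi M D yi A₀) (hR : HRight k xi M D y) {A s t : ℕ}
    (hE2 : ∀ c ≥ A₀, E2 (Ik k xi M) c (fun _ => s)) (hA : A₀ ≤ A) (hst : s ≤ D * t) {m : ℕ}
    (h : Option (Fin N) → Option (Fin N) → MvPolynomial (Fin n × Fin k) E)
    (hB : ∀ a b, h a b ∈ BB k xi M (A + s) m)
    (hcoc : ∀ a b e, C (xi a) ^ s * h b e - C (xi b) ^ s * h a e +
      C (xi e) ^ s * h a b = 0) (J : Fin t → Ch n k) :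
    ∃ g : Option (Fin N) → MvPolynomial (Fin n × Fin k) E,
      (∀ b, g b ∈ BB k xi M A m) ∧
      ∀ a b, (∏ i, mdet (J i).1) * dop (∏ i, mdet (J i).1) (h a b) =
        C (xi a) ^ s * g b - C (xi b) ^ s * g a := by
  rcases lt_or_ge m (∑ i, wch (J i).1) with hm | hm
  · refine ⟨fun _ => 0, fun b => (BB k xi M A m).zero_mem, fun a b => ?_⟩
    rw [rightt_small (fun i => (J i).1) (hB a b) hm, mul_zero, mul_zero, mul_zero, sub_zero]
  · obtain ⟨m', rfl⟩ := Nat.exists_eq_add_of_le' hm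
    obtain ⟨c, hc⟩ : ∃ c, c + s = A + D * t := ⟨A + D * t - s, by omega⟩
    have hcA : A₀ ≤ c := by omega
    have hB' : ∀ a b, C y ^ t * dop (∏ i, mdet (J i).1) (h a b) ∈
        BB k xi M (c + s + s) m' := by
      intro a b
      have h1 := rightt hR (fun i => (J i).1) (hB a b)
      have h2 : c + s + s = A + s + D * t := by omega
      rw [h2]
      exact h1
    have hcoc' : ∀ a b e, C (xi a) ^ s * (C y ^ t *
          dop (∏ i, mdet (J i).1) (h b e)) -
        C (xi b) ^ s * (C y ^ t * dop (∏ i, mdet (J i).1) (h a e)) +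
        C (xi e) ^ s * (C y ^ t * dop (∏ i, mdet (J i).1) (h a b)) = 0 := by
      intro a b e
      have h1 : dop (∏ i, mdet (J i).1) (C (xi a) ^ s * h b e - C (xi b) ^ s * h a e +
          C (xi e) ^ s * h a b) = 0 := by rw [hcoc, map_zero]
      rw [map_add, map_sub, dop_lin, dop_lin, dop_lin] at h1
      have h2 : ∀ x y z u v w q : MvPolynomial (Fin n × Fin k) E,
          x * (q * u) - y * (q * v) + z * (q * w) = q * (x * u - y * v + z * w) := by
        intro x y z u v w q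
        ring
      rw [h2, h1, mul_zero]
    obtain ⟨g', hg', hgh⟩ := BB_E2 hux (hE2 c hcA) _ hB' hcoc'
    refine ⟨fun b => (∏ i, (C yi * mdet (J i).1)) * g' b, fun b => ?_, fun a b => ?_⟩
    · exact satt hS hA (fun i => (J i).1) (by rw [← hc]; exact hg' b)
    · have h1 : (∏ i, (C yi * mdet (J i).1) : MvPolynomial (Fin n × Fin k) E) =
          (C yi) ^ t * ∏ i, mdet (J i).1 := by
        rw [Finset.prod_mul_distrib, Finset.prod_const, Finset.card_univ, Fintype.card_fin]
      have h2 : (C yi) ^ t * C y ^ t =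
          (1 : MvPolynomial (Fin n × Fin k) E) := by
        rw [← mul_pow, ← C_mul, hyi, C_1, one_pow]
      have h3 : ∀ x y u v q : MvPolynomial (Fin n × Fin k) E,
          x * (q * u) - y * (q * v) = q * (x * u - y * v) := by
        intro x y u v q
        ring
      rw [h3, ← hgh a b, h1]
      have h4 : ∀ x P y D : MvPolynomial (Fin n × Fin k) E,
          x * P * (y * D) = (x * y) * (P * D) := by
        intro x P y D
        ring
      rw [h4, h2, one_mul]

/-- PROOF.  As `Gt_cob` of H44K. -/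
theorem Gt_cob {u : Option (Fin N)} (hux : IsUnit (xi u)) {D : ℕ} {y yi : E} (hyi : yi * y = 1)
    {A₀ : ℕ} (hS : HSat k xi M D yi A₀) (hR : HRight k xi M D y) {A s t : ℕ}
    (hE2 : ∀ c ≥ A₀, E2 (Ik k xi M) c (fun _ => s)) (hA : A₀ ≤ A) (hst : s ≤ D * t) {m : ℕ}
    (h : Option (Fin N) → Option (Fin N) → MvPolynomial (Fin n × Fin k) E)
    (hB : ∀ a b, h a b ∈ BB k xi M (A + s) m)
    (hcoc : ∀ a b e, C (xi a) ^ s * h b e - C (xi b) ^ s * h a e +
      C (xi e) ^ s * h a b = 0) :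
    ∃ g : Option (Fin N) → MvPolynomial (Fin n × Fin k) E,
      (∀ b, g b ∈ BB k xi M A m) ∧
      ∀ a b, Gt E t (h a b) = C (xi a) ^ s * g b - C (xi b) ^ s * g a := by
  choose g hg1 hg2 using Gt_cob_one hux hyi hS hR hE2 hA hst h hB hcoc
  refine ⟨fun b => ∑ J, g J b, fun b => Submodule.sum_mem _ fun J _ => hg1 J b, fun a b => ?_⟩
  unfold Gt
  rw [Finset.sum_congr rfl fun J _ => hg2 J a b, Finset.sum_sub_distrib, Finset.mul_sum,
    Finset.mul_sum]

end Pool.Agent.H80W
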