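import Pool.Agent.Lib.H80W.A1

set_option autoImplicit false

/-!
CHUNK B1 (M).  H80W: the ring `EE`.
-/

open MvPolynomial

namespace Pool.Agent.H80W

open Pool.Agent.H89T Pool.Agent.H67T Pool.Agent.H53U Pool.Agent.H53V

section Red

variable {B : Type*} [CommRing B] {c : ℕ}

/-- The ideal `(X_j ^ (d j) + g_j)`. -/
noncomputable def relI (d : Fin c → ℕ) (g : Fin c → B) : Ideal (MvPolynomial (Fin c) B) :=
  Ideal.span (Set.range fun j => X j ^ d j + C (g j))

/-- The reduction `X ^ μ ↦ ∏ (- g_j) ^ (μ_j / d_j) X ^ (μ mod d)`. -/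
noncomputable def red (d : Fin c → ℕ) (g : Fin c → B) :
    MvPolynomial (Fin c) B →ₗ[B] MvPolynomial (Fin c) B :=
  (basisMonomials (Fin c) B).constr B fun μ =>
    monomial (Finsupp.equivFunOnFinite.symm fun j => μ j % d j) (∏ j, (- g j) ^ (μ j / d j))

/-- PROOF.  `Module.Basis.constr_basis`, `coe_basisMonomials`, `monomial μ a = a • monomial μ 1`. -/
theorem red_monomial (d : Fin c → ℕ) (g : Fin c → B) (μ : Fin c →₀ ℕ) (a : B) :
    red d g (monomial μ a) =
      monomial (Finsupp.equivFunOnFinite.symm fun j => μ j % d j) (a * ∏ j, (- g j) ^ (μ j / d j)) := by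
  have h1 : (monomial μ a : MvPolynomial (Fin c) B) = a • (basisMonomials (Fin c) B) μ := by
    rw [coe_basisMonomials, smul_monomial, smul_eq_mul, mul_one]
  rw [h1, map_smul]
  unfold red
  rw [Module.Basis.constr_basis, smul_monomial, smul_eq_mul]

/-- PROOF.  Linear in `f` (`induction_on'`): for a monomial `X ^ μ * X_j ^ (d j) = X ^ (μ + d_j e_j)`: the remainders are the same, the quotient at `j` is
larger by `1`; so the two terms cancel (`Finset.prod_update`-like: `Fintype.prod_eq_mul_prod_compl`, or compare the products factor by factor with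
`Finset.prod_congr` after writing `(- g j)` times ...). -/
theorem red_mul (d : Fin c → ℕ) (hd : ∀ j, 1 ≤ d j) (g : Fin c → B) (f : MvPolynomial (Fin c) B) (j : Fin c) :
    red d g (f * (X j ^ d j + C (g j))) = 0 := by
  classical
  induction f using MvPolynomial.induction_on' with
  | monomial ν a =>
    have h1 : (monomial ν a : MvPolynomial (Fin c) B) * (X j ^ d j + C (g j)) =
        monomial (ν + Finsupp.single j (d j)) a + monomial ν (a * g j) := by
      rw [mul_add, X_pow_eq_monomial, monomial_mul, mul_one, mul_comm (monomial ν a) (C (g j)),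
        C_mul_monomial, mul_comm (g j) a]
    rw [h1, map_add, red_monomial, red_monomial]
    have h2 : (Finsupp.equivFunOnFinite.symm fun i => (ν + Finsupp.single j (d j)) i % d i) =
        Finsupp.equivFunOnFinite.symm fun i => ν i % d i := by
      congr 1
      funext i
      rw [Finsupp.add_apply]
      by_cases hi : i = j
      · subst hi
        rw [Finsupp.single_eq_same, Nat.add_mod_right]
      · rw [Finsupp.single_eq_of_ne hi, add_zero]
    have h3 : ∏ i, (- g i) ^ ((ν + Finsupp.single j (d j)) i / d i) =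
        (∏ i, (- g i) ^ (ν i / d i)) * (- g j) := by
      have h4 : ∀ i, (- g i) ^ ((ν + Finsupp.single j (d j)) i / d i) =
          (- g i) ^ (ν i / d i) * (if i = j then - g i else 1) := by
        intro i
        rw [Finsupp.add_apply]
        by_cases hi : i = j
        · subst hi
          rw [Finsupp.single_eq_same, Nat.add_div_right _ (hd i), pow_succ, if_pos rfl]
        · rw [Finsupp.single_eq_of_ne hi, add_zero, if_neg hi, mul_one]
      rw [Finset.prod_congr rfl fun i _ => h4 i, Finset.prod_mul_distrib,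
        Finset.prod_ite_eq' Finset.univ j, if_pos (Finset.mem_univ j)]
    rw [h2, h3, ← (monomial _).map_add]
    have h5 : a * ((∏ i, (- g i) ^ (ν i / d i)) * (- g j)) + a * g j * ∏ i, (- g i) ^ (ν i / d i) = 0 := by
      ring
    rw [h5, map_zero]
  | add p q hp hq => rw [add_mul, map_add, hp, hq, add_zero]

/-- PROOF.  Linear in `f`; for a monomial: `X ^ μ = ∏ (X_j ^ (d j)) ^ (μ_j / d_j) * X ^ (μ mod d)` and `X_j ^ (d j) ≡ - g_j` modulo the ideal (work in the
quotient ring: `Ideal.Quotient.eq`, `map_prod`, `Nat.div_add_mod`). -/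
theorem sub_red_mem (d : Fin c → ℕ) (g : Fin c → B) (f : MvPolynomial (Fin c) B) :
    f - red d g f ∈ relI d g := by
  have key : ∀ f : MvPolynomial (Fin c) B, Ideal.Quotient.mk (relI d g) f =
      Ideal.Quotient.mk (relI d g) (red d g f) := by
    intro f
    have hX : ∀ j, (Ideal.Quotient.mk (relI d g) (X j)) ^ d j =
        Ideal.Quotient.mk (relI d g) (C (- g j)) := by
      intro j
      rw [← map_pow, Ideal.Quotient.eq]
      have h1 : X j ^ d j - C (- g j) = (X j ^ d j + C (g j) : MvPolynomial (Fin c) B) := by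
        rw [C_neg, sub_neg_eq_add]
      rw [h1]
      exact Ideal.subset_span ⟨j, rfl⟩
    induction f using MvPolynomial.induction_on' with
    | monomial ν a =>
      rw [red_monomial, monomial_eq, monomial_eq, Finsupp.prod_fintype _ _ fun i => pow_zero _,
        Finsupp.prod_fintype _ _ fun i => pow_zero _, map_mul, map_mul, map_prod, map_prod, C_mul,
        map_mul, mul_assoc]
      congr 1
      rw [map_prod, map_prod, ← Finset.prod_mul_distrib]
      refine Finset.prod_congr rfl fun j _ => ?_
      have h2 : (Finsupp.equivFunOnFinite.symm fun i => ν i % d i) j = ν j % d j := rfl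
      rw [h2, map_pow, C_pow, map_pow, ← hX, ← pow_mul, map_pow, ← pow_add, Nat.div_add_mod]
    | add p q hp hq => rw [map_add, map_add, map_add, hp, hq]
  rw [← Ideal.Quotient.eq]
  exact key f

/-- PROOF.  `f.as_sum`, `red_monomial`: `μ j % d j = μ j`, `μ j / d j = 0`. -/
theorem red_eq_self (d : Fin c → ℕ) (g : Fin c → B) (f : MvPolynomial (Fin c) B)
    (h : ∀ μ, coeff μ f ≠ 0 → ∀ j, μ j < d j) : red d g f = f := by
  have h1 : red d g f = ∑ ν ∈ f.support, red d g (monomial ν (coeff ν f)) := by
    conv_lhs => rw [f.as_sum]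
    rw [map_sum]
  rw [h1]
  conv_rhs => rw [f.as_sum]
  refine Finset.sum_congr rfl fun ν hν => ?_
  rw [red_monomial]
  have h2 := h ν (mem_support_iff.1 hν)
  have h3 : (Finsupp.equivFunOnFinite.symm fun j => ν j % d j) = ν := by
    ext j
    exact Nat.mod_eq_of_lt (h2 j)
  have h4 : ∏ j, (- g j) ^ (ν j / d j) = 1 :=
    Finset.prod_eq_one fun j _ => by rw [Nat.div_eq_of_lt (h2 j), pow_zero]
  rw [h3, h4, mul_one]

/-- PROOF.  Both sides are additive in `f`; monomials: `red_monomial`, `map_monomial`, `map_prod`. -/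
theorem red_map {B' : Type*} [CommRing B'] (φ : B →+* B') (d : Fin c → ℕ) (g : Fin c → B)
    (f : MvPolynomial (Fin c) B) : map φ (red d g f) = red d (fun j => φ (g j)) (map φ f) := by
  induction f using MvPolynomial.induction_on' with
  | monomial ν a =>
    rw [red_monomial, map_monomial, map_monomial, red_monomial, map_mul, map_prod]
    congr 2
    refine Finset.prod_congr rfl fun j _ => ?_
    rw [map_pow, map_neg]
  | add p q hp hq => rw [map_add, map_add, map_add, map_add, hp, hq]

/-- PROOF.  `→`: `Submodule.span_induction` (or `Ideal.span` as sums: `Submodule.mem_ideal_span_range_iff_exists_fun`), `red_mul` (with `mul_comm`).  `←`: `sub_red_mem`. -/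
theorem mem_relI_iff (d : Fin c → ℕ) (hd : ∀ j, 1 ≤ d j) (g : Fin c → B) (f : MvPolynomial (Fin c) B) :
    f ∈ relI d g ↔ red d g f = 0 := by
  constructor
  · intro h
    unfold relI at h
    rw [Ideal.mem_span_range_iff_exists_fun] at h
    obtain ⟨e, rfl⟩ := h
    rw [map_sum]
    exact Finset.sum_eq_zero fun j _ => red_mul d hd g (e j) j
  · intro h
    have h1 := sub_red_mem d g f
    rw [h, sub_zero] at h1
    exact h1

/-- PROOF.  `mem_relI_iff`, `red_map`, injectivity of `map φ` (`map_injective`). -/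
theorem mem_relI_of_map {B' : Type*} [CommRing B'] (φ : B →+* B') (hφ : Function.Injective φ)
    (d : Fin c → ℕ) (hd : ∀ j, 1 ≤ d j) (g : Fin c → B) (f : MvPolynomial (Fin c) B)
    (h : map φ f ∈ relI d (fun j => φ (g j))) : f ∈ relI d g := by
  rw [mem_relI_iff d hd] at h ⊢
  rw [← red_map] at h
  apply map_injective φ hφ
  rw [h, map_zero]

end Red

variable {n c : ℕ} {d : Fin c → ℕ} {α : Fin c → Option (Fin n) → ℂ}

/-- `x_b ↦ x_b` (`b ≤ n`), `x_(n + j) ↦ X j`. -/
noncomputable def thx (n c : ℕ) : MvPolynomial (Option (Fin (n + c))) ℂ →ₐ[ℂ]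
    MvPolynomial (Fin c) (MvPolynomial (Option (Fin n)) ℂ) :=
  aeval fun b => b.elim (C (X none)) fun b => Fin.addCases (fun i => C (X (some i))) (fun j => X j) b

/-- The inverse of `thx`. -/
noncomputable def thy (n c : ℕ) : MvPolynomial (Fin c) (MvPolynomial (Option (Fin n)) ℂ) →+*
    MvPolynomial (Option (Fin (n + c))) ℂ :=
  eval₂Hom (rename (vb n c) : MvPolynomial (Option (Fin n)) ℂ →ₐ[ℂ] _).toRingHom fun j => X (vc n c j)

theorem thx_vb (b : Option (Fin n)) : thx n c (X (vb n c b)) = C (X b) := by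
  unfold thx
  rw [aeval_X]
  cases b with
  | none => rfl
  | some i =>
    show Fin.addCases (fun i => C (X (some i))) (fun j => X j) (Fin.castAdd c i) = C (X (some i))
    rw [Fin.addCases_left]

theorem thx_vc (j : Fin c) : thx n c (X (vc n c j)) = X j := by
  unfold thx
  rw [aeval_X]
  show Fin.addCases (fun i => C (X (some i))) (fun j => X j) (Fin.natAdd n j) = X j
  rw [Fin.addCases_right]

/-- PROOF.  Ring homomorphisms, equal on the variables (`b = vb _` or `b = vc _`) and constants. -/
theorem thy_thx (p : MvPolynomial (Option (Fin (n + c))) ℂ) : thy n c (thx n c p) = p := by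
  have hC : ∀ q : MvPolynomial (Option (Fin n)) ℂ, thy n c (C q) = rename (vb n c) q := by
    intro q
    unfold thy
    rw [eval₂Hom_C]
    rfl
  have hXb : ∀ b, thy n c (thx n c (X b)) = X b := by
    intro b
    have h1 : ∀ b, thy n c (thx n c (X (vb n c b))) = X (vb n c b) := by
      intro b
      rw [thx_vb, hC, rename_X]
    cases b with
    | none => exact h1 none
    | some b =>
      refine Fin.addCases (fun i => ?_) (fun j => ?_) b
      · exact h1 (some i)
      · have h2 : (X (some (Fin.natAdd n j)) : MvPolynomial (Option (Fin (n + c))) ℂ) = X (vc n c j) := rfl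
        rw [h2, thx_vc]
        unfold thy
        rw [eval₂Hom_X']
  induction p using MvPolynomial.induction_on with
  | C a =>
    have h1 : thx n c (C a) = C (C a) := by
      have h3 : (C a : MvPolynomial (Option (Fin (n + c))) ℂ) = algebraMap ℂ _ a := rfl
      rw [h3, AlgHom.commutes]
      rfl
    rw [h1, hC, rename_C]
  | add p q hp hq => rw [map_add, map_add, hp, hq]
  | mul_X p b hp => rw [map_mul, map_mul, hp, hXb]

theorem thx_Fx (j : Fin c) : thx n c (Fx n c d α j) = X j ^ d j + C (gj n c d α j) := by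
  unfold Fx gj
  rw [map_add, map_pow, thx_vc, map_sum, map_sum]
  congr 1
  refine Finset.sum_congr rfl fun b _ => ?_
  have h3 : (C (α j b) : MvPolynomial (Option (Fin (n + c))) ℂ) = algebraMap ℂ _ (α j b) := rfl
  rw [map_mul, map_pow, thx_vb, h3, AlgHom.commutes, map_mul, map_pow]
  rfl

theorem thy_rel (j : Fin c) : thy n c (X j ^ d j + C (gj n c d α j)) = Fx n c d α j := by
  rw [← thx_Fx, thy_thx]

theorem b1_mk (f : MvPolynomial (Fin c) (LF n)) : mkE n c d α f = 0 ↔ f ∈ rel n c d α :=
  Ideal.Quotient.eq_zero_iff_mem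

theorem b1_mk_eq (f g : MvPolynomial (Fin c) (LF n)) : mkE n c d α f = mkE n c d α g ↔
    f - g ∈ rel n c d α :=
  Ideal.Quotient.eq

/-- PROOF.  Algebra homomorphisms in `p` (`algHom_ext`), compare on the variables. -/
theorem aeval_xi (p : MvPolynomial (Option (Fin (n + c))) ℂ) : aeval (xi n c d α) p =
    mkE n c d α (map (algebraMap (MvPolynomial (Option (Fin n)) ℂ) (LF n)) (thx n c p)) := by
  have hXb : ∀ b, xi n c d α b = mkE n c d α
      (map (algebraMap (MvPolynomial (Option (Fin n)) ℂ) (LF n)) (thx n c (X b))) := by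
    intro b
    cases b with
    | none =>
      have h2 : (X none : MvPolynomial (Option (Fin (n + c))) ℂ) = X (vb n c none) := rfl
      rw [h2, thx_vb, map_C]
      rfl
    | some b =>
      refine Fin.addCases (fun i => ?_) (fun j => ?_) b
      · have h2 : (X (some (Fin.castAdd c i)) : MvPolynomial (Option (Fin (n + c))) ℂ) =
          X (vb n c (some i)) := rfl
        rw [h2, thx_vb, map_C]
        show Fin.addCases (motive := fun _ => EE n c d α) (fun i => mkE n c d α
          (C (algebraMap (MvPolynomial (Option (Fin n)) ℂ) (LF n) (X (some i)))))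
          (fun j => mkE n c d α (X j)) (Fin.castAdd c i) = _
        rw [Fin.addCases_left]
      · have h2 : (X (some (Fin.natAdd n j)) : MvPolynomial (Option (Fin (n + c))) ℂ) = X (vc n c j) := rfl
        rw [h2, thx_vc, map_X]
        show Fin.addCases (motive := fun _ => EE n c d α) (fun i => mkE n c d α
          (C (algebraMap (MvPolynomial (Option (Fin n)) ℂ) (LF n) (X (some i)))))
          (fun j => mkE n c d α (X j)) (Fin.natAdd n j) = _
        rw [Fin.addCases_right]
  induction p using MvPolynomial.induction_on with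
  | C a =>
    have h3 : (C a : MvPolynomial (Option (Fin (n + c))) ℂ) = algebraMap ℂ _ a := rfl
    rw [h3, AlgHom.commutes, AlgHom.commutes]
    have h4 : algebraMap ℂ (MvPolynomial (Fin c) (MvPolynomial (Option (Fin n)) ℂ)) a =
      C (algebraMap ℂ (MvPolynomial (Option (Fin n)) ℂ) a) := rfl
    rw [h4, map_C, ← IsScalarTower.algebraMap_apply]
    rfl
  | add p q hp hq => rw [map_add, map_add, map_add, map_add, hp, hq]
  | mul_X p b hp => rw [map_mul, map_mul, map_mul, map_mul, hp, aeval_X, hXb]

/-- PROOF.  `aeval_xi`, `rel = relI d (algebraMap ∘ gj)`, `mem_relI_of_map`, apply `thy` to `thx p ∈ relI d gj` (`Ideal.map_span`/ sums), `thy_thx`, `thy_rel`. -/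
theorem ee_ker (hd : ∀ j, 1 ≤ d j) (p : MvPolynomial (Option (Fin (n + c))) ℂ)
    (h : aeval (xi n c d α) p = 0) : p ∈ Ideal.span (Set.range (Fx n c d α)) := by
  rw [aeval_xi, b1_mk] at h
  have h1 : thx n c p ∈ relI d (fun j => gj n c d α j) :=
    mem_relI_of_map (algebraMap (MvPolynomial (Option (Fin n)) ℂ) (LF n))
      (IsFractionRing.injective _ _) d hd _ _ h
  unfold relI at h1
  rw [Ideal.mem_span_range_iff_exists_fun] at h1
  obtain ⟨e, he⟩ := h1
  rw [← thy_thx p, ← he, map_sum]
  refine Ideal.sum_mem _ fun j _ => ?_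
  rw [map_mul, thy_rel]
  exact Ideal.mul_mem_left _ _ (Ideal.subset_span ⟨j, rfl⟩)

/-- PROOF.  As `ee_ker`: `thx p ∈ relI d gj`, so `red (thx p) = 0`; `red (thx p) = thx p` by `red_eq_self` (the monomials of `thx p`: if
`coeff μ (thx p) ≠ 0` then there is a monomial `ν` of `p` with `ν (vc j) = μ j`: write `p.as_sum`, `thx (monomial ν a) = C _ * ∏ X j ^ ν (vc j)`);
so `thx p = 0` and `p = thy (thx p) = 0`. -/
theorem zero_of_ee (hd : ∀ j, 1 ≤ d j) (p : MvPolynomial (Option (Fin (n + c))) ℂ)
    (h : aeval (xi n c d α) p = 0) (hp : ∀ ν, coeff ν p ≠ 0 → ∀ j, ν (vc n c j) < d j) : p = 0 := by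
  classical
  rw [aeval_xi, b1_mk] at h
  have h1 : thx n c p ∈ relI d (fun j => gj n c d α j) :=
    mem_relI_of_map (algebraMap (MvPolynomial (Option (Fin n)) ℂ) (LF n))
      (IsFractionRing.injective _ _) d hd _ _ h
  rw [mem_relI_iff d hd, red_eq_self] at h1
  · rw [← thy_thx p, h1, map_zero]
  · intro μ hμ j
    have h2 : thx n c p = ∑ ν ∈ p.support, thx n c (monomial ν (coeff ν p)) := by
      conv_lhs => rw [p.as_sum]
      rw [map_sum]
    rw [h2, coeff_sum] at hμ
    obtain ⟨ν, hν, hμν⟩ := Finset.exists_ne_zero_of_sum_ne_zero hμ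
    have h3 : thx n c (monomial ν (coeff ν p)) =
        C (C (coeff ν p) * (X none ^ ν none * ∏ i : Fin n, X (some i) ^ ν (some (Fin.castAdd c i)))) *
          monomial (Finsupp.equivFunOnFinite.symm fun j : Fin c => ν (vc n c j)) 1 := by
      have h4 : (monomial ν (coeff ν p) : MvPolynomial (Option (Fin (n + c))) ℂ) =
          algebraMap ℂ _ (coeff ν p) * ∏ b, X b ^ ν b := by
        rw [monomial_eq, Finsupp.prod_fintype _ _ fun i => pow_zero _]
        rfl
      rw [h4, map_mul, AlgHom.commutes, map_prod, Fintype.prod_option, Fin.prod_univ_add]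
      have h5 : (monomial (Finsupp.equivFunOnFinite.symm fun j : Fin c => ν (vc n c j)) 1 :
          MvPolynomial (Fin c) (MvPolynomial (Option (Fin n)) ℂ)) = ∏ j, X j ^ ν (vc n c j) := by
        rw [monomial_eq, Finsupp.prod_fintype _ _ fun i => pow_zero _, C_1, one_mul]
        rfl
      rw [h5, map_mul, map_mul, map_pow, map_prod]
      have h6 : thx n c (X none) ^ ν none = C (X none ^ ν none) := by
        rw [map_pow]
        exact congrArg (· ^ ν none) (thx_vb (n := n) (c := c) none)
      have h7 : ∏ x : Fin n, thx n c (X (some (Fin.castAdd c x)) ^ ν (some (Fin.castAdd c x))) =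
          ∏ x : Fin n, C (X (some x) ^ ν (some (Fin.castAdd c x))) := by
        refine Finset.prod_congr rfl fun i _ => ?_
        rw [map_pow, map_pow]
        exact congrArg (· ^ ν (some (Fin.castAdd c i))) (thx_vb (n := n) (c := c) (some i))
      have h8 : ∏ x : Fin c, thx n c (X (some (Fin.natAdd n x)) ^ ν (some (Fin.natAdd n x))) =
          ∏ x : Fin c, X x ^ ν (vc n c x) := by
        refine Finset.prod_congr rfl fun i _ => ?_
        rw [map_pow]
        exact congrArg (· ^ ν (some (Fin.natAdd n i))) (thx_vc (n := n) (c := c) i)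
      rw [h6, h7, h8]
      have h9 : algebraMap ℂ (MvPolynomial (Fin c) (MvPolynomial (Option (Fin n)) ℂ)) (coeff ν p) =
        C (C (coeff ν p)) := rfl
      rw [h9]
      ring
    rw [h3, coeff_C_mul, coeff_monomial] at hμν
    have h10 : (Finsupp.equivFunOnFinite.symm fun j : Fin c => ν (vc n c j)) = μ := by
      by_contra hne
      rw [if_neg hne, mul_zero] at hμν
      exact hμν rfl
    rw [← h10]
    exact hp ν (mem_support_iff.1 hν) j

/-- PROOF.  `Ideal.Quotient.eq_zero_iff_mem`. -/
theorem mkE_eq_zero (f : MvPolynomial (Fin c) (LF n)) : mkE n c d α f = 0 ↔ f ∈ rel n c d α := by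
  exact b1_mk f

/-- PROOF.  `rfl`. -/
theorem algebraMap_EE (a : ℂ) : algebraMap ℂ (EE n c d α) a = mkE n c d α (algebraMap ℂ _ a) := by
  rfl

theorem xi_vb (b : Option (Fin n)) : xi n c d α (vb n c b) =
    mkE n c d α (C (algebraMap (MvPolynomial (Option (Fin n)) ℂ) (LF n) (X b))) := by
  have h1 := aeval_xi (d := d) (α := α) (X (vb n c b))
  rw [aeval_X, thx_vb, map_C] at h1
  exact h1

theorem xi_vc (j : Fin c) : xi n c d α (vc n c j) = mkE n c d α (X j) := by
  have h1 := aeval_xi (d := d) (α := α) (X (vc n c j))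
  rw [aeval_X, thx_vc, map_X] at h1
  exact h1

/-- PROOF.  `xi_vb`, `xi_vc`: the left side is the class of `X j ^ d j + C (algebraMap (gj j))`, in the ideal `rel` (`Ideal.subset_span`). -/
theorem xi_rel (j : Fin c) : xi n c d α (vc n c j) ^ d j +
    ∑ b, algebraMap ℂ (EE n c d α) (α j b) * xi n c d α (vb n c b) ^ d j = 0 := by
  have h1 : aeval (xi n c d α) (Fx n c d α j) = 0 := by
    rw [aeval_xi, thx_Fx, b1_mk, map_add, map_pow, map_X, map_C]
    exact Ideal.subset_span ⟨j, rfl⟩
  unfold Fx at h1
  rw [map_add, map_pow, aeval_X, map_sum] at h1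
  rw [← h1]
  congr 1
  refine Finset.sum_congr rfl fun b _ => ?_
  rw [map_mul, map_pow, aeval_X, aeval_C]

/-- PROOF.  `xi_vb`, the variable is not `0` in the field `LF n`; `IsUnit.map`. -/
theorem xi_vb_unit (b : Option (Fin n)) : IsUnit (xi n c d α (vb n c b)) := by
  rw [xi_vb]
  have h1 : algebraMap (MvPolynomial (Option (Fin n)) ℂ) (LF n) (X b) ≠ 0 := by
    intro h
    have h2 := (IsFractionRing.injective (MvPolynomial (Option (Fin n)) ℂ) (LF n))
      (h.trans (map_zero _).symm)
    exact X_ne_zero b h2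
  have h3 : IsUnit (algebraMap (MvPolynomial (Option (Fin n)) ℂ) (LF n) (X b)) :=
    isUnit_iff_ne_zero.2 h1
  exact (h3.map (C : LF n →+* MvPolynomial (Fin c) (LF n))).map (mkE n c d α)

/-- PROOF.  `gj j ≠ 0`: its coefficient at `single none (d j)` is `α j none ≠ 0`.  `xinv j * xi (vc j) = mk (X j ^ (d j) * C (- g_j)⁻¹)`, and
`X j ^ (d j) ≡ - C g_j` modulo `rel`. -/
theorem xinv_mul (hd : ∀ j, 1 ≤ d j) (hα : ∀ j b, α j b ≠ 0) (j : Fin c) :
    xinv n c d α j * xi n c d α (vc n c j) = 1 := by
  have hg : gj n c d α j ≠ 0 := by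
    intro h
    have h1 : eval (fun b : Option (Fin n) => if b = none then (1 : ℂ) else 0) (gj n c d α j) =
        α j none := by
      unfold gj
      rw [map_sum, Fintype.sum_option, Finset.sum_eq_zero, add_zero, map_mul, eval_C, map_pow,
        eval_X, if_pos rfl, one_pow, mul_one]
      intro i _
      rw [map_mul, map_pow, eval_X, if_neg (by simp), zero_pow, mul_zero]
      have := hd j
      omega
    rw [h, map_zero] at h1
    exact hα j none h1.symm
  have hg2 : - algebraMap (MvPolynomial (Option (Fin n)) ℂ) (LF n) (gj n c d α j) ≠ 0 := by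
    rw [neg_ne_zero]
    intro h
    exact hg ((IsFractionRing.injective (MvPolynomial (Option (Fin n)) ℂ) (LF n))
      (h.trans (map_zero _).symm))
  have h2 : mkE n c d α (X j ^ d j) = mkE n c d α
      (C (- algebraMap (MvPolynomial (Option (Fin n)) ℂ) (LF n) (gj n c d α j))) := by
    rw [b1_mk_eq, C_neg, sub_neg_eq_add]
    exact Ideal.subset_span ⟨j, rfl⟩
  rw [xi_vc]
  unfold xinv
  rw [← map_mul]
  have hd1 : d j - 1 + 1 = d j := Nat.sub_add_cancel (hd j)
  have h3 : X j ^ (d j - 1) * C (- algebraMap (MvPolynomial (Option (Fin n)) ℂ) (LF n)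
      (gj n c d α j))⁻¹ * X j = X j ^ d j * C (- algebraMap (MvPolynomial (Option (Fin n)) ℂ) (LF n)
      (gj n c d α j))⁻¹ := by
    rw [← hd1, pow_succ, hd1]
    ring
  rw [h3, map_mul, h2, ← map_mul, ← C_mul, mul_inv_cancel₀ hg2, C_1, map_one]

theorem xi_vc_unit (hd : ∀ j, 1 ≤ d j) (hα : ∀ j b, α j b ≠ 0) (j : Fin c) :
    IsUnit (xi n c d α (vc n c j)) := by
  have h : ∀ {R : Type} [CommRing R] {a b : R}, a * b = 1 → IsUnit b := by
    intro R _ a b h
    exact IsUnit.of_mul_eq_one a (by rw [mul_comm]; exact h)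
  exact h (xinv_mul hd hα j)

/-- PROOF.  `Finset.prod_mul_distrib`, `mul_pow`, `xinv_mul`. -/
theorem yi_yy (hd : ∀ j, 1 ≤ d j) (hα : ∀ j b, α j b ≠ 0) : yi n c d α * yy n c d α = 1 := by
  unfold yi yy
  rw [← Finset.prod_mul_distrib]
  refine Finset.prod_eq_one fun j _ => ?_
  have h : ∀ {R : Type} [CommRing R] {a b : R} (e : ℕ), a * b = 1 → a ^ e * b ^ e = 1 := by
    intro R _ a b e h
    rw [← mul_pow, h, one_pow]
  exact h _ (xinv_mul hd hα j)

end Pool.Agent.H80W
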