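import Pool.Agent.Lib.H80W.B1

set_option autoImplicit false

/-!
CHUNK B2 (M).  H80W: `Phi` kills the special ideal; its kernel is contained in the saturation of the special ideal.  Port of Lib/H44K/G2.lean and G3.lean.
-/

open MvPolynomial

namespace Pool.Agent.H80W

open Pool.Agent.H89T Pool.Agent.H67T Pool.Agent.H53U Pool.Agent.H53V

variable {n c k : ℕ} {d : Fin c → ℕ} {α : Fin c → Option (Fin n) → ℂ}

/-- The homomorphism of the special linear model. -/
noncomputable abbrev PhS (n c k : ℕ) (d : Fin c → ℕ) (α : Fin c → Option (Fin n) → ℂ) :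
    MvPolynomial (HV (n + c) k) ℂ →ₐ[ℂ] MvPolynomial (Fin n × Fin k) (EE n c d α) :=
  Phi k (xi n c d α) (MM n c d α)

theorem b2_alg {E : Type*} [CommRing E] {x y : E} (A : E) (h : y * x = 1) (e : ℕ) :
    x ^ e * -(A * y ^ e) = -A := by
  have h1 : y ^ e * x ^ e = 1 := by rw [← mul_pow, h, one_pow]
  calc x ^ e * -(A * y ^ e) = -(A * (y ^ e * x ^ e)) := by ring
    _ = -A := by rw [h1, mul_one]

/-- PROOF.  `vimg`, `MM`, `Fin.addCases_left`, `Finset.sum_ite_eq`. -/
theorem vimg_castAdd (i : Fin n) (j : Fin k) : vimg k (MM n c d α) (Fin.castAdd c i) j = X (i, j) := by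
  unfold vimg
  have e : ∀ i' : Fin n, C (MM n c d α (Fin.castAdd c i) i') * (X (i', j) : MvPolynomial (Fin n × Fin k) (EE n c d α)) =
      if i = i' then X (i', j) else 0 := by
    intro i'
    unfold MM
    rw [Fin.addCases_left]
    by_cases h : i = i'
    · rw [if_pos h, if_pos h, C_1, one_mul]
    · rw [if_neg h, if_neg h, C_0, zero_mul]
  rw [Finset.sum_congr rfl fun i' _ => e i', Finset.sum_ite_eq Finset.univ i, if_pos (Finset.mem_univ _)]

/-- PROOF.  Algebra homomorphisms (`algHom_ext`), `Phi_x`. -/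
theorem Phi_rename (p : MvPolynomial (Option (Fin (n + c))) ℂ) :
    PhS n c k d α (rename (xv : Option (Fin (n + c)) → HV (n + c) k) p) = C (aeval (xi n c d α) p) := by
  induction p using MvPolynomial.induction_on with
  | C a =>
    rw [rename_C, Phi_C]
    exact congrArg C ((aeval (xi n c d α) : MvPolynomial (Option (Fin (n + c))) ℂ →ₐ[ℂ] EE n c d α).commutes a).symm
  | add p q hp hq => rw [map_add, map_add, hp, hq, map_add, C_add]
  | mul_X p i hp =>
    rw [map_mul, map_mul, hp, rename_X, Phi_x, map_mul, C_mul, aeval_X]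

/-- PROOF.  `Phi_rename`, `Fx`, `xi_rel`. -/
theorem Phi_F0s (j : Fin c) : PhS n c k d α (F0s n c k d α j) = 0 := by
  unfold F0s
  rw [Phi_rename]
  unfold Fx
  rw [map_add, map_pow, aeval_X, map_sum]
  have e : ∀ b : Option (Fin n), aeval (xi n c d α) (C (α j b) * X (vb n c b) ^ d j) =
      algebraMap ℂ (EE n c d α) (α j b) * xi n c d α (vb n c b) ^ d j := by
    intro b
    rw [map_mul, map_pow, aeval_X, aeval_C]
  rw [Finset.sum_congr rfl fun b _ => e b, xi_rel, C_0]

/-- PROOF.  `Phi_rename`, `Phi_v`, `Fin.sum_univ_add`: the sum over `b` is `∑ i, C (α j i * xi ^ (d j - 1)) * X (i, l) + C (xi (vc j) ^ (d j - 1)) *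
vimg (natAdd j) l`, and `xi (vc j) ^ (d j - 1) * MM (natAdd j) i = - (α j i * xi ^ (d j - 1))` by `xinv_mul`. -/
theorem Phi_U0s (hd : ∀ j, 1 ≤ d j) (hα : ∀ j b, α j b ≠ 0) (q : Fin c × Fin k) :
    PhS n c k d α (U0s n c k d α q) = 0 := by
  unfold U0s
  have e1 : ∀ b : Fin (n + c), PhS n c k d α (rename xv (Jx n c d α q.1 b) * X (some (b, q.2.succ))) =
      C (aeval (xi n c d α) (Jx n c d α q.1 b)) * vimg k (MM n c d α) b q.2 := by
    intro b
    rw [map_mul, Phi_rename, Phi_v]
  have e2 : ∀ i : Fin n, C (aeval (xi n c d α) (Jx n c d α q.1 (Fin.castAdd c i))) *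
      vimg k (MM n c d α) (Fin.castAdd c i) q.2 =
      C (algebraMap ℂ (EE n c d α) (α q.1 (some i)) * xi n c d α (vb n c (some i)) ^ (d q.1 - 1)) * X (i, q.2) := by
    intro i
    rw [vimg_castAdd]
    unfold Jx
    rw [Fin.addCases_left, map_mul, map_pow, aeval_X, aeval_C]
  have e3 : ∀ j : Fin c, C (aeval (xi n c d α) (Jx n c d α q.1 (Fin.natAdd n j))) *
      vimg k (MM n c d α) (Fin.natAdd n j) q.2 =
      if j = q.1 then C (xi n c d α (vc n c q.1) ^ (d q.1 - 1)) * vimg k (MM n c d α) (Fin.natAdd n q.1) q.2 else 0 := by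
    intro j
    unfold Jx
    rw [Fin.addCases_right]
    by_cases h : j = q.1
    · rw [if_pos h, if_pos h, map_pow, aeval_X, h]
    · rw [if_neg h, if_neg h, map_zero, C_0, zero_mul]
  have e4 : C (xi n c d α (vc n c q.1) ^ (d q.1 - 1)) * vimg k (MM n c d α) (Fin.natAdd n q.1) q.2 =
      ∑ i : Fin n, C (-(algebraMap ℂ (EE n c d α) (α q.1 (some i)) * xi n c d α (vb n c (some i)) ^ (d q.1 - 1))) *
        (X (i, q.2) : MvPolynomial (Fin n × Fin k) (EE n c d α)) := by
    unfold vimg
    rw [Finset.mul_sum]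
    refine Finset.sum_congr rfl fun i _ => ?_
    unfold MM
    rw [Fin.addCases_right, ← mul_assoc, ← C_mul]
    have h2 : xi n c d α (vc n c q.1) ^ (d q.1 - 1) * -(algebraMap ℂ (EE n c d α) (α q.1 (some i)) *
        xi n c d α (vb n c (some i)) ^ (d q.1 - 1) * xinv n c d α q.1 ^ (d q.1 - 1)) =
        -(algebraMap ℂ (EE n c d α) (α q.1 (some i)) * xi n c d α (vb n c (some i)) ^ (d q.1 - 1)) :=
      b2_alg (E := EE n c d α) (x := xi n c d α (vc n c q.1)) (y := xinv n c d α q.1)
        (algebraMap ℂ (EE n c d α) (α q.1 (some i)) * xi n c d α (vb n c (some i)) ^ (d q.1 - 1))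
        (xinv_mul hd hα q.1) (d q.1 - 1)
    rw [h2]
  rw [map_mul, map_sum, Finset.sum_congr rfl fun b _ => e1 b, Fin.sum_univ_add,
    Finset.sum_congr rfl fun i _ => e2 i, Finset.sum_congr rfl fun j _ => e3 j,
    Finset.sum_ite_eq' Finset.univ q.1, if_pos (Finset.mem_univ _), e4, ← Finset.sum_add_distrib,
    Finset.sum_eq_zero, mul_zero]
  intro i _
  rw [← add_mul, ← C_add, add_neg_cancel, C_0, zero_mul]

theorem Isp_le (k : ℕ) (hd : ∀ j, 1 ≤ d j) (hα : ∀ j b, α j b ≠ 0) :
    Isp n c k d α ≤ Ik k (xi n c d α) (MM n c d α) := by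
  unfold Isp
  rw [Ideal.span_le]
  rintro _ (⟨j, rfl⟩ | ⟨q, _, rfl⟩)
  · exact Phi_F0s j
  · exact Phi_U0s hd hα q

/-- The inclusion of the polynomials in the `x_b` and the `v (b, j)`, `b < n`. -/
noncomputable def io (n c k : ℕ) :
    MvPolynomial (Fin n × Fin k) (MvPolynomial (Option (Fin (n + c))) ℂ) →+*
      MvPolynomial (HV (n + c) k) ℂ :=
  eval₂Hom (rename (xv : Option (Fin (n + c)) → HV (n + c) k) :
    MvPolynomial (Option (Fin (n + c))) ℂ →ₐ[ℂ] MvPolynomial (HV (n + c) k) ℂ).toRingHom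
    fun p => X (some (Fin.castAdd c p.1, p.2.succ))

/-- `∏ x_(n + j)`. -/
noncomputable def Px (n c k : ℕ) : MvPolynomial (HV (n + c) k) ℂ := ∏ j : Fin c, X (xv (vc n c j))

theorem b2_io_C (p : MvPolynomial (Option (Fin (n + c))) ℂ) :
    io n c k (C p) = rename (xv : Option (Fin (n + c)) → HV (n + c) k) p := by
  unfold io
  rw [coe_eval₂Hom, eval₂_C]
  rfl

theorem b2_io_X (p : Fin n × Fin k) : io n c k (X p) = X (some (Fin.castAdd c p.1, p.2.succ)) := by
  unfold io
  rw [coe_eval₂Hom, eval₂_X]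

theorem b2_io_CX (b : Option (Fin (n + c))) : io n c k (C (X b)) = X (xv b) := by
  rw [b2_io_C, rename_X]

/-- `∏ x_(n + j)` in the source of `io`. -/
noncomputable def b2_P (n c k : ℕ) : MvPolynomial (Fin n × Fin k) (MvPolynomial (Option (Fin (n + c))) ℂ) :=
  ∏ j : Fin c, C (X (vc n c j))

theorem b2_io_P : io n c k (b2_P n c k) = Px n c k := by
  unfold b2_P Px
  rw [map_prod]
  exact Finset.prod_congr rfl fun j _ => b2_io_CX _

/-- the variables -/
theorem b2_var (hd : ∀ j, 1 ≤ d j) (p : HV (n + c) k) :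
    ∃ (e : ℕ) (h : MvPolynomial (Fin n × Fin k) (MvPolynomial (Option (Fin (n + c))) ℂ)),
      Px n c k ^ e * X p - io n c k h ∈ Isp n c k d α := by
  classical
  rcases p with _ | ⟨b, l⟩
  · refine ⟨0, C (X none), ?_⟩
    rw [b2_io_CX, pow_zero, one_mul]
    have e1 : (X (xv none) : MvPolynomial (HV (n + c) k) ℂ) = X none := rfl
    rw [e1, sub_self]
    exact (Isp n c k d α).zero_mem
  · induction l using Fin.cases with
    | zero =>
      refine ⟨0, C (X (some b)), ?_⟩
      rw [b2_io_CX, pow_zero, one_mul]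
      have e1 : (X (xv (some b)) : MvPolynomial (HV (n + c) k) ℂ) = X (some (b, 0)) := rfl
      rw [e1, sub_self]
      exact (Isp n c k d α).zero_mem
    | succ l =>
      induction b using Fin.addCases with
      | left i =>
        refine ⟨0, X (i, l), ?_⟩
        rw [b2_io_X, pow_zero, one_mul, sub_self]
        exact (Isp n c k d α).zero_mem
      | right j =>
        let Q : MvPolynomial (Fin n × Fin k) (MvPolynomial (Option (Fin (n + c))) ℂ) :=
          ∏ j' ∈ Finset.univ.erase j, C (X (vc n c j'))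
        let R : MvPolynomial (Fin n × Fin k) (MvPolynomial (Option (Fin (n + c))) ℂ) :=
          - ∑ i : Fin n, C (C (α j (some i)) * X (vb n c (some i)) ^ (d j - 1)) * X (i, l)
        refine ⟨d j - 1, Q ^ (d j - 1) * R, ?_⟩
        have hQ : Px n c k = X (xv (vc n c j)) * io n c k Q := by
          have e1 : io n c k Q = ∏ j' ∈ Finset.univ.erase j, X (xv (vc n c j')) := by
            rw [map_prod]
            exact Finset.prod_congr rfl fun j' _ => b2_io_CX _
          rw [e1]
          exact (Finset.mul_prod_erase Finset.univ (fun j' => (X (xv (vc n c j')) : MvPolynomial (HV (n + c) k) ℂ))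
            (Finset.mem_univ j)).symm
        have hd0 : (d j : ℂ) ≠ 0 := by
          have := hd j
          exact_mod_cast (show d j ≠ 0 by omega)
        have e1 : ∀ i : Fin n, io n c k (C (C (α j (some i)) * X (vb n c (some i)) ^ (d j - 1)) * X (i, l)) =
            rename xv (Jx n c d α j (Fin.castAdd c i)) * X (some (Fin.castAdd c i, l.succ)) := by
          intro i
          rw [map_mul, b2_io_C, b2_io_X]
          unfold Jx
          rw [Fin.addCases_left]
        have e2 : ∀ j' : Fin c, rename xv (Jx n c d α j (Fin.natAdd n j')) *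
            (X (some (Fin.natAdd n j', l.succ)) : MvPolynomial (HV (n + c) k) ℂ) =
            if j' = j then X (xv (vc n c j)) ^ (d j - 1) * X (some (Fin.natAdd n j, l.succ)) else 0 := by
          intro j'
          unfold Jx
          rw [Fin.addCases_right]
          by_cases h : j' = j
          · rw [if_pos h, if_pos h, map_pow, rename_X, h]
          · rw [if_neg h, if_neg h, map_zero, zero_mul]
        have e3 : X (xv (vc n c j)) ^ (d j - 1) * X (some (Fin.natAdd n j, l.succ)) - io n c k R =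
            C ((d j : ℂ)⁻¹) * U0s n c k d α (j, l) := by
          have e4 : io n c k R = - ∑ i : Fin n, rename xv (Jx n c d α j (Fin.castAdd c i)) *
              X (some (Fin.castAdd c i, l.succ)) := by
            rw [map_neg, map_sum, Finset.sum_congr rfl fun i _ => e1 i]
          rw [e4, sub_neg_eq_add]
          unfold U0s
          rw [← mul_assoc, ← C_mul, inv_mul_cancel₀ hd0, C_1, one_mul, Fin.sum_univ_add,
            Finset.sum_congr rfl fun j' _ => e2 j', Finset.sum_ite_eq' Finset.univ j, if_pos (Finset.mem_univ _)]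
          exact add_comm _ _
        have e5 : Px n c k ^ (d j - 1) * X (some (Fin.natAdd n j, l.succ)) - io n c k (Q ^ (d j - 1) * R) =
            io n c k Q ^ (d j - 1) * (C ((d j : ℂ)⁻¹) * U0s n c k d α (j, l)) := by
          rw [← e3, hQ, map_mul, map_pow, mul_pow]
          ring
        rw [e5]
        refine Ideal.mul_mem_left _ _ (Ideal.mul_mem_left _ _ (Ideal.subset_span (Or.inr ⟨(j, l), ?_, rfl⟩)))
        exact Finset.mem_univ j

/-- PROOF.  As `Phi_io` of H44K: `Phi_rename`, `Phi_v`, `vimg_castAdd`. -/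
theorem Phi_io (h : MvPolynomial (Fin n × Fin k) (MvPolynomial (Option (Fin (n + c))) ℂ)) :
    PhS n c k d α (io n c k h) = map (aeval (xi n c d α) :
      MvPolynomial (Option (Fin (n + c))) ℂ →ₐ[ℂ] EE n c d α).toRingHom h := by
  induction h using MvPolynomial.induction_on with
  | C p =>
    rw [b2_io_C, map_C, Phi_rename]
    rfl
  | add p q hp hq => rw [map_add, map_add, hp, hq, map_add]
  | mul_X p i hp => rw [map_mul, map_mul, hp, b2_io_X, Phi_v, vimg_castAdd, map_mul, map_X]

/-- Elimination of the `v (n + j, l)`.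
PROOF.  As `elimN` of H44K (G3.lean).  The variable `v (n + j, l)`: `e = d j - 1`:
`Px ^ (d j - 1) * v = (∏ j' ≠ j, x_(n + j')) ^ (d j - 1) * (x_(n + j) ^ (d j - 1) * v)` and `x_(n + j) ^ (d j - 1) * v (n + j, l) =
C (d j)⁻¹ * U0s (j, l) - ∑ i, C (α j i) x_i ^ (d j - 1) v (i, l)` (`Fin.sum_univ_add`, `Jx`, `Finset.sum_ite_eq`). -/
theorem elimN (hd : ∀ j, 1 ≤ d j) (f : MvPolynomial (HV (n + c) k) ℂ) :
    ∃ (e : ℕ) (h : MvPolynomial (Fin n × Fin k) (MvPolynomial (Option (Fin (n + c))) ℂ)),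
      Px n c k ^ e * f - io n c k h ∈ Isp n c k d α := by
  classical
  induction f using MvPolynomial.induction_on with
  | C a =>
    refine ⟨0, C (C a), ?_⟩
    rw [b2_io_C, rename_C, pow_zero, one_mul, sub_self]
    exact (Isp n c k d α).zero_mem
  | add f g hf hg =>
    obtain ⟨e1, h1, H1⟩ := hf
    obtain ⟨e2, h2, H2⟩ := hg
    refine ⟨e1 + e2, b2_P n c k ^ e2 * h1 + b2_P n c k ^ e1 * h2, ?_⟩
    rw [map_add, map_mul, map_mul, map_pow, map_pow, b2_io_P]
    have e3 : Px n c k ^ (e1 + e2) * (f + g) -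
        (Px n c k ^ e2 * io n c k h1 + Px n c k ^ e1 * io n c k h2) =
        Px n c k ^ e2 * (Px n c k ^ e1 * f - io n c k h1) +
        Px n c k ^ e1 * (Px n c k ^ e2 * g - io n c k h2) := by
      rw [pow_add]
      ring
    rw [e3]
    exact (Isp n c k d α).add_mem ((Isp n c k d α).mul_mem_left _ H1) ((Isp n c k d α).mul_mem_left _ H2)
  | mul_X f p hf =>
    obtain ⟨e1, h1, H1⟩ := hf
    obtain ⟨e2, h2, H2⟩ := b2_var (α := α) hd p
    refine ⟨e1 + e2, h1 * h2, ?_⟩
    rw [map_mul]
    have e3 : Px n c k ^ (e1 + e2) * (f * X p) - io n c k h1 * io n c k h2 =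
        (Px n c k ^ e2 * X p) * (Px n c k ^ e1 * f - io n c k h1) +
        io n c k h1 * (Px n c k ^ e2 * X p - io n c k h2) := by
      rw [pow_add]
      ring
    rw [e3]
    exact (Isp n c k d α).add_mem ((Isp n c k d α).mul_mem_left _ H1) ((Isp n c k d α).mul_mem_left _ H2)

/-- PROOF.  As `Ik_sat` of H44K (G3.lean), with `ee_ker`. -/
theorem Ik_sat (hd : ∀ j, 1 ≤ d j) (hα : ∀ j b, α j b ≠ 0) {f : MvPolynomial (HV (n + c) k) ℂ}
    (hf : f ∈ Ik k (xi n c d α) (MM n c d α)) : ∃ e : ℕ, Px n c k ^ e * f ∈ Isp n c k d α := by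
  obtain ⟨e, h, he⟩ := elimN (α := α) hd f
  have h1 : PhS n c k d α (io n c k h) = 0 := by
    have h2 : PhS n c k d α (Px n c k ^ e * f - io n c k h) = 0 := Isp_le k hd hα he
    have h3 : PhS n c k d α f = 0 := hf
    rw [map_sub, map_mul, h3, mul_zero] at h2
    exact (sub_eq_zero.1 h2).symm
  rw [Phi_io] at h1
  have h2 : ∀ μ, coeff μ h ∈ Ideal.span (Set.range (Fx n c d α)) := fun μ => by
    apply ee_ker hd
    have h3 := congrArg (coeff μ) h1
    rw [coeff_map, coeff_zero] at h3
    exact h3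
  have h4 : Ideal.span (Set.range (Fx n c d α)) ≤
      (Isp n c k d α).comap (rename (xv : Option (Fin (n + c)) → HV (n + c) k) :
        MvPolynomial (Option (Fin (n + c))) ℂ →ₐ[ℂ] MvPolynomial (HV (n + c) k) ℂ) := by
    rw [Ideal.span_le]
    rintro _ ⟨j, rfl⟩
    exact Ideal.subset_span (Or.inl ⟨j, rfl⟩)
  have h3 : io n c k h ∈ Isp n c k d α := by
    rw [h.as_sum, map_sum]
    refine Ideal.sum_mem _ fun μ _ => ?_
    have h5 : (monomial μ (coeff μ h) : MvPolynomial (Fin n × Fin k)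
        (MvPolynomial (Option (Fin (n + c))) ℂ)) = C (coeff μ h) * monomial μ 1 := by
      rw [C_mul_monomial, mul_one]
    rw [h5, map_mul, b2_io_C]
    exact Ideal.mul_mem_right _ _ (h4 (h2 μ))
  refine ⟨e, ?_⟩
  have h6 := (Isp n c k d α).add_mem he h3
  rw [sub_add_cancel] at h6
  exact h6

end Pool.Agent.H80W
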