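import Pool.Agent.Lib.H80W.A2

set_option autoImplicit false

/-!
H80W, C1: linear models.  The minors of the jets and the operators `P (∂)` under `Phi`.
-/

open MvPolynomial

namespace Pool.Agent.H80W

open Pool.Agent.H89T Pool.Agent.H67T Pool.Agent.H53U Pool.Agent.H53V

open Pool.Agent.H44K (mdet dop Gt Ch wch E1 E2 dop_wt dop_small dop_mul dop_one dop_X dop_C dop_add
  dop_sum g13_dop_C_mul)

variable {E : Type} [CommRing E] [Algebra ℂ E] {N n : ℕ} {k : ℕ} {xi : Option (Fin N) → E}
  {M : Fin N → Fin n → E}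

/-- The determinant of the jets in the rows `β` and the columns `J`. -/
noncomputable def mb {N n k : ℕ} (β : Fin n → Fin N) (J : Fin n → Fin k) :
    MvPolynomial (HV N k) ℂ :=
  (Matrix.of fun a i : Fin n => (X (some (β a, (J i).succ)) : MvPolynomial (HV N k) ℂ)).det

theorem mb_bi (β : Fin n → Fin N) (J : Fin n → Fin k) : BiH 0 (wch J) (mb β J) := by
  unfold mb
  rw [Matrix.det_apply']
  have hs : ∑ i : Fin n, ((0, ((J i : ℕ) + 1)) : ℕ × ℕ) = (0, wch J) := by
    refine Prod.ext ?_ ?_
    · rw [Prod.fst_sum]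
      exact Finset.sum_const_zero
    · rw [Prod.snd_sum]
      rfl
  refine Submodule.sum_mem (weightedHomogeneousSubmodule ℂ (hw : HV N k → ℕ × ℕ) (0, wch J)) fun σ _ => ?_
  have h1 : IsWeightedHomogeneous (hw : HV N k → ℕ × ℕ)
      (∏ i : Fin n, (Matrix.of fun a i : Fin n => (X (some (β a, (J i).succ)) : MvPolynomial (HV N k) ℂ)) (σ i) i)
      (0, wch J) := by
    rw [← hs]
    refine IsWeightedHomogeneous.prod _ _ _ fun i _ => ?_
    have h := isWeightedHomogeneous_X ℂ (hw : HV N k → ℕ × ℕ) (some (β (σ i), (J i).succ))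
    rw [hw_succ'] at h
    exact h
  have h2 : (((Equiv.Perm.sign σ : ℤ)) : MvPolynomial (HV N k) ℂ) = C (((Equiv.Perm.sign σ : ℤ)) : ℂ) := by
    rw [map_intCast]
  rw [h2]
  have h3 := IsWeightedHomogeneous.mul (isWeightedHomogeneous_C (hw : HV N k → ℕ × ℕ) (((Equiv.Perm.sign σ : ℤ)) : ℂ)) h1
  rw [zero_add] at h3
  exact h3

/-- PROOF.  The matrix `vimg (β a) (J i)` is the product of the matrices `C (M (β a) b)` and `X (b, J i)`. -/
theorem Phi_mb (β : Fin n → Fin N) (J : Fin n → Fin k) : Phi k xi M (mb β J) =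
    C ((Matrix.of fun a b : Fin n => M (β a) b).det) * mdet J := by
  unfold mb
  rw [AlgHom.map_det]
  have h1 : (Phi k xi M).mapMatrix (Matrix.of fun a i : Fin n =>
      (X (some (β a, (J i).succ)) : MvPolynomial (HV N k) ℂ)) =
      ((Matrix.of fun a b : Fin n => M (β a) b).map (C : E → MvPolynomial (Fin n × Fin k) E)) *
        (Matrix.of fun b i : Fin n => (X (b, J i) : MvPolynomial (Fin n × Fin k) E)) := by
    refine Matrix.ext fun a i => ?_
    rw [AlgHom.mapMatrix_apply, Matrix.map_apply, Matrix.of_apply, Phi_v, Matrix.mul_apply]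
    rfl
  rw [h1, Matrix.det_mul]
  congr 1
  have h2 := RingHom.map_det (C : E →+* MvPolynomial (Fin n × Fin k) E) (Matrix.of fun a b : Fin n => M (β a) b)
  rw [h2]
  rfl

/-! ### Operators with coefficients in `E` -/

/-- The exponent of the jets. -/
noncomputable def ren (N k : ℕ) (μ : Fin N × Fin k →₀ ℕ) : HV N k →₀ ℕ :=
  μ.mapDomain fun p => some (p.1, p.2.succ)

variable (xi M) in
/-- For a symbol `Q` with coefficients in `E`: the operator `f ↦ Q (∂) f` followed by `Phi`. -/
noncomputable def Oq (Q : MvPolynomial (Fin N × Fin k) E)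
    (f : MvPolynomial (HV N k) ℂ) : MvPolynomial (Fin n × Fin k) E :=
  ∑ μ ∈ Q.support, C (coeff μ Q) * Phi k xi M (dop (monomial (ren N k μ) 1) f)

theorem Oq_ext {Q : MvPolynomial (Fin N × Fin k) E}
    {S : Finset (Fin N × Fin k →₀ ℕ)} (h : Q.support ⊆ S) (f : MvPolynomial (HV N k) ℂ) :
    Oq xi M Q f = ∑ μ ∈ S, C (coeff μ Q) * Phi k xi M (dop (monomial (ren N k μ) 1) f) := by
  unfold Oq
  refine Finset.sum_subset h fun μ _ hμ => ?_
  rw [notMem_support_iff] at hμ
  rw [hμ, map_zero, zero_mul]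

theorem Oq_add (Q Q' : MvPolynomial (Fin N × Fin k) E)
    (f : MvPolynomial (HV N k) ℂ) : Oq xi M (Q + Q') f = Oq xi M Q f + Oq xi M Q' f := by
  classical
  rw [Oq_ext (Finset.subset_union_left : Q.support ⊆ Q.support ∪ Q'.support) f,
    Oq_ext (Finset.subset_union_right : Q'.support ⊆ Q.support ∪ Q'.support) f,
    Oq_ext (support_add : (Q + Q').support ⊆ Q.support ∪ Q'.support) f, ← Finset.sum_add_distrib]
  refine Finset.sum_congr rfl fun μ _ => ?_
  rw [coeff_add, map_add, add_mul]

theorem Oq_monomial (μ : Fin N × Fin k →₀ ℕ) (a : E)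
    (f : MvPolynomial (HV N k) ℂ) :
    Oq xi M (monomial μ a) f = C a * Phi k xi M (dop (monomial (ren N k μ) 1) f) := by
  classical
  rw [Oq_ext (support_monomial_subset : (monomial μ a).support ⊆ {μ}) f, Finset.sum_singleton,
    coeff_monomial, if_pos rfl]

theorem Oq_mul_X (Q : MvPolynomial (Fin N × Fin k) E) (p : Fin N × Fin k)
    (f : MvPolynomial (HV N k) ℂ) :
    Oq xi M (Q * X p) f = Oq xi M Q (pderiv (some (p.1, p.2.succ)) f) := by
  induction Q using MvPolynomial.induction_on' with
  | monomial μ a =>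
    have h1 : monomial μ a * X p = monomial (μ + Finsupp.single p 1) a := by
      rw [monomial_add_single, pow_one]
    have h2 : ren N k (μ + Finsupp.single p 1) = ren N k μ + Finsupp.single (some (p.1, p.2.succ)) 1 := by
      unfold ren
      rw [Finsupp.mapDomain_add, Finsupp.mapDomain_single]
    have h3 : (monomial (ren N k μ + Finsupp.single (some (p.1, p.2.succ)) 1) 1 :
        MvPolynomial (HV N k) ℂ) = monomial (ren N k μ) 1 * X (some (p.1, p.2.succ)) := by
      rw [monomial_add_single, pow_one]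
    rw [h1, Oq_monomial, Oq_monomial, h2, h3, dop_mul, dop_X]
  | add P Q hP hQ => rw [add_mul, Oq_add, Oq_add, hP, hQ]

theorem Oq_C_mul (c : E) (Q : MvPolynomial (Fin N × Fin k) E)
    (f : MvPolynomial (HV N k) ℂ) : Oq xi M (C c * Q) f = C c * Oq xi M Q f := by
  induction Q using MvPolynomial.induction_on' with
  | monomial μ a => rw [C_mul_monomial, Oq_monomial, Oq_monomial, map_mul, mul_assoc]
  | add P Q hP hQ => rw [mul_add, Oq_add, Oq_add, hP, hQ, mul_add]

theorem Oq_C (a : E) (f : MvPolynomial (HV N k) ℂ) :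
    Oq xi M (C a) f = C a * Phi k xi M f := by
  have h1 : ren N k 0 = 0 := Finsupp.mapDomain_zero
  have h2 : (C a : MvPolynomial (Fin N × Fin k) E) = monomial 0 a := rfl
  have h3 : (monomial 0 1 : MvPolynomial (HV N k) ℂ) = 1 := rfl
  rw [h2, Oq_monomial, h1, h3, dop_one]

theorem Oq_sum {ι : Type*} (s : Finset ι) (Q : ι → MvPolynomial (Fin N × Fin k) E)
    (f : MvPolynomial (HV N k) ℂ) :
    Oq xi M (∑ i ∈ s, Q i) f = ∑ i ∈ s, Oq xi M (Q i) f := by
  classical
  have h0 : Oq xi M (0 : MvPolynomial (Fin N × Fin k) E) f = 0 := by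
    unfold Oq
    rw [support_zero, Finset.sum_empty]
  induction s using Finset.induction_on with
  | empty => rw [Finset.sum_empty, Finset.sum_empty, h0]
  | insert a s ha ih => rw [Finset.sum_insert ha, Finset.sum_insert ha, Oq_add, ih]

/-- The chain rule for all operators. -/
theorem dop_Phi (P : MvPolynomial (Fin n × Fin k) E) (f : MvPolynomial (HV N k) ℂ) :
    dop P (Phi k xi M f) = Oq xi M (aeval (fun p : Fin n × Fin k =>
      (∑ b, C (M b p.1) * X (b, p.2) : MvPolynomial (Fin N × Fin k) E)) P) f := by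
  induction P using MvPolynomial.induction_on generalizing f with
  | C a => rw [dop_C, aeval_C, algebraMap_eq, Oq_C]
  | add P Q hP hQ => rw [dop_add, map_add, Oq_add, hP, hQ]
  | mul_X P p hP =>
    rw [dop_mul, dop_X, pderiv_Phi, map_sum, map_mul, aeval_X, Finset.mul_sum, Oq_sum]
    refine Finset.sum_congr rfl fun b _ => ?_
    rw [g13_dop_C_mul, hP, mul_left_comm, Oq_C_mul, Oq_mul_X]

theorem Oq_map (R : MvPolynomial (Fin N × Fin k) ℂ) (f : MvPolynomial (HV N k) ℂ) :
    Oq xi M (map (algebraMap ℂ E) R) f =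
      Phi k xi M (dop (rename (fun p : Fin N × Fin k => (some (p.1, p.2.succ) : HV N k)) R) f) := by
  induction R using MvPolynomial.induction_on' with
  | monomial μ a =>
    have h1 : (monomial (ren N k μ) a : MvPolynomial (HV N k) ℂ) =
        C a * monomial (ren N k μ) 1 := by
      rw [C_mul_monomial, mul_one]
    rw [map_monomial, Oq_monomial, rename_monomial]
    change _ = Phi k xi M (dop (monomial (ren N k μ) a) f)
    rw [h1, dop_mul, dop_C, map_mul, Phi_C]
  | add P Q hP hQ => rw [map_add, Oq_add, hP, hQ, map_add, dop_add, map_add]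

theorem Oq_mb (β : Fin n → Fin N) (J : Fin n → Fin k) (f : MvPolynomial (HV N k) ℂ) :
    Oq xi M (Matrix.of fun a i : Fin n => (X (β a, J i) :
      MvPolynomial (Fin N × Fin k) E)).det f = Phi k xi M (dop (mb β J) f) := by
  have h1 : (Matrix.of fun a i : Fin n => (X (β a, J i) :
      MvPolynomial (Fin N × Fin k) E)).det = map (algebraMap ℂ E)
      (Matrix.of fun a i : Fin n => (X (β a, J i) :
        MvPolynomial (Fin N × Fin k) ℂ)).det := by
    rw [RingHom.map_det]
    congr 1
    ext a i : 2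
    simp
  have h2 : mb β J = rename (fun p : Fin N × Fin k => (some (p.1, p.2.succ) : HV N k))
      (Matrix.of fun a i : Fin n => (X (β a, J i) :
        MvPolynomial (Fin N × Fin k) ℂ)).det := by
    unfold mb
    rw [AlgHom.map_det]
    congr 1
    ext a i : 2
    simp
  rw [h1, h2, Oq_map]

/-- Expansion of a determinant of sums, by rows. -/
theorem det_rows_sum {R : Type*} [CommRing R] {n : ℕ} {ι : Type*} [Fintype ι] [DecidableEq ι]
    (c : ι → Fin n → R) (V : ι → Fin n → R) :
    (Matrix.of fun a i : Fin n => ∑ b, c b a * V b i).det =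
      ∑ β : Fin n → ι, (∏ a, c (β a) a) * (Matrix.of fun a i : Fin n => V (β a) i).det := by
  have h1 : (Matrix.of fun a i : Fin n => ∑ b, c b a * V b i) =
      fun a => ∑ b, c b a • V b := by
    funext a i
    rw [Matrix.of_apply, Finset.sum_apply]
    rfl
  have h2 := (Matrix.detRowAlternating (R := R) (n := Fin n)).toMultilinearMap.map_sum
    (fun (a : Fin n) (b : ι) => c b a • V b)
  rw [h1]
  refine h2.trans (Finset.sum_congr rfl fun β _ => ?_)
  have h3 := (Matrix.detRowAlternating (R := R) (n := Fin n)).toMultilinearMap.map_smul_univ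
    (fun a => c (β a) a) (fun a => V (β a))
  exact h3

/-- The operator of a minor. -/
theorem dop_mdet_Phi (J : Fin n → Fin k) (f : MvPolynomial (HV N k) ℂ) :
    dop (mdet J) (Phi k xi M f) =
      ∑ β : Fin n → Fin N, C (∏ a, M (β a) a) * Phi k xi M (dop (mb β J) f) := by
  have h1 : aeval (fun p : Fin n × Fin k =>
      (∑ b, C (M b p.1) * X (b, p.2) : MvPolynomial (Fin N × Fin k) E))
        (mdet J : MvPolynomial (Fin n × Fin k) E) =
      ∑ β : Fin n → Fin N, (∏ a, C (M (β a) a)) *
        (Matrix.of fun a i : Fin n => (X (β a, J i) : MvPolynomial (Fin N × Fin k) E)).det := by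
    unfold mdet
    rw [AlgHom.map_det]
    refine Eq.trans ?_ (det_rows_sum (fun (b : Fin N) (a : Fin n) =>
      (C (M b a) : MvPolynomial (Fin N × Fin k) E)) fun b i => X (b, J i))
    congr 1
    ext a i : 2
    simp
  rw [dop_Phi, h1, Oq_sum]
  refine Finset.sum_congr rfl fun β _ => ?_
  rw [← map_prod, Oq_C_mul, Oq_mb]

end Pool.Agent.H80W
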