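import Pool.Agent.Lib.H80W.C1
import Pool.Agent.Lib.H80W.B2

set_option autoImplicit false

/-!
H80W, C2: the polynomials `wx`; the left and the right factor for the special complete intersection.
-/

open MvPolynomial

namespace Pool.Agent.H80W

open Pool.Agent.H89T Pool.Agent.H67T Pool.Agent.H53U Pool.Agent.H53V

open Pool.Agent.H44K (mdet dop Gt Ch wch E1 E2 dop_wt dop_small dop_mul dop_one dop_X dop_C dop_add
  dop_sum g13_dop_C_mul)

variable {n c k : ℕ} {d : Fin c → ℕ} {α : Fin c → Option (Fin n) → ℂ}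

/-- The degree of `Y0`. -/
def DD {c : ℕ} (d : Fin c → ℕ) : ℕ := ∑ j, (d j - 1)

theorem MM_castAdd (a i : Fin n) : MM n c d α (Fin.castAdd c a) i = if a = i then 1 else 0 := by
  unfold MM
  rw [Fin.addCases_left]

theorem MM_natAdd (j : Fin c) (i : Fin n) : MM n c d α (Fin.natAdd n j) i =
    - (algebraMap ℂ (EE n c d α) (α j (some i)) * xi n c d α (vb n c (some i)) ^ (d j - 1) *
      xinv n c d α j ^ (d j - 1)) := by
  unfold MM
  rw [Fin.addCases_right]

theorem Mx_castAdd (a i : Fin n) : Mx n c d α (Fin.castAdd c a) i = if a = i then 1 else 0 := by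
  unfold Mx
  rw [Fin.addCases_left]

theorem Mx_natAdd (j : Fin c) (i : Fin n) : Mx n c d α (Fin.natAdd n j) i =
    - (C (α j (some i)) * X (vb n c (some i)) ^ (d j - 1)) := by
  unfold Mx
  rw [Fin.addCases_right]

/-- The factor of a row. -/
noncomputable def rf (n c : ℕ) (d : Fin c → ℕ) (α : Fin c → Option (Fin n) → ℂ) (b : Fin (n + c)) : EE n c d α :=
  Fin.addCases (fun _ => 1) (fun j => xi n c d α (vc n c j) ^ (d j - 1)) b

/-- The degree of a row. -/
def rd (n : ℕ) {c : ℕ} (d : Fin c → ℕ) (b : Fin (n + c)) : ℕ :=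
  Fin.addCases (fun _ => 0) (fun j => d j - 1) b

theorem Mx_eval (hd : ∀ j, 1 ≤ d j) (hα : ∀ j b, α j b ≠ 0) (b : Fin (n + c)) (i : Fin n) :
    aeval (xi n c d α) (Mx n c d α b i) = rf n c d α b * MM n c d α b i := by
  refine Fin.addCases (fun a => ?_) (fun j => ?_) b
  · rw [Mx_castAdd, MM_castAdd]
    unfold rf
    rw [Fin.addCases_left, one_mul]
    split_ifs
    · rw [map_one]
    · rw [map_zero]
  · rw [Mx_natAdd, MM_natAdd]
    unfold rf
    rw [Fin.addCases_right, map_neg, map_mul, map_pow, aeval_X, aeval_C]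
    have h : xinv n c d α j ^ (d j - 1) * xi n c d α (vc n c j) ^ (d j - 1) = 1 := by
      rw [← mul_pow, xinv_mul hd hα, one_pow]
    linear_combination (algebraMap ℂ (EE n c d α) (α j (some i)) *
      xi n c d α (vb n c (some i)) ^ (d j - 1)) * h

theorem Mx_hom (b : Fin (n + c)) (i : Fin n) : (Mx n c d α b i).IsHomogeneous (rd n d b) := by
  refine Fin.addCases (fun a => ?_) (fun j => ?_) b
  · rw [Mx_castAdd]
    unfold rd
    rw [Fin.addCases_left]
    split_ifs
    · exact isHomogeneous_one _ _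
    · exact isHomogeneous_zero _ _ _
  · rw [Mx_natAdd]
    unfold rd
    rw [Fin.addCases_right]
    have h1 := (isHomogeneous_C (Option (Fin (n + c))) (α j (some i))).mul
      ((isHomogeneous_X ℂ (vb n c (some i))).pow (d j - 1))
    rw [zero_add, one_mul] at h1
    exact (homogeneousSubmodule _ ℂ _).neg_mem h1

/-- The product over the `j` not in the image of `β`. -/
noncomputable def cx (n c : ℕ) (d : Fin c → ℕ) (β : Fin n → Fin (n + c)) :
    MvPolynomial (Option (Fin (n + c))) ℂ := by
  classical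
  exact ∏ j : Fin c, if ∃ r, β r = Fin.natAdd n j then 1 else X (vc n c j) ^ (d j - 1)

theorem wx_eq (β : Fin n → Fin (n + c)) : wx n c d α β =
    cx n c d β * (Matrix.of fun r i : Fin n => Mx n c d α (β r) i).det := by
  unfold wx cx
  congr 1

/-- The product of the row factors and the complementary product. -/
theorem cx_prod {R : Type*} [CommMonoid R] (f : Fin c → R) {β : Fin n → Fin (n + c)}
    (hβ : Function.Injective β) : (∏ j : Fin c, if ∃ r, β r = Fin.natAdd n j then 1 else f j) *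
      ∏ a, (Fin.addCases (fun _ => 1) f (β a) : R) = ∏ j, f j := by
  classical
  have h1 : ∏ a, (Fin.addCases (fun _ => 1) f (β a) : R) =
      ∏ j : Fin c, if ∃ r, β r = Fin.natAdd n j then f j else 1 := by
    have h2 : ∏ a, (Fin.addCases (fun _ => 1) f (β a) : R) =
        ∏ b ∈ Finset.univ.image β, (Fin.addCases (fun _ => 1) f b : R) := by
      rw [Finset.prod_image fun a _ a' _ h => hβ h]
    have h3 : ∏ b ∈ Finset.univ.image β, (Fin.addCases (fun _ => 1) f b : R) =
        ∏ b : Fin (n + c), if b ∈ Finset.univ.image β then (Fin.addCases (fun _ => 1) f b : R) else 1 := by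
      rw [Finset.prod_ite_mem, Finset.univ_inter]
    rw [h2, h3, Fin.prod_univ_add]
    have h4 : ∀ i : Fin n, (if Fin.castAdd c i ∈ Finset.univ.image β then
        (Fin.addCases (fun _ => 1) f (Fin.castAdd c i) : R) else 1) = 1 := by
      intro i
      rw [Fin.addCases_left, ite_self]
    rw [Finset.prod_congr rfl fun i _ => h4 i, Finset.prod_const_one, one_mul]
    refine Finset.prod_congr rfl fun j _ => ?_
    rw [Fin.addCases_right]
    have h5 : Fin.natAdd n j ∈ Finset.univ.image β ↔ ∃ r, β r = Fin.natAdd n j := by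
      rw [Finset.mem_image]
      constructor
      · rintro ⟨r, _, hr⟩
        exact ⟨r, hr⟩
      · rintro ⟨r, hr⟩
        exact ⟨r, Finset.mem_univ _, hr⟩
    by_cases h : ∃ r, β r = Fin.natAdd n j
    · rw [if_pos h, if_pos (h5.2 h)]
    · rw [if_neg h, if_neg fun h6 => h (h5.1 h6)]
  rw [h1, ← Finset.prod_mul_distrib]
  refine Finset.prod_congr rfl fun j _ => ?_
  by_cases h : ∃ r, β r = Fin.natAdd n j
  · rw [if_pos h, if_pos h, one_mul]
  · rw [if_neg h, if_neg h, mul_one]

theorem cx_deg {β : Fin n → Fin (n + c)} (hβ : Function.Injective β) :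
    (∑ j : Fin c, if ∃ r, β r = Fin.natAdd n j then 0 else (d j - 1)) + ∑ a, rd n d (β a) = DD d := by
  classical
  have h := cx_prod (R := Multiplicative ℕ) (fun j => Multiplicative.ofAdd (d j - 1)) hβ
  have h1 := congrArg Multiplicative.toAdd h
  rw [toAdd_mul, toAdd_prod, toAdd_prod, toAdd_prod] at h1
  unfold DD
  refine Eq.trans ?_ h1
  congr 1

theorem cx_hom (β : Fin n → Fin (n + c)) : (cx n c d β).IsHomogeneous
    (∑ j : Fin c, if ∃ r, β r = Fin.natAdd n j then 0 else (d j - 1)) := by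
  classical
  unfold cx
  refine IsHomogeneous.prod _ _ _ fun j _ => ?_
  by_cases h : ∃ r, β r = Fin.natAdd n j
  · rw [if_pos h, if_pos h]
    exact isHomogeneous_one _ _
  · rw [if_neg h, if_neg h]
    have h1 := (isHomogeneous_X ℂ (vc n c j)).pow (d j - 1)
    rw [one_mul] at h1
    exact h1

theorem cx_eval {β : Fin n → Fin (n + c)} (hβ : Function.Injective β) :
    aeval (xi n c d α) (cx n c d β) * ∏ a, rf n c d α (β a) = yy n c d α := by
  classical
  unfold yy
  rw [← cx_prod (fun j => xi n c d α (vc n c j) ^ (d j - 1)) hβ]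
  unfold cx rf
  rw [map_prod]
  congr 1
  refine Finset.prod_congr rfl fun j _ => ?_
  by_cases h : ∃ r, β r = Fin.natAdd n j
  · rw [if_pos h, if_pos h, map_one]
  · rw [if_neg h, if_neg h, map_pow, aeval_X]

theorem det_zero_of_not_inj {R : Type*} [CommRing R] {n N : ℕ} (V : Fin N → Fin n → R)
    {β : Fin n → Fin N} (hβ : ¬ Function.Injective β) :
    (Matrix.of fun r i : Fin n => V (β r) i).det = 0 := by
  have h : ∃ a b, β a = β b ∧ a ≠ b := by
    by_contra h1
    push Not at h1
    exact hβ fun a b hab => h1 a b hab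
  obtain ⟨a, b, hab, hne⟩ := h
  refine Matrix.det_zero_of_row_eq hne ?_
  funext i
  simp only [Matrix.of_apply, hab]

/-- `w_β = Y0 * det M_β`. -/
theorem wx_eval (hd : ∀ j, 1 ≤ d j) (hα : ∀ j b, α j b ≠ 0) (β : Fin n → Fin (n + c)) :
    aeval (xi n c d α) (wx n c d α β) =
      yy n c d α * (Matrix.of fun r i : Fin n => MM n c d α (β r) i).det := by
  rw [wx_eq, map_mul, AlgHom.map_det]
  have h1 : (aeval (xi n c d α)).mapMatrix (Matrix.of fun r i : Fin n => Mx n c d α (β r) i) =
      Matrix.of fun r i : Fin n => rf n c d α (β r) *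
        (Matrix.of fun r i : Fin n => MM n c d α (β r) i) r i := by
    ext r i
    rw [AlgHom.mapMatrix_apply, Matrix.map_apply, Matrix.of_apply, Matrix.of_apply, Matrix.of_apply,
      Mx_eval hd hα]
  rw [h1, Matrix.det_mul_column]
  by_cases hβ : Function.Injective β
  · rw [← mul_assoc, cx_eval hβ]
  · rw [det_zero_of_not_inj _ hβ, mul_zero, mul_zero, mul_zero]

theorem wx_hom (β : Fin n → Fin (n + c)) : (wx n c d α β).IsHomogeneous (DD d) := by
  rw [wx_eq]
  by_cases hβ : Function.Injective β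
  · rw [← cx_deg hβ]
    refine (cx_hom β).mul ?_
    rw [Matrix.det_apply']
    refine (homogeneousSubmodule _ ℂ _).sum_mem fun σ _ => ?_
    have h1 : (∏ i : Fin n, (Matrix.of fun r i : Fin n => Mx n c d α (β r) i) (σ i) i).IsHomogeneous
        (∑ a, rd n d (β a)) := by
      rw [← Equiv.sum_comp σ fun a => rd n d (β a)]
      exact IsHomogeneous.prod _ _ _ fun i _ => Mx_hom _ _
    have h2 : (((Equiv.Perm.sign σ : ℤ)) : MvPolynomial (Option (Fin (n + c))) ℂ) =
        C (((Equiv.Perm.sign σ : ℤ)) : ℂ) := by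
      rw [map_intCast]
    rw [h2]
    have h3 := (isHomogeneous_C (Option (Fin (n + c))) (((Equiv.Perm.sign σ : ℤ)) : ℂ)).mul h1
    rw [zero_add] at h3
    exact h3
  · rw [det_zero_of_not_inj _ hβ, mul_zero]
    exact isHomogeneous_zero _ _ _

/-- The coefficients of the right operator. -/
noncomputable def wr (n c : ℕ) (d : Fin c → ℕ) (α : Fin c → Option (Fin n) → ℂ) (β : Fin n → Fin (n + c)) :
    MvPolynomial (Option (Fin (n + c))) ℂ := cx n c d β * ∏ a, Mx n c d α (β a) a

theorem wr_hom {β : Fin n → Fin (n + c)} (hβ : Function.Injective β) :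
    (wr n c d α β).IsHomogeneous (DD d) := by
  rw [← cx_deg hβ]
  exact (cx_hom β).mul (IsHomogeneous.prod _ _ _ fun a _ => Mx_hom _ _)

theorem wr_eval (hd : ∀ j, 1 ≤ d j) (hα : ∀ j b, α j b ≠ 0) {β : Fin n → Fin (n + c)}
    (hβ : Function.Injective β) : aeval (xi n c d α) (wr n c d α β) =
      yy n c d α * ∏ a, MM n c d α (β a) a := by
  unfold wr
  rw [map_mul, map_prod, Finset.prod_congr rfl fun a _ => Mx_eval hd hα (β a) a,
    Finset.prod_mul_distrib, ← mul_assoc, cx_eval hβ]

/-- Forms in the `x_b` as bihomogeneous polynomials. -/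
theorem rename_bi {N : ℕ} {p : MvPolynomial (Option (Fin N)) ℂ} {D : ℕ} (hp : p.IsHomogeneous D) :
    BiH D 0 (rename (xv : Option (Fin N) → HV N k) p) := by
  rw [p.as_sum, map_sum]
  refine (weightedHomogeneousSubmodule ℂ (hw : HV N k → ℕ × ℕ) (D, 0)).sum_mem fun μ hμ => ?_
  rw [rename_monomial, mem_weightedHomogeneousSubmodule]
  refine isWeightedHomogeneous_monomial _ _ _ ?_
  have h1 : μ.degree = D := by
    by_contra h
    exact mem_support_iff.1 hμ (hp.coeff_eq_zero h)
  rw [Finsupp.weight_apply, Finsupp.sum_mapDomain_index (h := fun (i : HV N k) (e : ℕ) =>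
    e • (hw i : ℕ × ℕ)) (fun _ => zero_smul _ _) (fun _ _ _ => add_smul _ _ _)]
  have h2 : (μ.sum fun b e => e • (hw (xv b : HV N k) : ℕ × ℕ)) = μ.sum fun _ e => ((e, 0) : ℕ × ℕ) := by
    refine Finset.sum_congr rfl fun b _ => ?_
    show μ b • (hw (xv b : HV N k) : ℕ × ℕ) = (μ b, 0)
    rw [hw_xv', Prod.smul_mk, smul_eq_mul, smul_eq_mul, mul_one, mul_zero]
  rw [h2, Finsupp.sum]
  refine Prod.ext ?_ ?_
  · rw [Prod.fst_sum, ← h1]
    rfl
  · rw [Prod.snd_sum]
    exact Finset.sum_const_zero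

theorem Phi_mb_zero {β : Fin n → Fin (n + c)} (hβ : ¬ Function.Injective β) (J : Fin n → Fin k) :
    mb β J = 0 := by
  unfold mb
  exact det_zero_of_not_inj (fun b i => (X (some (b, (J i).succ)) : MvPolynomial (HV (n + c) k) ℂ)) hβ

/-- The right factor. -/
theorem hRight_sp (k : ℕ) (hd : ∀ j, 1 ≤ d j) (hα : ∀ j b, α j b ≠ 0) :
    HRight k (xi n c d α) (MM n c d α) (DD d) (yy n c d α) := by
  classical
  intro A m J f hf
  obtain ⟨g, hg, rfl⟩ := mem_BB.1 hf
  refine mem_BB.2 ⟨∑ β : Fin n → Fin (n + c), if Function.Injective β then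
    rename (xv : Option (Fin (n + c)) → HV (n + c) k) (wr n c d α β) * dop (mb β J) g else 0, ?_, ?_⟩
  · refine (weightedHomogeneousSubmodule ℂ (hw : HV (n + c) k → ℕ × ℕ) (A + DD d, m)).sum_mem
      fun β _ => ?_
    split_ifs with hβ
    · have h1 : IsWeightedHomogeneous (hw : HV (n + c) k → ℕ × ℕ) (dop (mb β J) g) (A, m) := by
        refine dop_wt hw (u := (0, wch J)) (mb_bi β J) ?_
        have e : ((A, m) : ℕ × ℕ) + (0, wch J) = (A, m + wch J) := by
          rw [Prod.mk_add_mk, add_zero]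
        rw [e]
        exact hg
      have h2 := (rename_bi (k := k) (wr_hom (d := d) (α := α) hβ)).mul h1
      have e2 : ((DD d, 0) : ℕ × ℕ) + (A, m) = (A + DD d, m) := by
        rw [Prod.mk_add_mk, zero_add, add_comm]
      rw [e2] at h2
      exact h2
    · exact Submodule.zero_mem _
  · rw [map_sum, dop_mdet_Phi, Finset.mul_sum]
    refine Finset.sum_congr rfl fun β _ => ?_
    split_ifs with hβ
    · have h3 := Phi_rename (k := k) (d := d) (α := α) (wr n c d α β)
      rw [map_mul]
      unfold PhS at h3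
      rw [h3, wr_eval hd hα hβ, C_mul, mul_assoc]
    · rw [Phi_mb_zero hβ, map_zero]
      simp

end Pool.Agent.H80W
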