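import Pool.Agent.Lib.H80W.D0
import Pool.Agent.Lib.H54W.W1D
import Pool.Agent.Lib.H54W.W5

set_option autoImplicit false

/-!
H80W: interface to the chunks of helper54 (special model: smoothness, regularity, Hilbert function).
-/

open MvPolynomial

namespace Pool.Agent.H80W

open Pool.Agent.H89T Pool.Agent.H67T Pool.Agent.H53U Pool.Agent.H53V

variable {n c k : ℕ} {d : Fin c → ℕ} {α : Fin c → Option (Fin n) → ℂ}

theorem exists_good (n : ℕ) {c : ℕ} (d : Fin c → ℕ) (hd : ∀ j, 2 ≤ d j) : ∃ α, GoodA n c d α :=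
  H54W.exists_good n c d hd

theorem Isp_hom (k : ℕ) : HomI (Isp n c k d α) :=
  H54W.Isp_hom

theorem TR_vc (k : ℕ) (hd : ∀ j, 2 ≤ d j) (hg : GoodA n c d α) (j : Fin c) :
    TR (Isp n c k d α) (X (xv (vc n c j))) :=
  H54W.TR_x (fun j => le_trans (by norm_num) (hd j)) hg _

theorem hf_eq (k : ℕ) (hd : ∀ j, 2 ≤ d j) (hg : GoodA n c d α) :
    ∃ A₁ : ℕ, ∀ A ≥ A₁, ∀ m, hf (Ige n c k d) A m = hf (Isp n c k d α) A m :=
  H54W.hf_eq (fun j => le_trans (by norm_num) (hd j)) hg k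

end Pool.Agent.H80W
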