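import Pool.Agent.Lib.H80W.C2
import Pool.Agent.Lib.H80W.HE

set_option autoImplicit false

/-!
H80W, C3: the kernel of `Phi` in large degree; saturation.
-/

open MvPolynomial

namespace Pool.Agent.H80W

open Pool.Agent.H89T Pool.Agent.H67T Pool.Agent.H53U Pool.Agent.H53V

open Pool.Agent.H44K (mdet dop Gt Ch wch E1 E2)

variable {n c k : ℕ} {d : Fin c → ℕ} {α : Fin c → Option (Fin n) → ℂ}

theorem xv_bi {N : ℕ} (b : Option (Fin N)) : BiH 1 0 (X (xv b) : MvPolynomial (HV N k) ℂ) := by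
  have h := isWeightedHomogeneous_X ℂ (hw : HV N k → ℕ × ℕ) (xv b)
  rw [hw_xv'] at h
  exact h

theorem torsion_finset {I : Ideal (MvPolynomial (HV (n + c) k) ℂ)} {A₀ : ℕ}
    (h : ∀ j : Fin c, ∀ A ≥ A₀, ∀ m f, BiH A m f → X (xv (vc n c j)) * f ∈ I → f ∈ I)
    (S : Finset (Fin c)) : ∀ A ≥ A₀, ∀ m f, BiH A m f → (∏ j ∈ S, X (xv (vc n c j))) * f ∈ I → f ∈ I := by
  classical
  induction S using Finset.induction_on with
  | empty =>
    intro A _ m f _ hf
    rwa [Finset.prod_empty, one_mul] at hf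
  | insert a S ha ih =>
    intro A hA m f hB hf
    rw [Finset.prod_insert ha, mul_comm (X (xv (vc n c a))), mul_assoc] at hf
    refine h a A hA m f hB (ih (A + 1) (by omega) m _ ?_ hf)
    have h1 := (xv_bi (k := k) (vc n c a)).mul hB
    have e : ((1, 0) : ℕ × ℕ) + (A, m) = (A + 1, m) := by
      rw [Prod.mk_add_mk, zero_add, add_comm]
    rw [e] at h1
    exact h1

theorem Px_bi : BiH c 0 (Px n c k) := by
  unfold Px
  have h := IsWeightedHomogeneous.prod (w := (hw : HV (n + c) k → ℕ × ℕ)) (Finset.univ : Finset (Fin c))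
    (fun j => (X (xv (vc n c j)) : MvPolynomial (HV (n + c) k) ℂ)) (fun _ => (1, 0))
    (fun j _ => xv_bi (vc n c j))
  have e : ∑ _j : Fin c, ((1, 0) : ℕ × ℕ) = (c, 0) := by
    rw [Finset.sum_const, Finset.card_univ, Fintype.card_fin, Prod.smul_mk, smul_eq_mul, smul_eq_mul,
      mul_one, mul_zero]
  rw [e] at h
  exact h

theorem Px_pow_bi (e : ℕ) : BiH (e * c) 0 (Px n c k ^ e) := by
  have h := (Px_bi (n := n) (c := c) (k := k)).pow e
  have e1 : e • ((c, 0) : ℕ × ℕ) = (e * c, 0) := by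
    rw [Prod.smul_mk, smul_eq_mul, smul_eq_mul, mul_zero]
  rw [e1] at h
  exact h

theorem Px_unit (hd : ∀ j, 1 ≤ d j) (hα : ∀ j b, α j b ≠ 0) (e : ℕ) :
    IsUnit (PhS n c k d α (Px n c k ^ e)) := by
  rw [map_pow]
  refine IsUnit.pow e ?_
  unfold Px PhS
  rw [map_prod]
  have h : ∀ j : Fin c, Phi k (xi n c d α) (MM n c d α) (X (xv (vc n c j))) =
      C (xi n c d α (vc n c j)) := fun j => Phi_x _
  rw [Finset.prod_congr rfl fun j _ => h j, ← map_prod]
  refine IsUnit.map _ ?_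
  exact (Finset.prod_induction (fun j => xi n c d α (vc n c j)) IsUnit (fun _ _ => IsUnit.mul) isUnit_one
    fun j _ => xi_vc_unit hd hα j)

theorem Ik_hom (k : ℕ) (hd : ∀ j, 1 ≤ d j) (hα : ∀ j b, α j b ≠ 0) :
    HomI (Ik k (xi n c d α) (MM n c d α)) := by
  intro f hf A m
  obtain ⟨e, he⟩ := Ik_sat hd hα hf
  have h1 := Isp_hom k _ he (e * c + A) m
  have h3 : ((e * c + A, m) : ℕ × ℕ) = (e * c, 0) + (A, m) := by
    rw [Prod.mk_add_mk, zero_add]
  rw [h3, eha_comp_mul (Px_pow_bi e)] at h1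
  have h4 := Isp_le k hd hα h1
  rw [mem_Ik, map_mul] at h4
  rw [mem_Ik]
  exact (Px_unit hd hα e).mul_right_eq_zero.1 h4

theorem Ik_large (k : ℕ) (hd : ∀ j, 2 ≤ d j) (hg : GoodA n c d α) :
    ∃ A₁ : ℕ, ∀ A ≥ A₁, ∀ m, ∀ f, BiH A m f → f ∈ Ik k (xi n c d α) (MM n c d α) →
      f ∈ Isp n c k d α := by
  have hT : ∀ j : Fin c, ∃ A₀ : ℕ, ∀ A ≥ A₀, ∀ m f, BiH A m f →
      X (xv (vc n c j)) * f ∈ Isp n c k d α → f ∈ Isp n c k d α := fun j =>
    torsion (Isp_hom k) (xv_bi (vc n c j)) (TR_vc k hd hg j)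
  choose A0 hA0 using hT
  refine ⟨∑ j, A0 j, fun A hA m f hf hI => ?_⟩
  obtain ⟨e, he⟩ := Ik_sat (fun j => by have := hd j; omega) hg.ne hI
  have h : ∀ j : Fin c, ∀ A' ≥ ∑ j, A0 j, ∀ m f, BiH A' m f →
      X (xv (vc n c j)) * f ∈ Isp n c k d α → f ∈ Isp n c k d α := fun j A' hA' =>
    hA0 j A' (le_trans (Finset.single_le_sum (f := A0) (fun _ _ => Nat.zero_le _)
      (Finset.mem_univ j)) hA')
  clear hI
  induction e generalizing A m f with
  | zero => rwa [pow_zero, one_mul] at he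
  | succ e ih =>
    rw [pow_succ, mul_assoc] at he
    have h1 := Px_bi (n := n) (c := c) (k := k) |>.mul hf
    have e1 : ((c, 0) : ℕ × ℕ) + (A, m) = (A + c, m) := by
      rw [Prod.mk_add_mk, zero_add, add_comm]
    rw [e1] at h1
    exact torsion_finset h Finset.univ A hA m f hf (ih (A + c) (by omega) m _ h1 he)

/-- A monomial of large degree in the `x_b` is divisible by a large power of some `x_b`. -/
theorem exists_large {N : ℕ} (r : Option (Fin N) → ℕ) (μ : HV N k →₀ ℕ)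
    (h : ∑ b, r b ≤ (Finsupp.weight (hw : HV N k → ℕ × ℕ) μ).1) : ∃ b, r b ≤ μ (xv b) := by
  by_contra hne
  push Not at hne
  rw [eha_weight_fst] at h
  exact absurd (Finset.sum_lt_sum_of_nonempty (s := (Finset.univ : Finset (Option (Fin N))))
    ⟨none, Finset.mem_univ _⟩ fun b _ => hne b) (not_lt.2 h)

theorem mem_of_large {N : ℕ} {K : Ideal (MvPolynomial (Option (Fin N)) ℂ)}
    {r : Option (Fin N) → ℕ} (hr : ∀ b, X b ^ r b ∈ K) {A m : ℕ} (hA : ∑ b, r b ≤ A)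
    {g : MvPolynomial (HV N k) ℂ} (hg : BiH A m g) :
    g ∈ K.map (rename (xv : Option (Fin N) → HV N k) : MvPolynomial (Option (Fin N)) ℂ →ₐ[ℂ] _) := by
  rw [g.as_sum]
  refine Ideal.sum_mem _ fun μ hμ => ?_
  have h1 : Finsupp.weight hw μ = (A, m) := hg (mem_support_iff.1 hμ)
  obtain ⟨b, hb⟩ := exists_large r μ (by rw [h1]; exact hA)
  have h2 : (monomial μ (coeff μ g) : MvPolynomial (HV N k) ℂ) =
      X (xv b) ^ r b * monomial (μ - Finsupp.single (xv b) (r b)) (coeff μ g) := by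
    rw [X_pow_eq_monomial, monomial_mul, one_mul]
    congr 1
    rw [add_tsub_cancel_of_le]
    rw [Finsupp.single_le_iff]
    exact hb
  rw [h2]
  refine Ideal.mul_mem_right _ _ ?_
  have h3 := Ideal.mem_map_of_mem (rename (xv : Option (Fin N) → HV N k) :
    MvPolynomial (Option (Fin N)) ℂ →ₐ[ℂ] MvPolynomial (HV N k) ℂ) (hr b)
  rwa [map_pow, rename_X] at h3

theorem w_span (k : ℕ) (hg : GoodA n c d α) :
    ∃ A₀ : ℕ, ∀ A ≥ A₀, ∀ m, ∀ g : MvPolynomial (HV (n + c) k) ℂ, BiH (A + DD d) m g →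
      ∃ q : (Fin n → Fin (n + c)) → MvPolynomial (HV (n + c) k) ℂ, (∀ β, BiH A m (q β)) ∧
        g - ∑ β, rename (xv : Option (Fin (n + c)) → HV (n + c) k) (wx n c d α β) * q β ∈
          Isp n c k d α := by
  classical
  choose r hr using hg.sm
  refine ⟨∑ b, r b, fun A hA m g hB => ?_⟩
  have h1 := mem_of_large hr (by omega : ∑ b, r b ≤ A + DD d) hB
  rw [Ideal.map_span, Set.image_union, Ideal.span_union, Submodule.mem_sup] at h1
  obtain ⟨a, ha, b, hb, hab⟩ := h1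
  rw [← Set.range_comp, Ideal.mem_span_range_iff_exists_fun] at hb
  obtain ⟨p, hp⟩ := hb
  have haI : a ∈ Isp n c k d α := by
    refine Ideal.span_mono ?_ ha
    rintro _ ⟨_, ⟨j, rfl⟩, rfl⟩
    exact Or.inl ⟨j, rfl⟩
  refine ⟨fun β => weightedHomogeneousComponent hw (A, m) (p β), fun β =>
    weightedHomogeneousComponent_isWeightedHomogeneous _ _, ?_⟩
  have h2 : weightedHomogeneousComponent (hw : HV (n + c) k → ℕ × ℕ) (A + DD d, m) g = g :=
    IsWeightedHomogeneous.weightedHomogeneousComponent_same hB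
  have h3 : g = weightedHomogeneousComponent (hw : HV (n + c) k → ℕ × ℕ) (A + DD d, m) a +
      ∑ β, rename (xv : Option (Fin (n + c)) → HV (n + c) k) (wx n c d α β) *
        weightedHomogeneousComponent (hw : HV (n + c) k → ℕ × ℕ) (A, m) (p β) := by
    conv_lhs => rw [← h2, ← hab, ← hp, map_add, map_sum]
    congr 1
    refine Finset.sum_congr rfl fun β _ => ?_
    have e : ((A + DD d, m) : ℕ × ℕ) = (DD d, 0) + (A, m) := by
      rw [Prod.mk_add_mk, zero_add, add_comm]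
    rw [mul_comm (p β), e]
    exact eha_comp_mul (rename_bi (wx_hom β)) _ _
  rw [h3, add_sub_cancel_right]
  exact Isp_hom k _ haI _ _

/-- The left factor. -/
theorem hSat_sp (k : ℕ) (hd : ∀ j, 1 ≤ d j) (hg : GoodA n c d α) :
    ∃ A₀ : ℕ, HSat k (xi n c d α) (MM n c d α) (DD d) (yi n c d α) A₀ := by
  obtain ⟨A₀, hA₀⟩ := w_span k hg
  refine ⟨A₀, fun A hA m J f hf => ?_⟩
  obtain ⟨g, hB, rfl⟩ := mem_BB.1 hf
  obtain ⟨q, hq, hI⟩ := hA₀ A hA m g hB
  have h1 := mem_Ik.1 (Isp_le k hd hg.ne hI)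
  rw [map_sub, sub_eq_zero, map_sum] at h1
  rw [h1, Finset.mul_sum]
  refine Submodule.sum_mem _ fun β _ => ?_
  have h2 := Phi_rename (k := k) (d := d) (α := α) (wx n c d α β)
  unfold PhS at h2
  have h3 : C (yi n c d α) * C (yy n c d α) = (1 : MvPolynomial (Fin n × Fin k) (EE n c d α)) := by
    rw [← C_mul, yi_yy hd hg.ne, C_1]
  have h4 : C (yi n c d α) * mdet J * Phi k (xi n c d α) (MM n c d α)
      (rename (xv : Option (Fin (n + c)) → HV (n + c) k) (wx n c d α β) * q β) =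
      Phi k (xi n c d α) (MM n c d α) (mb β J) * Phi k (xi n c d α) (MM n c d α) (q β) := by
    rw [map_mul, h2, wx_eval hd hg.ne, C_mul, Phi_mb]
    linear_combination (mdet J * C ((Matrix.of fun r i : Fin n => MM n c d α (β r) i).det) *
      Phi k (xi n c d α) (MM n c d α) (q β)) * h3
  rw [h4]
  have h5 := BB_mul (mem_BB.2 ⟨_, mb_bi β J, rfl⟩ : Phi k (xi n c d α) (MM n c d α) (mb β J) ∈ _)
    (mem_BB.2 ⟨_, hq β, rfl⟩ : Phi k (xi n c d α) (MM n c d α) (q β) ∈ _)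
  rwa [zero_add, add_comm (wch J) m] at h5

end Pool.Agent.H80W
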