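import Pool.Agent.Lib.H80W.D0
import Pool.Agent.Lib.H44K.G19

set_option autoImplicit false

/-!
H80W, C4: many sections of the generic complete intersection give `DimV` (port of H44K G19).
-/

open MvPolynomial

namespace Pool.Agent.H80W

open Pool.Agent.H89T Pool.Agent.H67T Pool.Agent.H53U Pool.Agent.H53V

open Pool.Agent.H44K (kap c1 c2 Dm VP IP finrank_IP finrank_VP s3_finite exists_E12 exists_indep_mod g19_c1 g19_X g19_pow
  g19_sum g19_tors E1 E2)

/-- PROOF.  `Ige` is homogeneous: `HomI_hom univ (gK ..)`; `A₂` = max of: `A₀` of `exists_E12`, of `chart` (with `TR_x0`), of `torsion` for `X none`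
(`TR_x0`, `X none` is `BiH 1 0`).  Let `A ≥ A₂`, `l` given.  `exists_indep_mod` with `V = kap c1 Ige A m` (finite-dimensional: contained in `VP`),
`I' = IP Ige ι A m` (contained in `V`; dimension `(n + c + 1) * finrank (Ige ⊓ V_A)`, as `finrank_IP` in S3): `g i : ι → S`.
`P i := dhom (g i none)`.  With `L := ∑ b, C (algebraMap ℂ _ (l b)) * X (xv (some b))` (bidegree `(1, 0)`, `dhom L = linK ..`):
 the family `b ↦ L ^ s * g i b` of bidegree `(A + s, m)` satisfies `x_a ^ s (L ^ s g_b) - x_b ^ s (L ^ s g_a) ∈ Ige`, so `E1` at `c = A` with exponents `s`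
(`s ≥ 1`) gives `σ` of bidegree `(A, m)` with `L ^ s * g i none - x_0 ^ s * σ ∈ Ige`; `Q i := dhom σ`; apply `dhom` (`dhom (X none) = 1`) and
`map_dhom_ideal`: `linK ^ s * P i - Q i ∈ IK`.
 `BiK A m (dhom f)` for `BiH A m f`: `er1_weight`, `er1_dhom_monomial` (ER1.lean), or `homz_dhom`; see Lib/H53V/ED2.lean.
 Independence: `∑ i, C (w i) * P i = dhom (∑ i, C (w i) * g i none) ∈ IK`; `chart`: `f₀ := ∑ i, C (w i) * g i none ∈ Ige`.  For every `b`:
`x_0 ^ s * (∑ i, C (w i) * g i b) ≡ x_b ^ s * f₀ ≡ 0` modulo `Ige`, and `x_0` is a non-zero-divisor in degrees `≥ A₂` (`torsion`, induction on `s`), so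
`∑ i, C (w i) * g i b ∈ Ige`; it is bihomogeneous, so `∑ i, w i • g i ∈ IP Ige ι A m`, so `w = 0`. -/
theorem dimV_of_kap (n k : ℕ) {c : ℕ} (d : Fin c → ℕ) :
    ∃ A₂ : ℕ, ∀ A ≥ A₂, ∀ m s R, 1 ≤ s →
      (n + c + 1) * Module.finrank (KF (n + c) d)
          ↥((Ige n c k d).restrictScalars (KF (n + c) d) ⊓
            weightedHomogeneousSubmodule (KF (n + c) d)
              (hw : HV (n + c) k → ℕ × ℕ) (A, m)) + R ≤
        Module.finrank (KF (n + c) d) (kap (c1 (n + c) k s) (Ige n c k d) A m) →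
      ∀ l, DimV n k Finset.univ d m A s R l := by
  have hHom : HomI (Ige n c k d) := HomI_hom Finset.univ (gK (n + c) d)
  have hTR : TR (Ige n c k d) (X none) := TR_x0 Finset.univ
  obtain ⟨A₀, hA₀⟩ := exists_E12 hHom
  obtain ⟨A₁, hA₁⟩ := chart hHom hTR
  obtain ⟨A₃, hA₃⟩ := torsion hHom (g19_X none) hTR
  have hmap : (Ige n c k d).map (dhom : _ →ₐ[KF (n + c) d] MvPolynomial
      (JV (n + c) k) (KF (n + c) d)) =
      IK k Finset.univ (gK (n + c) d) :=
    map_dhom_ideal Finset.univ (gK (n + c) d)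
  refine ⟨A₀ + A₁ + A₃, fun A hA m s R hs hR l => ?_⟩
  have hVf := ehc_V_finite (K := KF (n + c) d) (N := n + c) (k := k) A m
  have hVPf : FiniteDimensional (KF (n + c) d)
      (VP (KF (n + c) d) (n + c) k (Option (Fin (n + c))) A m) :=
    s3_finite _ (Option (Fin (n + c)))
  have hle : kap (c1 (n + c) k s) (Ige n c k d) A m ≤
      VP (KF (n + c) d) (n + c) k (Option (Fin (n + c))) A m :=
    fun h hh p _ => hh.1 p
  have hfin : FiniteDimensional (KF (n + c) d)
      (kap (c1 (n + c) k s) (Ige n c k d) A m) := Submodule.finiteDimensional_of_le hle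
  have hI : IP (Ige n c k d) (Option (Fin (n + c))) A m ≤
      kap (c1 (n + c) k s) (Ige n c k d) A m := by
    intro h hh
    refine ⟨fun p => (hh p (Set.mem_univ p)).2, fun q => ?_⟩
    exact Ideal.sum_mem _ fun p _ => Ideal.mul_mem_left _ _ (hh p (Set.mem_univ p)).1
  have hcard : Fintype.card (Option (Fin (n + c))) = n + c + 1 := by
    rw [Fintype.card_option, Fintype.card_fin]
  obtain ⟨g, hg, hind⟩ := exists_indep_mod (kap (c1 (n + c) k s) (Ige n c k d) A m)
    (IP (Ige n c k d) (Option (Fin (n + c))) A m) hI (R := R) (by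
      rw [finrank_IP, hcard]
      exact hR)
  have hgB : ∀ i b, BiH A m (g i b) := fun i b => (hg i).1 b
  have hgI : ∀ i a b, X (xv a) ^ s * g i b - X (xv b) ^ s * g i a ∈ Ige n c k d := by
    intro i a b
    rw [← g19_c1]
    exact (hg i).2 (a, b)
  -- the linear form
  obtain ⟨L, hL⟩ : ∃ L : MvPolynomial (HV (n + c) k) (KF (n + c) d),
      L = ∑ b : Fin (n + c), C (algebraMap ℂ (KF (n + c) d) (l b)) *
        X (xv (some b)) := ⟨_, rfl⟩
  have hLB : BiH 1 0 L := by
    rw [hL]
    exact g19_sum _ _ fun b _ => g19_X (some b)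
  have hLd : dhom L = linK k (fun b => algebraMap ℂ (KF (n + c) d) (l b)) := by
    rw [hL, map_sum]
    unfold linK
    refine Finset.sum_congr rfl fun b _ => ?_
    rw [map_mul]
    congr 1
    · unfold dhom
      rw [← algebraMap_eq, AlgHom.commutes, algebraMap_eq]
    · unfold dhom
      rw [aeval_X]
      rfl
  have hE := (hA₀ A (by omega) (fun _ => s) (fun _ => hs)).1
  have hσ : ∀ i, ∃ σ, BiH A m σ ∧ ∀ b, L ^ s * g i b - X (xv b) ^ s * σ ∈ Ige n c k d := by
    intro i
    refine hE m (fun b => L ^ s * g i b) (fun b => g19_pow hLB (hgB i b) s) fun a b => ?_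
    have h1 : X (xv a) ^ s * (L ^ s * g i b) - X (xv b) ^ s * (L ^ s * g i a) =
        L ^ s * (X (xv a) ^ s * g i b - X (xv b) ^ s * g i a) := by ring
    rw [h1]
    exact Ideal.mul_mem_left _ _ (hgI i a b)
  choose σ hσB hσI using hσ
  refine ⟨fun i => dhom (g i none), fun i => dhom (σ i), fun i => dhom_bi (hgB i none),
    fun i => dhom_bi (hσB i), fun i => ?_, fun w hw => ?_⟩
  · have h1 := Ideal.mem_map_of_mem (dhom : _ →ₐ[KF (n + c) d] MvPolynomial
      (JV (n + c) k) (KF (n + c) d)) (hσI i none)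
    rw [hmap, map_sub, map_mul, map_mul, map_pow, map_pow, hLd] at h1
    have h2 : dhom (X (xv none) : MvPolynomial (HV (n + c) k) (KF (n + c) d)) =
        1 := by
      unfold dhom
      rw [aeval_X]
      rfl
    rw [h2, one_pow, one_mul] at h1
    exact h1
  · have hC : ∀ (c0 : KF (n + c) d),
        dhom (C c0 : MvPolynomial (HV (n + c) k) (KF (n + c) d)) = C c0 := by
      intro c0
      unfold dhom
      rw [← algebraMap_eq, AlgHom.commutes, algebraMap_eq]
    have hf0 : ∑ i, C (w i) * g i none ∈ Ige n c k d := by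
      refine hA₁ A (by omega) m _ (g19_sum _ _ fun i _ => hgB i none) ?_
      rw [hmap, map_sum]
      simp only [map_mul, hC]
      exact hw
    apply hind w
    intro b _
    have h3 : (∑ i, w i • g i) b = ∑ i, C (w i) * g i b := by
      rw [Finset.sum_apply]
      exact Finset.sum_congr rfl fun i _ => by rw [Pi.smul_apply, smul_eq_C_mul]
    show (∑ i, w i • g i) b ∈ _
    rw [h3]
    have hB := g19_sum (Finset.univ : Finset (Fin R)) w (A := A) (m := m)
      (f := fun i => g i b) fun i _ => hgB i b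
    refine ⟨?_, hB⟩
    refine g19_tors hA₃ (by omega : A₃ ≤ A) hB s ?_
    have h4 : X none ^ s * ∑ i, C (w i) * g i b =
        ∑ i, C (w i) * (X (xv none) ^ s * g i b - X (xv b) ^ s * g i none) +
          X (xv b) ^ s * ∑ i, C (w i) * g i none := by
      rw [Finset.mul_sum, Finset.mul_sum, ← Finset.sum_add_distrib]
      refine Finset.sum_congr rfl fun i _ => ?_
      show X none ^ s * (C (w i) * g i b) = C (w i) * (X none ^ s * g i b -
        X (xv b) ^ s * g i none) + X (xv b) ^ s * (C (w i) * g i none)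
      ring
    rw [h4]
    refine Ideal.add_mem _ (Ideal.sum_mem _ fun i _ => ?_) (Ideal.mul_mem_left _ _ hf0)
    exact Ideal.mul_mem_left _ _ (hgI i none b)

end Pool.Agent.H80W
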