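import Pool.Agent.Lib.H80W.B1
import Pool.Agent.Lib.H80Z.Z4

set_option autoImplicit false

/-!
H80W, E1: lower bound.  The evaluation of flat polynomials; sums of monomials.
-/

open MvPolynomial

namespace Pool.Agent.H80W

open Pool.Agent.H89T Pool.Agent.H67T Pool.Agent.H53U Pool.Agent.H53V Pool.Agent.H80N

open Pool.Agent.H80Z (linInd_of_topOne topOne_pow topOne_X_pow topOne_rename coeff_sumAlgEquiv)

variable {n c k : ℕ} {d : Fin c → ℕ} {α : Fin c → Option (Fin n) → ℂ}

/-- The variables `z_(b, j)` and `x_0, ..., x_(n + c)`. -/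
abbrev SZ (n c k : ℕ) : Type := (Fin n × Fin k) ⊕ Option (Fin (n + c))

/-- `z ↦ z`, `x ↦ ξ`. -/
noncomputable def Th (n c k : ℕ) (d : Fin c → ℕ) (α : Fin c → Option (Fin n) → ℂ) :
    MvPolynomial (SZ n c k) ℂ →ₐ[ℂ] MvPolynomial (Fin n × Fin k) (EE n c d α) :=
  aeval (Sum.elim X fun b => C (xi n c d α b))

theorem Th_inl (p : Fin n × Fin k) : Th n c k d α (X (Sum.inl p)) = X p := by
  rw [Th, aeval_X, Sum.elim_inl]

theorem Th_inr (b : Option (Fin (n + c))) : Th n c k d α (X (Sum.inr b)) = C (xi n c d α b) := by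
  rw [Th, aeval_X, Sum.elim_inr]

theorem Th_eq (P : MvPolynomial (SZ n c k) ℂ) :
    Th n c k d α P = mapAlgHom (aeval (xi n c d α)) (sumAlgEquiv ℂ _ _ P) := by
  have h : Th n c k d α = (mapAlgHom (aeval (xi n c d α))).comp
      (sumAlgEquiv ℂ (Fin n × Fin k) (Option (Fin (n + c)))).toAlgHom := by
    refine MvPolynomial.algHom_ext fun p => ?_
    rcases p with p | b
    · rw [Th_inl, AlgHom.comp_apply]
      change _ = mapAlgHom _ (sumAlgEquiv ℂ _ _ (X (Sum.inl p)))
      rw [sumAlgEquiv_X_inl, mapAlgHom_apply]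
      simp
    · rw [Th_inr, AlgHom.comp_apply]
      change _ = mapAlgHom _ (sumAlgEquiv ℂ _ _ (X (Sum.inr b)))
      rw [sumAlgEquiv_X_inr, mapAlgHom_apply]
      simp
  rw [h]
  rfl

/-- Flat polynomials of degree `< d j` in `x_(n + j)` are determined by their values. -/
theorem Th_inj (hd : ∀ j, 1 ≤ d j) (P : MvPolynomial (SZ n c k) ℂ) (h : Th n c k d α P = 0)
    (hP : ∀ κ, coeff κ P ≠ 0 → ∀ j, κ (Sum.inr (vc n c j)) < d j) : P = 0 := by
  classical
  have h1 : sumAlgEquiv ℂ _ _ P = 0 := by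
    refine MvPolynomial.ext _ _ fun μ => ?_
    rw [coeff_zero]
    refine zero_of_ee (α := α) hd _ ?_ fun ν hν => ?_
    · have h2 := congrArg (coeff μ) h
      rw [Th_eq, mapAlgHom_apply, coeff_map, coeff_zero] at h2
      exact h2
    · rw [coeff_sumAlgEquiv] at hν
      exact hP _ hν
  exact (map_eq_zero_iff _ (AlgEquiv.injective _)).1 h1

/-- A sum of monomials with a unique maximum with coefficient `1`. -/
theorem topOne_sum' {σ : Type*} {A : Type*} [CommRing A] {ι : Type*} [Fintype ι] (Ω : (σ →₀ ℕ) →+ ℕ)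
    (μ : ι → σ →₀ ℕ) (a : ι → A) (i : ι) (hi : a i = 1) (h : ∀ j, j ≠ i → Ω (μ j) < Ω (μ i)) :
    TopOne Ω (∑ j, monomial (μ j) (a j)) (μ i) := by
  classical
  constructor
  · rw [coeff_sum, Finset.sum_eq_single i]
    · rw [coeff_monomial, if_pos rfl, hi]
    · intro j _ hj
      rw [coeff_monomial, if_neg]
      intro h1
      have := h j hj
      rw [h1] at this
      exact lt_irrefl _ this
    · intro h1
      exact absurd (Finset.mem_univ i) h1
  · intro κ h1 h2
    rw [coeff_sum] at h1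
    obtain ⟨j, _, hj⟩ := Finset.exists_ne_zero_of_sum_ne_zero h1
    have h3 : μ j = κ := by
      by_contra h3
      exact hj (by rw [coeff_monomial, if_neg h3])
    subst h3
    exact h j fun h4 => h2 (by rw [h4])

end Pool.Agent.H80W
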