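import Pool.Agent.Lib.H80W.E1

set_option autoImplicit false

/-!
H80W, E2: lower bound.  The flat polynomials and their leading monomials.
-/

open MvPolynomial

namespace Pool.Agent.H80W

open Pool.Agent.H80N

open Pool.Agent.H44K (mdet Ch)

open Pool.Agent.H80Z (topOne_pow topOne_X_pow topOne_rename jc)

variable {n c k : ℕ}

/-- The weight. -/
noncomputable def Omw (n c k e : ℕ) : (SZ n c k →₀ ℕ) →+ ℕ where
  toFun μ := ∑ p : Fin n × Fin k, 2 * e * ((p.1 : ℕ) * (p.2 : ℕ)) * μ (Sum.inl p) +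
    ∑ b : Fin n, H80Z.wx n k b * μ (Sum.inr (some (Fin.castAdd c b))) +
      (2 * n * (k - n) + n * n + 1) * μ (Sum.inr none)
  map_zero' := by simp
  map_add' μ ν := by
    simp only [Finsupp.add_apply, mul_add, Finset.sum_add_distrib]
    ring

theorem Omw_inl (e : ℕ) (p : Fin n × Fin k) (a : ℕ) :
    Omw n c k e (Finsupp.single (Sum.inl p) a) = 2 * e * ((p.1 : ℕ) * (p.2 : ℕ)) * a := by
  classical
  change ∑ q : Fin n × Fin k, 2 * e * ((q.1 : ℕ) * (q.2 : ℕ)) *
    (Finsupp.single (Sum.inl p : SZ n c k) a) (Sum.inl q) + ∑ b : Fin n, H80Z.wx n k b *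
      (Finsupp.single (Sum.inl p : SZ n c k) a) (Sum.inr (some (Fin.castAdd c b))) +
      (2 * n * (k - n) + n * n + 1) * (Finsupp.single (Sum.inl p : SZ n c k) a) (Sum.inr none) = _
  rw [Finset.sum_eq_single p, Finset.sum_eq_zero, add_zero, Finsupp.single_eq_same,
    Finsupp.single_eq_of_ne (by simp), mul_zero, add_zero]
  · intro b _
    rw [Finsupp.single_eq_of_ne (by simp), mul_zero]
  · intro q _ hq
    rw [Finsupp.single_eq_of_ne (by simpa using hq), mul_zero]
  · intro h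
    exact absurd (Finset.mem_univ p) h

theorem Omw_inr (e : ℕ) (b : Fin n) (a : ℕ) :
    Omw n c k e (Finsupp.single (Sum.inr (some (Fin.castAdd c b))) a) = H80Z.wx n k b * a := by
  classical
  change ∑ q : Fin n × Fin k, 2 * e * ((q.1 : ℕ) * (q.2 : ℕ)) *
    (Finsupp.single (Sum.inr (some (Fin.castAdd c b)) : SZ n c k) a) (Sum.inl q) +
    ∑ c' : Fin n, H80Z.wx n k c' *
      (Finsupp.single (Sum.inr (some (Fin.castAdd c b)) : SZ n c k) a) (Sum.inr (some (Fin.castAdd c c'))) +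
      (2 * n * (k - n) + n * n + 1) *
        (Finsupp.single (Sum.inr (some (Fin.castAdd c b)) : SZ n c k) a) (Sum.inr none) = _
  rw [Finset.sum_eq_zero, zero_add, Finset.sum_eq_single b, Finsupp.single_eq_same,
    Finsupp.single_eq_of_ne (by simp), mul_zero, add_zero]
  · intro q _ hq
    rw [Finsupp.single_eq_of_ne (by simpa using hq), mul_zero]
  · intro h
    exact absurd (Finset.mem_univ b) h
  · intro q _
    rw [Finsupp.single_eq_of_ne (by simp), mul_zero]

theorem Omw_none (e : ℕ) (a : ℕ) :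
    Omw n c k e (Finsupp.single (Sum.inr none) a) = (2 * n * (k - n) + n * n + 1) * a := by
  classical
  change ∑ q : Fin n × Fin k, 2 * e * ((q.1 : ℕ) * (q.2 : ℕ)) *
    (Finsupp.single (Sum.inr none : SZ n c k) a) (Sum.inl q) +
    ∑ c' : Fin n, H80Z.wx n k c' *
      (Finsupp.single (Sum.inr none : SZ n c k) a) (Sum.inr (some (Fin.castAdd c c'))) +
      (2 * n * (k - n) + n * n + 1) * (Finsupp.single (Sum.inr none : SZ n c k) a) (Sum.inr none) = _
  rw [Finset.sum_eq_zero, zero_add, Finset.sum_eq_zero, zero_add, Finsupp.single_eq_same]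
  · intro q _
    rw [Finsupp.single_eq_of_ne (by simp), mul_zero]
  · intro q _
    rw [Finsupp.single_eq_of_ne (by simp), mul_zero]

theorem Omw_mapDomain (e : ℕ) (κ : Fin n × Fin k →₀ ℕ) :
    Omw n c k e (κ.mapDomain Sum.inl) = 2 * e * Om κ := by
  classical
  change ∑ q : Fin n × Fin k, 2 * e * ((q.1 : ℕ) * (q.2 : ℕ)) *
    (κ.mapDomain Sum.inl : SZ n c k →₀ ℕ) (Sum.inl q) + ∑ c' : Fin n, H80Z.wx n k c' *
      (κ.mapDomain Sum.inl : SZ n c k →₀ ℕ) (Sum.inr (some (Fin.castAdd c c'))) +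
      (2 * n * (k - n) + n * n + 1) * (κ.mapDomain Sum.inl : SZ n c k →₀ ℕ) (Sum.inr none) =
    2 * e * ∑ q : Fin n × Fin k, (q.1 : ℕ) * (q.2 : ℕ) * κ q
  rw [Finset.sum_eq_zero (s := (Finset.univ : Finset (Fin n))), add_zero, Finset.mul_sum,
    Finsupp.mapDomain_of_notMem_range, mul_zero, add_zero]
  · refine Finset.sum_congr rfl fun q _ => ?_
    rw [Finsupp.mapDomain_apply Sum.inl_injective]
    ring
  · simp
  · intro c' _
    rw [Finsupp.mapDomain_of_notMem_range, mul_zero]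
    simp

/-- The exponent of the `b`-th term of the linear form. -/
noncomputable def eLw (c : ℕ) (hk : n ≤ k) (e : ℕ) (c' b : Fin n) : SZ n c k →₀ ℕ :=
  Finsupp.single (Sum.inr (some (Fin.castAdd c b))) e + Finsupp.single (Sum.inl (b, jc hk c')) 1

/-- The linear form `∑ (a_b / a_c') x_b ^ e z_(b, k - n + c')`. -/
noncomputable def Lw (c : ℕ) (hk : n ≤ k) (e : ℕ) (a : Option (Fin n) → ℂ) (c' : Fin n) :
    MvPolynomial (SZ n c k) ℂ :=
  ∑ b, monomial (eLw c hk e c' b) (a (some b) / a (some c'))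

theorem Omw_eLw (hk : n ≤ k) {e : ℕ} (he : 1 ≤ e) {c' b : Fin n} (h : b ≠ c') :
    Omw n c k e (eLw c hk e c' b) < Omw n c k e (eLw c hk e c' c') := by
  unfold eLw
  rw [map_add, map_add, Omw_inr, Omw_inr, Omw_inl, Omw_inl]
  have hb : H80Z.wx n k b + (2 * b * (k - n) + b * b) = 2 * n * (k - n) + n * n := by
    unfold H80Z.wx
    have h1 : (b : ℕ) ≤ n := b.2.le
    have h2 : 2 * (b : ℕ) * (k - n) ≤ 2 * n * (k - n) :=
      Nat.mul_le_mul_right _ (Nat.mul_le_mul_left _ h1)
    have h3 : (b : ℕ) * b ≤ n * n := Nat.mul_le_mul h1 h1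
    omega
  have hc : H80Z.wx n k c' + (2 * c' * (k - n) + c' * c') = 2 * n * (k - n) + n * n := by
    unfold H80Z.wx
    have h1 : (c' : ℕ) ≤ n := c'.2.le
    have h2 : 2 * (c' : ℕ) * (k - n) ≤ 2 * n * (k - n) :=
      Nat.mul_le_mul_right _ (Nat.mul_le_mul_left _ h1)
    have h3 : (c' : ℕ) * c' ≤ n * n := Nat.mul_le_mul h1 h1
    omega
  have hj : ((jc hk c' : Fin k) : ℕ) = k - n + c' := rfl
  rw [hj]
  have hne : (b : ℕ) ≠ c' := fun h' => h (Fin.ext h')
  have key : 2 * ((b : ℕ) * c') < b * b + c' * c' := by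
    rcases lt_or_gt_of_ne hne with h' | h'
    · obtain ⟨x, hx⟩ := Nat.exists_eq_add_of_lt h'
      rw [hx]
      nlinarith
    · obtain ⟨x, hx⟩ := Nat.exists_eq_add_of_lt h'
      rw [hx]
      nlinarith
  have h1 : H80Z.wx n k b + 2 * (b * (k - n + c')) < H80Z.wx n k c' + 2 * (c' * (k - n + c')) := by
    generalize H80Z.wx n k b = B at *
    generalize H80Z.wx n k c' = C' at *
    generalize k - n = K at *
    generalize (b : ℕ) = x at *
    generalize (c' : ℕ) = y at *
    nlinarith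
  calc H80Z.wx n k b * e + 2 * e * ((b : ℕ) * (k - n + c')) * 1 =
      e * (H80Z.wx n k b + 2 * (b * (k - n + c'))) := by ring
    _ < e * (H80Z.wx n k c' + 2 * (c' * (k - n + c'))) := Nat.mul_lt_mul_of_pos_left h1 (by omega)
    _ = H80Z.wx n k c' * e + 2 * e * ((c' : ℕ) * (k - n + c')) * 1 := by ring

theorem topOne_Lw (hk : n ≤ k) {e : ℕ} (he : 1 ≤ e) {a : Option (Fin n) → ℂ} (ha : ∀ b, a b ≠ 0)
    (c' : Fin n) : TopOne (Omw n c k e) (Lw c hk e a c') (eLw c hk e c' c') :=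
  topOne_sum' (Omw n c k e) (eLw c hk e c') _ c' (div_self (ha _)) fun b hb => Omw_eLw hk he hb

/-- The exponents of the form `G`. -/
noncomputable def eGw (n c k d1 : ℕ) (b : Option (Fin n)) : SZ n c k →₀ ℕ :=
  Finsupp.single (Sum.inr (vb n c b)) d1

/-- The form `G = ∑ (a_b / a_0) x_b ^ d1`. -/
noncomputable def Gw (n c k d1 : ℕ) (a : Option (Fin n) → ℂ) : MvPolynomial (SZ n c k) ℂ :=
  ∑ b, monomial (eGw n c k d1 b) (a b / a none)

theorem topOne_Gw {e d1 : ℕ} (hd1 : 1 ≤ d1) {a : Option (Fin n) → ℂ} (ha : ∀ b, a b ≠ 0) :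
    TopOne (Omw n c k e) (Gw n c k d1 a) (eGw n c k d1 none) := by
  refine topOne_sum' (Omw n c k e) (eGw n c k d1) _ none (div_self (ha _)) fun b hb => ?_
  rcases b with _ | b
  · exact absurd rfl hb
  · unfold eGw
    show Omw n c k e (Finsupp.single (Sum.inr (some (Fin.castAdd c b))) d1) <
      Omw n c k e (Finsupp.single (Sum.inr none) d1)
    rw [Omw_inr, Omw_none]
    refine Nat.mul_lt_mul_of_pos_right ?_ (by omega)
    unfold H80Z.wx
    omega

theorem topOne_mdet' {e : ℕ} (he : 1 ≤ e) (J : Ch n k) :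
    TopOne (Omw n c k e) (rename Sum.inl (mdet J.1 : MvPolynomial (Fin n × Fin k) ℂ))
      ((chain (chE J)).mapDomain Sum.inl) := by
  rw [mdet_eq]
  exact topOne_rename (topOne_zdet ℂ (chE J)) Sum.inl Sum.inl_injective (c := 2 * e) (by omega)
    (Omw_mapDomain e)

/-- The flat polynomials. -/
noncomputable def Qw (hk : n ≤ k) (e d1 : ℕ) (a : Option (Fin n) → ℂ) {t : ℕ} (r Q : ℕ)
    (i : Fin n → ℕ) (ic : Fin c → ℕ) (J : Fin t → Ch n k) (μ : Fin n × Fin k → ℕ) (f : Fin n → ℕ) :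
    MvPolynomial (SZ n c k) ℂ :=
  X (Sum.inr none) ^ r * Gw n c k d1 a ^ Q * (∏ b : Fin n, X (Sum.inr (some (Fin.castAdd c b))) ^ i b) *
    (∏ j : Fin c, X (Sum.inr (vc n c j)) ^ ic j) * (∏ l, rename Sum.inl (mdet (J l).1)) *
    (∏ p, X (Sum.inl p) ^ μ p) * ∏ c', Lw c hk e a c' ^ f c'

/-- Their leading exponents. -/
noncomputable def Ew (hk : n ≤ k) (e d1 : ℕ) {t : ℕ} (r Q : ℕ) (i : Fin n → ℕ) (ic : Fin c → ℕ)
    (J : Fin t → Ch n k) (μ : Fin n × Fin k → ℕ) (f : Fin n → ℕ) : SZ n c k →₀ ℕ :=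
  Finsupp.single (Sum.inr none) r + Q • eGw n c k d1 none +
    (∑ b : Fin n, Finsupp.single (Sum.inr (some (Fin.castAdd c b))) (i b)) +
    (∑ j : Fin c, Finsupp.single (Sum.inr (vc n c j)) (ic j)) +
    (∑ l, (chain (chE (J l))).mapDomain Sum.inl) +
    (∑ p, Finsupp.single (Sum.inl p) (μ p)) + ∑ c', f c' • eLw c hk e c' c'

theorem topOne_Qw (hk : n ≤ k) {e d1 : ℕ} (he : 1 ≤ e) (hd1 : 1 ≤ d1) {a : Option (Fin n) → ℂ}
    (ha : ∀ b, a b ≠ 0) {t : ℕ} (r Q : ℕ) (i : Fin n → ℕ) (ic : Fin c → ℕ)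
    (J : Fin t → Ch n k) (μ : Fin n × Fin k → ℕ) (f : Fin n → ℕ) :
    TopOne (Omw n c k e) (Qw hk e d1 a r Q i ic J μ f) (Ew hk e d1 r Q i ic J μ f) := by
  refine TopOne.mul (TopOne.mul (TopOne.mul (TopOne.mul (TopOne.mul (TopOne.mul ?_ ?_) ?_) ?_) ?_) ?_) ?_
  · exact topOne_X_pow _ _ _
  · exact topOne_pow (topOne_Gw hd1 ha) Q
  · exact topOne_prod _ _ _ fun b _ => topOne_X_pow _ _ _
  · exact topOne_prod _ _ _ fun b _ => topOne_X_pow _ _ _
  · exact topOne_prod _ _ _ fun l _ => topOne_mdet' he (J l)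
  · exact topOne_prod _ _ _ fun p _ => topOne_X_pow _ _ _
  · exact topOne_prod _ _ _ fun c' _ => topOne_pow (topOne_Lw hk he ha c') (f c')

theorem castAdd_ne_natAdd {n c : ℕ} (b : Fin n) (j : Fin c) : Fin.castAdd c b ≠ Fin.natAdd n j := by
  intro h
  have h1 := congrArg Fin.val h
  rw [Fin.val_castAdd, Fin.val_natAdd] at h1
  have := b.2
  omega

theorem Ew_vc (hk : n ≤ k) (e d1 : ℕ) {t : ℕ} (r Q : ℕ) (i : Fin n → ℕ) (ic : Fin c → ℕ)
    (J : Fin t → Ch n k) (μ : Fin n × Fin k → ℕ) (f : Fin n → ℕ) (j : Fin c) :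
    Ew hk e d1 r Q i ic J μ f (Sum.inr (vc n c j)) = ic j := by
  classical
  unfold Ew eLw eGw vc vb
  simp only [Finsupp.add_apply, Finsupp.finsetSum_apply, Finsupp.smul_apply, Option.map_none]
  rw [Finsupp.single_eq_of_ne (by simp), Finsupp.single_eq_of_ne (by simp), Finset.sum_eq_zero,
    Finset.sum_eq_single j, Finset.sum_eq_zero, Finset.sum_eq_zero, Finset.sum_eq_zero]
  · rw [Finsupp.single_eq_same]
    simp
  · intro c' _
    rw [Finsupp.single_eq_of_ne, Finsupp.single_eq_of_ne (by simp)]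
    · simp
    · intro h
      have h1 : Fin.natAdd n j = Fin.castAdd c c' := by simpa using h
      exact castAdd_ne_natAdd c' j h1.symm
  · intro p _
    rw [Finsupp.single_eq_of_ne (by simp)]
  · intro l _
    rw [Finsupp.mapDomain_of_notMem_range]
    simp
  · intro j' _ hj
    rw [Finsupp.single_eq_of_ne]
    intro h
    apply hj
    have h1 : Fin.natAdd n j = Fin.natAdd n j' := by simpa using h
    exact ((Fin.natAdd_injective c n) h1).symm
  · intro h
    exact absurd (Finset.mem_univ _) h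
  · intro b _
    rw [Finsupp.single_eq_of_ne]
    intro h
    have h1 : Fin.natAdd n j = Fin.castAdd c b := by simpa using h
    exact castAdd_ne_natAdd b j h1.symm

theorem Ew_some (hk : n ≤ k) (e d1 : ℕ) {t : ℕ} (r Q : ℕ) (i : Fin n → ℕ) (ic : Fin c → ℕ)
    (J : Fin t → Ch n k) (μ : Fin n × Fin k → ℕ) (f : Fin n → ℕ) (b : Fin n) :
    Ew hk e d1 r Q i ic J μ f (Sum.inr (some (Fin.castAdd c b))) = i b + e * f b := by
  classical
  unfold Ew eLw eGw vc vb
  simp only [Finsupp.add_apply, Finsupp.finsetSum_apply, Finsupp.smul_apply, Option.map_none]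
  rw [Finsupp.single_eq_of_ne (by simp), Finsupp.single_eq_of_ne (by simp), Finset.sum_eq_single b,
    Finset.sum_eq_zero, Finset.sum_eq_zero, Finset.sum_eq_zero, Finset.sum_eq_single b]
  · rw [Finsupp.single_eq_same, Finsupp.single_eq_same, Finsupp.single_eq_of_ne (by simp)]
    simp
    ring
  · intro c' _ hc
    rw [Finsupp.single_eq_of_ne, Finsupp.single_eq_of_ne (by simp)]
    · simp
    · intro h
      apply hc
      have h1 : Fin.castAdd c b = Fin.castAdd c c' := by simpa using h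
      exact ((Fin.castAdd_injective n c) h1).symm
  · intro h
    exact absurd (Finset.mem_univ b) h
  · intro p _
    rw [Finsupp.single_eq_of_ne (by simp)]
  · intro l _
    rw [Finsupp.mapDomain_of_notMem_range]
    simp
  · intro j _
    rw [Finsupp.single_eq_of_ne]
    intro h
    have h1 : Fin.castAdd c b = Fin.natAdd n j := by simpa using h
    exact castAdd_ne_natAdd b j h1
  · intro c' _ hc
    rw [Finsupp.single_eq_of_ne]
    intro h
    apply hc
    have h1 : Fin.castAdd c b = Fin.castAdd c c' := by simpa using h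
    exact ((Fin.castAdd_injective n c) h1).symm
  · intro h
    exact absurd (Finset.mem_univ b) h

theorem Ew_inl (hk : n ≤ k) (e d1 : ℕ) {t : ℕ} (r Q : ℕ) (i : Fin n → ℕ) (ic : Fin c → ℕ)
    (J : Fin t → Ch n k) (μ : Fin n × Fin k → ℕ) (f : Fin n → ℕ) (p : Fin n × Fin k) :
    Ew hk e d1 r Q i ic J μ f (Sum.inl p) = (∑ l, chain (chE (J l)) p) + μ p +
      if jc hk p.1 = p.2 then f p.1 else 0 := by
  classical
  unfold Ew eLw eGw vc vb
  simp only [Finsupp.add_apply, Finsupp.finsetSum_apply, Finsupp.smul_apply, Option.map_none]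
  rw [Finsupp.single_eq_of_ne (by simp), Finsupp.single_eq_of_ne (by simp), Finset.sum_eq_zero,
    Finset.sum_eq_zero,
    Finset.sum_eq_single (s := (Finset.univ : Finset (Fin n × Fin k))) p,
    Finset.sum_eq_single (s := (Finset.univ : Finset (Fin n))) p.1]
  · rw [Finsupp.single_eq_same, Finsupp.single_eq_of_ne (by simp)]
    have h1 : ∀ l, (Finsupp.mapDomain Sum.inl (chain (chE (J l))) : SZ n c k →₀ ℕ) (Sum.inl p) =
        chain (chE (J l)) p := fun l => Finsupp.mapDomain_apply Sum.inl_injective _ _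
    rw [Finset.sum_congr rfl fun l _ => h1 l]
    split_ifs with h
    · rw [show ((p.1, jc hk p.1) : Fin n × Fin k) = p from Prod.ext rfl h, Finsupp.single_eq_same]
      simp
    · rw [Finsupp.single_eq_of_ne]
      · simp
      · intro h2
        apply h
        have h3 := Sum.inl_injective h2
        exact (congrArg Prod.snd h3).symm
  · intro c' _ hc
    rw [Finsupp.single_eq_of_ne (by simp), Finsupp.single_eq_of_ne]
    · simp
    · intro h2
      apply hc
      have h3 := Sum.inl_injective h2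
      exact (congrArg Prod.fst h3).symm
  · intro h
    exact absurd (Finset.mem_univ _) h
  · intro q _ hq
    rw [Finsupp.single_eq_of_ne]
    intro h2
    exact hq (Sum.inl_injective h2).symm
  · intro h
    exact absurd (Finset.mem_univ _) h
  · intro b _
    rw [Finsupp.single_eq_of_ne (by simp)]
  · intro b _
    rw [Finsupp.single_eq_of_ne (by simp)]

end Pool.Agent.H80W
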