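import Pool.Agent.Lib.H80W.E2

set_option autoImplicit false

/-!
H80W, E3: lower bound.  The degrees in the `x_(n + j)`, the index set, linear independence.
-/

open MvPolynomial

namespace Pool.Agent.H80W

open Pool.Agent.H80N

open Pool.Agent.H44K (mdet Ch Good)

open Pool.Agent.H80Z (jc Dg dg_mul dg_one dg_pow dg_prod dg_monomial dg_sum dg_X_pow GZ chJ rst rst_add linInd_of_topOne)

variable {n c k : ℕ}

theorem dg_rename_inl' (j : Fin c) (P : MvPolynomial (Fin n × Fin k) ℂ) :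
    Dg (Sum.inr (vc n c j) : SZ n c k) 0 (rename Sum.inl P) := by
  classical
  intro κ hκ
  obtain ⟨ν, rfl, _⟩ := coeff_rename_ne_zero _ P κ hκ
  rw [Finsupp.mapDomain_of_notMem_range]
  simp

theorem dg_Qw (hk : n ≤ k) (e d1 : ℕ) (a : Option (Fin n) → ℂ) {t : ℕ} (r Q : ℕ)
    (i : Fin n → ℕ) (ic : Fin c → ℕ) (J : Fin t → Ch n k) (μ : Fin n × Fin k → ℕ) (f : Fin n → ℕ)
    (j : Fin c) : Dg (Sum.inr (vc n c j) : SZ n c k) (ic j) (Qw hk e d1 a r Q i ic J μ f) := by
  classical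
  have hca : ∀ b : Fin n, (Sum.inr (some (Fin.castAdd c b)) : SZ n c k) ≠ Sum.inr (vc n c j) := by
    intro b h
    have h1 : Fin.castAdd c b = Fin.natAdd n j := by simpa [vc] using h
    exact castAdd_ne_natAdd b j h1
  have hvb : ∀ b : Option (Fin n), (Sum.inr (vb n c b) : SZ n c k) ≠ Sum.inr (vc n c j) := by
    intro b
    rcases b with _ | b
    · simp [vc, vb]
    · exact hca b
  have hmon : ∀ (μ : SZ n c k →₀ ℕ) (x : ℂ), μ (Sum.inr (vc n c j)) = 0 →
      Dg (Sum.inr (vc n c j) : SZ n c k) 0 (monomial μ x) := by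
    intro μ x h κ hκ
    rw [coeff_monomial] at hκ
    by_cases h1 : μ = κ
    · rw [← h1, h]
    · exact absurd (if_neg h1) hκ
  unfold Qw
  have h1 : Dg (Sum.inr (vc n c j) : SZ n c k) 0 (X (Sum.inr none) ^ r) :=
    dg_X_pow (by simp [vc]) _
  have h2 : Dg (Sum.inr (vc n c j) : SZ n c k) 0 (Gw n c k d1 a ^ Q) := by
    refine dg_pow (dg_sum _ _ fun b _ => hmon _ _ ?_) _
    unfold eGw
    rw [Finsupp.single_eq_of_ne (hvb b).symm]
  have h3 : Dg (Sum.inr (vc n c j) : SZ n c k) 0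
      (∏ b : Fin n, X (Sum.inr (some (Fin.castAdd c b))) ^ i b) :=
    dg_prod _ _ fun b _ => dg_X_pow (hca b) _
  have h4 : Dg (Sum.inr (vc n c j) : SZ n c k) (ic j)
      (∏ j' : Fin c, X (Sum.inr (vc n c j')) ^ ic j') := by
    rw [← Finset.mul_prod_erase Finset.univ _ (Finset.mem_univ j)]
    have h5 : Dg (Sum.inr (vc n c j) : SZ n c k) (ic j) (X (Sum.inr (vc n c j)) ^ ic j) := by
      rw [X_pow_eq_monomial]
      have := dg_monomial (p := (Sum.inr (vc n c j) : SZ n c k)) (Finsupp.single (Sum.inr (vc n c j)) (ic j))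
      rwa [Finsupp.single_eq_same] at this
    have h6 : Dg (Sum.inr (vc n c j) : SZ n c k) 0
        (∏ j' ∈ Finset.univ.erase j, X (Sum.inr (vc n c j')) ^ ic j') := by
      refine dg_prod _ _ fun j' hj' => dg_X_pow ?_ _
      intro h
      apply Finset.ne_of_mem_erase hj'
      have h1 : Fin.natAdd n j' = Fin.natAdd n j := by simpa [vc] using h
      exact (Fin.natAdd_injective c n) h1
    have h7 := dg_mul h5 h6
    rwa [add_zero] at h7
  have h5 : Dg (Sum.inr (vc n c j) : SZ n c k) 0 (∏ l, rename Sum.inl (mdet (J l).1)) :=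
    dg_prod _ _ fun l _ => dg_rename_inl' j _
  have h6 : Dg (Sum.inr (vc n c j) : SZ n c k) 0 (∏ p : Fin n × Fin k, X (Sum.inl p) ^ μ p) :=
    dg_prod _ _ fun p _ => dg_X_pow (by simp) _
  have h7 : Dg (Sum.inr (vc n c j) : SZ n c k) 0 (∏ c', Lw c hk e a c' ^ f c') := by
    refine dg_prod _ _ fun c' _ => dg_pow (dg_sum _ _ fun b _ => hmon _ _ ?_) _
    unfold eLw
    rw [Finsupp.add_apply, Finsupp.single_eq_of_ne (hca b).symm, Finsupp.single_eq_of_ne (by simp),
      add_zero]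
  have := dg_mul (dg_mul (dg_mul (dg_mul (dg_mul (dg_mul h1 h2) h3) h4) h5) h6) h7
  simpa using this

/-- The index set. -/
abbrev IW (n : ℕ) {c : ℕ} (k : ℕ) (d : Fin c → ℕ) (j1 : Fin c) (m t : ℕ) : Type :=
  (∀ j, Fin (d j)) × (Fin n → Fin (d j1 - 1)) × GZ n k m t

variable {d : Fin c → ℕ} {j1 : Fin c} {m t : ℕ}

/-- The number of the missing factors. -/
def Rw (a : IW n k d j1 m t) : ℕ := (d j1 - 1) * (m - ∑ c', a.2.2.1.2 c')

/-- The reduced exponents of the `x_(n + j)`. -/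
def icw (a : IW n k d j1 m t) (j : Fin c) : ℕ := if j = j1 then ((a.1 j : ℕ) + Rw a) % d j else a.1 j

/-- The exponents are different. -/
theorem Ew_inj (hk : n ≤ k) (hd : ∀ j, 2 ≤ d j) (r Q : IW n k d j1 m t → ℕ) :
    Function.Injective fun a : IW n k d j1 m t => (Ew hk (d j1 - 1) (d j1) (r a) (Q a)
      (fun b => (a.2.1 b : ℕ)) (icw a) (chJ a.2.2) (rst a.2.2) a.2.2.1.2 : SZ n c k →₀ ℕ) := by
  classical
  rintro ⟨i0, i, g⟩ ⟨i0', i', g'⟩ h
  simp only at h
  have h1 : ∀ b, i b = i' b ∧ g.1.2 b = g'.1.2 b := by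
    intro b
    have h2 := DFunLike.congr_fun h (Sum.inr (some (Fin.castAdd c b)))
    rw [Ew_some, Ew_some] at h2
    have he : 0 < d j1 - 1 := by have := hd j1; omega
    have h3 := congrArg (· % (d j1 - 1)) h2
    have h4 := congrArg (· / (d j1 - 1)) h2
    simp only [Nat.add_mul_mod_self_left, Nat.mod_eq_of_lt (i b).2, Nat.mod_eq_of_lt (i' b).2] at h3
    simp only [Nat.add_mul_div_left _ _ he, Nat.div_eq_of_lt (i b).2, Nat.div_eq_of_lt (i' b).2,
      zero_add] at h4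
    exact ⟨Fin.ext h3, h4⟩
  have h2 : i = i' := funext fun b => (h1 b).1
  have h3 : g.1.2 = g'.1.2 := funext fun b => (h1 b).2
  have h4 : g.1.1 = g'.1.1 := by
    funext p
    have h5 := DFunLike.congr_fun h (Sum.inl p)
    rw [Ew_inl, Ew_inl, h3] at h5
    have h6 := Nat.add_right_cancel h5
    have h7 : ∀ g : GZ n k m t, (∑ l, chain (chE (chJ g l)) p) + rst g p = g.1.1 p := by
      intro g
      rw [← rst_add g p]
      congr 1
      exact Finset.sum_congr rfl fun l _ => by rw [chain_apply]; rfl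
    rw [h7, h7] at h6
    exact h6
  have h5 : g = g' := Subtype.ext (Prod.ext h4 h3)
  subst h5
  subst h2
  have h6 : i0 = i0' := by
    funext j
    have h7 := DFunLike.congr_fun h (Sum.inr (vc n c j))
    rw [Ew_vc, Ew_vc] at h7
    unfold icw at h7
    by_cases hj : j = j1
    · rw [if_pos hj, if_pos hj] at h7
      have h8 : Rw (n := n) (k := k) (d := d) (j1 := j1) (m := m) (t := t) (i0, i, g) = Rw (i0', i, g) := rfl
      rw [h8] at h7
      have h9 : (i0 j : ℕ) ≡ (i0' j : ℕ) [MOD d j] := Nat.ModEq.add_right_cancel' _ h7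
      have h10 : (i0 j : ℕ) % d j = (i0' j : ℕ) % d j := h9
      rw [Nat.mod_eq_of_lt (i0 j).2, Nat.mod_eq_of_lt (i0' j).2] at h10
      exact Fin.ext h10
    · rw [if_neg hj, if_neg hj] at h7
      exact Fin.ext h7
  subst h6
  rfl

/-- Linear independence. -/
theorem linInd_Qw (hk : n ≤ k) (hd : ∀ j, 2 ≤ d j) {α : Fin c → Option (Fin n) → ℂ}
    (hα : ∀ j b, α j b ≠ 0) (r Q : IW n k d j1 m t → ℕ) :
    LinearIndependent ℂ fun a : IW n k d j1 m t => Th n c k d α
      (Qw hk (d j1 - 1) (d j1) (α j1) (r a) (Q a) (fun b => (a.2.1 b : ℕ)) (icw a) (chJ a.2.2)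
        (rst a.2.2) a.2.2.1.2) := by
  classical
  have h2 := hd j1
  have hd1 : ∀ j, 1 ≤ d j := fun j => by have := hd j; omega
  have h1 := linInd_of_topOne (K := ℂ) (Omw n c k (d j1 - 1)) _ _
    (fun a : IW n k d j1 m t => topOne_Qw (c := c) hk (e := d j1 - 1) (d1 := d j1) (by omega) (by omega)
      (hα j1) (r a) (Q a) (fun b => (a.2.1 b : ℕ)) (icw a) (chJ a.2.2) (rst a.2.2) a.2.2.1.2)
    (Ew_inj hk hd r Q)
  rw [linearIndependent_iff'] at h1 ⊢
  intro s g hg
  refine h1 s g (Th_inj (α := α) hd1 _ ?_ fun κ hκ j => ?_)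
  · rw [map_sum, ← hg]
    exact Finset.sum_congr rfl fun a _ => map_smul _ _ _
  · rw [coeff_sum] at hκ
    obtain ⟨a, _, ha⟩ := Finset.exists_ne_zero_of_sum_ne_zero hκ
    rw [coeff_smul, smul_eq_mul] at ha
    rw [dg_Qw hk _ _ _ _ _ _ _ _ _ _ j κ (right_ne_zero_of_mul ha)]
    unfold icw
    split_ifs with hj
    · exact Nat.mod_lt _ (hd1 j)
    · exact (a.1 j).2

end Pool.Agent.H80W
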