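import Pool.Agent.Lib.H80W.E3
import Pool.Agent.Lib.H80W.C3
import Pool.Agent.Lib.H80Z.Z

set_option autoImplicit false

/-!
H80W, E4: lower bound for the sections of the special linear model.
-/

open MvPolynomial

namespace Pool.Agent.H80W

open Pool.Agent.H89T Pool.Agent.H67T Pool.Agent.H53U Pool.Agent.H53V Pool.Agent.H80N

open Pool.Agent.H44K (mdet Ch Good ngoodS wch)

open Pool.Agent.H80Z (jc GZ chJ rst rst_add map_mdet)

variable {n c k : ℕ} {d : Fin c → ℕ} {α : Fin c → Option (Fin n) → ℂ}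

/-- The polynomials in the jets. -/
noncomputable def Pw (hk : n ≤ k) (j1 : Fin c) (a : Option (Fin n) → ℂ) (r : ℕ) (i : Fin n → ℕ)
    (ic : Fin c → ℕ) (μ : Fin n × Fin k → ℕ) (f : Fin n → ℕ) : MvPolynomial (HV (n + c) k) ℂ :=
  X (xv none) ^ r * (∏ b : Fin n, X (xv (some (Fin.castAdd c b))) ^ i b) *
    (∏ j : Fin c, X (xv (vc n c j)) ^ ic j) *
    (∏ p : Fin n × Fin k, X (some (Fin.castAdd c p.1, p.2.succ)) ^ μ p) *
    ∏ c', (C (-(a (some c'))⁻¹) * X (some (Fin.natAdd n j1, (jc hk c').succ))) ^ f c'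

theorem bih_prod' {N : ℕ} {ι : Type*} (s : Finset ι) (P : ι → MvPolynomial (HV N k) ℂ) (a b : ι → ℕ)
    (h : ∀ i ∈ s, BiH (a i) (b i) (P i)) : BiH (∑ i ∈ s, a i) (∑ i ∈ s, b i) (∏ i ∈ s, P i) := by
  have h1 := IsWeightedHomogeneous.prod s P (fun i => ((a i, b i) : ℕ × ℕ)) (w := hw) h
  unfold BiH
  have e : ((∑ i ∈ s, a i, ∑ i ∈ s, b i) : ℕ × ℕ) = ∑ i ∈ s, ((a i, b i) : ℕ × ℕ) := by
    rw [Prod.ext_iff]
    constructor
    · rw [Prod.fst_sum]
    · rw [Prod.snd_sum]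
  rw [e]
  exact h1

theorem xv_pow_bi {N : ℕ} (b : Option (Fin N)) (e : ℕ) :
    BiH e 0 (X (xv b) ^ e : MvPolynomial (HV N k) ℂ) := by
  have h2 := (xv_bi (k := k) b).pow e
  have e1 : e • ((1, 0) : ℕ × ℕ) = (e, 0) := by
    rw [Prod.smul_mk, smul_eq_mul, smul_eq_mul, mul_one, mul_zero]
  rw [e1] at h2
  exact h2

theorem v_pow_bi {N : ℕ} (b : Fin N) (j : Fin k) (e : ℕ) :
    BiH 0 (((j : ℕ) + 1) * e) (X (some (b, j.succ)) ^ e : MvPolynomial (HV N k) ℂ) := by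
  have h := (isWeightedHomogeneous_X ℂ (hw : HV N k → ℕ × ℕ) (some (b, j.succ))).pow e
  rw [hw_succ'] at h
  have e1 : e • ((0, (j : ℕ) + 1) : ℕ × ℕ) = (0, ((j : ℕ) + 1) * e) := by
    rw [Prod.smul_mk, smul_eq_mul, smul_eq_mul, mul_zero, mul_comm]
  rw [e1] at h
  exact h

theorem bih_Pw (hk : n ≤ k) (j1 : Fin c) (a : Option (Fin n) → ℂ) (r : ℕ) (i : Fin n → ℕ)
    (ic : Fin c → ℕ) (μ : Fin n × Fin k → ℕ) (f : Fin n → ℕ) : BiH (r + (∑ b, i b) + ∑ j, ic j)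
      ((∑ p : Fin n × Fin k, ((p.2 : ℕ) + 1) * μ p) + ∑ c' : Fin n, (k - n + (c' : ℕ) + 1) * f c')
      (Pw hk j1 a r i ic μ f) := by
  have h1 : BiH r 0 (X (xv none) ^ r : MvPolynomial (HV (n + c) k) ℂ) := xv_pow_bi none r
  have h2 : BiH (∑ b, i b) (∑ _b : Fin n, 0)
      (∏ b : Fin n, X (xv (some (Fin.castAdd c b))) ^ i b : MvPolynomial (HV (n + c) k) ℂ) :=
    bih_prod' Finset.univ _ i (fun _ => 0) fun b _ => xv_pow_bi _ _
  have h3 : BiH (∑ j, ic j) (∑ _j : Fin c, 0)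
      (∏ j : Fin c, X (xv (vc n c j)) ^ ic j : MvPolynomial (HV (n + c) k) ℂ) :=
    bih_prod' Finset.univ _ ic (fun _ => 0) fun b _ => xv_pow_bi _ _
  have h4 : BiH (∑ _p : Fin n × Fin k, 0) (∑ p : Fin n × Fin k, ((p.2 : ℕ) + 1) * μ p)
      (∏ p : Fin n × Fin k, X (some (Fin.castAdd c p.1, p.2.succ)) ^ μ p :
        MvPolynomial (HV (n + c) k) ℂ) :=
    bih_prod' Finset.univ _ (fun _ => 0) _ fun p _ => v_pow_bi _ _ _
  have h5 : BiH (∑ _c : Fin n, 0) (∑ c' : Fin n, (k - n + (c' : ℕ) + 1) * f c')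
      (∏ c', (C (-(a (some c'))⁻¹) * X (some (Fin.natAdd n j1, (jc hk c').succ))) ^ f c' :
        MvPolynomial (HV (n + c) k) ℂ) := by
    refine bih_prod' Finset.univ _ (fun _ => 0) _ fun c' _ => ?_
    rw [mul_pow, ← map_pow]
    have h6 := (isWeightedHomogeneous_C (hw : HV (n + c) k → ℕ × ℕ) ((-(a (some c'))⁻¹) ^ f c')).mul
      (v_pow_bi (Fin.natAdd n j1) (jc hk c') (f c'))
    rw [zero_add] at h6
    exact h6
  have h6 := (((h1.mul h2).mul h3).mul h4).mul h5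
  unfold BiH Pw
  convert h6 using 1
  simp

theorem Phi_Pw (hk : n ≤ k) (j1 : Fin c) (r : ℕ)
    (i : Fin n → ℕ) (ic : Fin c → ℕ) (μ : Fin n × Fin k → ℕ) (f : Fin n → ℕ) :
    Phi k (xi n c d α) (MM n c d α) (Pw hk j1 (α j1) r i ic μ f) =
      C (xi n c d α none) ^ r * (∏ b : Fin n, C (xi n c d α (some (Fin.castAdd c b))) ^ i b) *
        (∏ j : Fin c, C (xi n c d α (vc n c j)) ^ ic j) *
        (∏ p : Fin n × Fin k, X p ^ μ p) *
        ∏ c', (C (xinv n c d α j1 ^ (d j1 - 1)) * Th n c k d α (Lw c hk (d j1 - 1) (α j1) c')) ^ f c' := by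
  unfold Pw
  simp only [map_mul, map_pow, map_prod, Phi_x, Phi_v]
  congr 1
  · congr 1
    refine Finset.prod_congr rfl fun p _ => ?_
    rw [vimg_castAdd]
  · refine Finset.prod_congr rfl fun c' _ => ?_
    congr 1
    rw [Phi_C]
    unfold Lw vimg
    rw [map_sum, Finset.mul_sum, Finset.mul_sum]
    refine Finset.sum_congr rfl fun b _ => ?_
    have e : (monomial (eLw c hk (d j1 - 1) c' b) (α j1 (some b) / α j1 (some c')) :
        MvPolynomial (SZ n c k) ℂ) = C (α j1 (some b) / α j1 (some c')) *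
          (X (Sum.inr (some (Fin.castAdd c b))) ^ (d j1 - 1) * X (Sum.inl (b, jc hk c'))) := by
      unfold eLw
      rw [X_pow_eq_monomial, X, monomial_mul, C_mul_monomial, mul_one, mul_one]
    have e2 : ∀ x : ℂ, Th n c k d α (C x) = C (algebraMap ℂ (EE n c d α) x) := by
      intro x
      have h3 : (C x : MvPolynomial (SZ n c k) ℂ) = algebraMap ℂ _ x := rfl
      rw [h3, AlgHom.commutes]
      rfl
    rw [e, map_mul, map_mul, map_pow, Th_inr, Th_inl, e2, MM_natAdd, div_eq_mul_inv, map_mul]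
    show C (algebraMap ℂ (EE n c d α) (-(α j1 (some c'))⁻¹)) *
        (C (-(algebraMap ℂ (EE n c d α) (α j1 (some b)) * xi n c d α (some (Fin.castAdd c b)) ^ (d j1 - 1) *
          xinv n c d α j1 ^ (d j1 - 1))) * X (b, jc hk c')) = _
    simp only [map_neg, map_mul, map_pow]
    ring

/-- The sections. -/
noncomputable def qw (hk : n ≤ k) (d : Fin c → ℕ) (α : Fin c → Option (Fin n) → ℂ) (j1 : Fin c)
    {t : ℕ} (r : ℕ) (i : Fin n → ℕ) (ic : Fin c → ℕ) (J : Fin t → Ch n k)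
    (μ : Fin n × Fin k → ℕ) (f : Fin n → ℕ) : MvPolynomial (Fin n × Fin k) (EE n c d α) :=
  (∏ l, (C (yi n c d α) * mdet (J l).1)) *
    Phi k (xi n c d α) (MM n c d α) (Pw hk j1 (α j1) r i ic μ f)

theorem Th_rename' (P : MvPolynomial (Fin n × Fin k) ℂ) :
    Th n c k d α (rename Sum.inl P) = map (algebraMap ℂ (EE n c d α)) P := by
  have h : (Th n c k d α).comp (rename Sum.inl) =
      (mapAlgHom (Algebra.ofId ℂ (EE n c d α)) :
        MvPolynomial (Fin n × Fin k) ℂ →ₐ[ℂ] MvPolynomial (Fin n × Fin k) (EE n c d α)) := by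
    refine MvPolynomial.algHom_ext fun p => ?_
    rw [AlgHom.comp_apply, rename_X, Th_inl, mapAlgHom_apply]
    simp
  exact congrArg (fun g : MvPolynomial (Fin n × Fin k) ℂ →ₐ[ℂ]
    MvPolynomial (Fin n × Fin k) (EE n c d α) => g P) h

theorem Th_Gw (j1 : Fin c) (hα : ∀ j b, α j b ≠ 0) :
    C (xi n c d α (vc n c j1)) ^ d j1 =
      C (algebraMap ℂ (EE n c d α) (-(α j1 none))) * Th n c k d α (Gw n c k (d j1) (α j1)) := by
  have h1 := xi_rel (n := n) (c := c) (d := d) (α := α) j1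
  have h2 : Th n c k d α (Gw n c k (d j1) (α j1)) = C (algebraMap ℂ (EE n c d α) (α j1 none)⁻¹) *
      C (∑ b, algebraMap ℂ (EE n c d α) (α j1 b) * xi n c d α (vb n c b) ^ d j1) := by
    unfold Gw eGw
    rw [map_sum, map_sum, Finset.mul_sum]
    refine Finset.sum_congr rfl fun b _ => ?_
    have e : (monomial (Finsupp.single (Sum.inr (vb n c b)) (d j1)) (α j1 b / α j1 none) :
        MvPolynomial (SZ n c k) ℂ) = C (α j1 b / α j1 none) * X (Sum.inr (vb n c b)) ^ d j1 := by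
      rw [X_pow_eq_monomial, C_mul_monomial, mul_one]
    have e2 : ∀ x : ℂ, Th n c k d α (C x) = C (algebraMap ℂ (EE n c d α) x) := by
      intro x
      have h3 : (C x : MvPolynomial (SZ n c k) ℂ) = algebraMap ℂ _ x := rfl
      rw [h3, AlgHom.commutes]
      rfl
    rw [e, map_mul, map_pow, Th_inr, e2, div_eq_mul_inv, map_mul, C_mul, C_mul, C_pow]
    ring
  have h3 : algebraMap ℂ (EE n c d α) (α j1 none) * algebraMap ℂ (EE n c d α) (α j1 none)⁻¹ = 1 := by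
    rw [← map_mul, mul_inv_cancel₀ (hα j1 none), map_one]
  have h4 : xi n c d α (vc n c j1) ^ d j1 =
      -(∑ b, algebraMap ℂ (EE n c d α) (α j1 b) * xi n c d α (vb n c b) ^ d j1) :=
    eq_neg_of_add_eq_zero_left h1
  have h5 : -(∑ b, algebraMap ℂ (EE n c d α) (α j1 b) * xi n c d α (vb n c b) ^ d j1) =
      algebraMap ℂ (EE n c d α) (-(α j1 none)) * (algebraMap ℂ (EE n c d α) (α j1 none)⁻¹ *
        ∑ b, algebraMap ℂ (EE n c d α) (α j1 b) * xi n c d α (vb n c b) ^ d j1) := by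
    rw [map_neg]
    linear_combination (∑ b, algebraMap ℂ (EE n c d α) (α j1 b) * xi n c d α (vb n c b) ^ d j1) * h3
  rw [h2, ← C_pow, h4, h5, C_mul, C_mul]

end Pool.Agent.H80W
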