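import Pool.Agent.Lib.H80W.E4

set_option autoImplicit false

/-!
H80W, E5: lower bound for the sections of the special linear model.
-/

open MvPolynomial

namespace Pool.Agent.H80W

open Pool.Agent.H89T Pool.Agent.H67T Pool.Agent.H53U Pool.Agent.H53V Pool.Agent.H80N

open Pool.Agent.H44K (mdet Ch Good ngoodS wch)

open Pool.Agent.H80Z (jc GZ chJ rst rst_add map_mdet)

variable {n c k : ℕ} {d : Fin c → ℕ} {α : Fin c → Option (Fin n) → ℂ}

/-- Reduction of the exponent of `x_(n + j1)`. -/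
theorem prod_red {R : Type*} [CommRing R] (x : Fin c → R) (j1 : Fin c) (ic : Fin c → ℕ) (S d1 : ℕ) :
    (∏ j, x j ^ ic j) * x j1 ^ S =
      (∏ j, x j ^ (if j = j1 then (ic j + S) % d1 else ic j)) * (x j1 ^ d1) ^ ((ic j1 + S) / d1) := by
  classical
  have h1 : ∀ T : ℕ, x j1 ^ T = ∏ j, x j ^ (if j = j1 then T else 0) := by
    intro T
    rw [Finset.prod_eq_single j1]
    · rw [if_pos rfl]
    · intro j _ hj
      rw [if_neg hj, pow_zero]
    · intro h
      exact absurd (Finset.mem_univ _) h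
  rw [h1 S, ← pow_mul, h1 (d1 * ((ic j1 + S) / d1)), ← Finset.prod_mul_distrib,
    ← Finset.prod_mul_distrib]
  refine Finset.prod_congr rfl fun j _ => ?_
  rw [← pow_add, ← pow_add]
  congr 1
  by_cases h : j = j1
  · subst h
    rw [if_pos rfl, if_pos rfl, if_pos rfl, Nat.mod_add_div]
  · rw [if_neg h, if_neg h, if_neg h]

theorem qw_eq (hk : n ≤ k) (hd : ∀ j, 1 ≤ d j) (hα : ∀ j b, α j b ≠ 0) (j1 : Fin c) {t m : ℕ} (r : ℕ)
    (i : Fin n → ℕ) (ic : Fin c → ℕ) (J : Fin t → Ch n k) (μ : Fin n × Fin k → ℕ) (f : Fin n → ℕ)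
    (hf : ∑ c', f c' ≤ m) :
    C (yy n c d α ^ t * xi n c d α (vc n c j1) ^ ((d j1 - 1) * m)) * qw hk d α j1 r i ic J μ f =
      C (algebraMap ℂ (EE n c d α) (-(α j1 none))) ^ ((ic j1 + (d j1 - 1) * (m - ∑ c', f c')) / d j1) *
        Th n c k d α (Qw hk (d j1 - 1) (d j1) (α j1) r
          ((ic j1 + (d j1 - 1) * (m - ∑ c', f c')) / d j1) i
          (fun j => if j = j1 then (ic j + (d j1 - 1) * (m - ∑ c', f c')) % d j1 else ic j) J μ f) := by
  have h1 : (C (yy n c d α) : MvPolynomial (Fin n × Fin k) (EE n c d α)) ^ t * C (yi n c d α) ^ t = 1 := by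
    rw [← mul_pow, ← map_mul, mul_comm, yi_yy hd hα, map_one, one_pow]
  have h2 : ∏ l, (C (yi n c d α) * mdet (J l).1 : MvPolynomial (Fin n × Fin k) (EE n c d α)) =
      C (yi n c d α) ^ t * ∏ l, mdet (J l).1 := by
    rw [Finset.prod_mul_distrib, Finset.prod_const, Finset.card_univ, Fintype.card_fin]
  have h3 : ∏ c', (C (xinv n c d α j1 ^ (d j1 - 1)) *
      Th n c k d α (Lw c hk (d j1 - 1) (α j1) c')) ^ f c' =
      (C (xinv n c d α j1) ^ ((d j1 - 1) * ∑ c', f c') : MvPolynomial (Fin n × Fin k) (EE n c d α)) *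
        ∏ c', Th n c k d α (Lw c hk (d j1 - 1) (α j1) c') ^ f c' := by
    rw [pow_mul, ← C_pow, ← Finset.prod_pow_eq_pow_sum, ← Finset.prod_mul_distrib]
    exact Finset.prod_congr rfl fun c' _ => mul_pow _ _ _
  have h4 : (C (xi n c d α (vc n c j1)) : MvPolynomial (Fin n × Fin k) (EE n c d α)) ^ ((d j1 - 1) * m) *
      C (xinv n c d α j1) ^ ((d j1 - 1) * ∑ c', f c') =
      C (xi n c d α (vc n c j1)) ^ ((d j1 - 1) * (m - ∑ c', f c')) := by
    have h5 : (C (xi n c d α (vc n c j1)) : MvPolynomial (Fin n × Fin k) (EE n c d α)) ^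
        ((d j1 - 1) * ∑ c', f c') * C (xinv n c d α j1) ^ ((d j1 - 1) * ∑ c', f c') = 1 := by
      rw [← mul_pow, ← map_mul, mul_comm, xinv_mul hd hα, map_one, one_pow]
    have h6 : (d j1 - 1) * m = (d j1 - 1) * (m - ∑ c', f c') + (d j1 - 1) * ∑ c', f c' := by
      rw [← mul_add, Nat.sub_add_cancel hf]
    rw [h6, pow_add, mul_assoc, h5, mul_one]
  have h7 : ∏ l, Th n c k d α (rename Sum.inl (mdet (J l).1)) = ∏ l, mdet (J l).1 :=
    Finset.prod_congr rfl fun l _ => by rw [Th_rename', map_mdet]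
  have h8 := prod_red (fun j : Fin c => (C (xi n c d α (vc n c j)) :
    MvPolynomial (Fin n × Fin k) (EE n c d α))) j1 ic ((d j1 - 1) * (m - ∑ c', f c')) (d j1)
  simp only [Th_Gw (k := k) j1 hα] at h8
  unfold qw Qw
  rw [Phi_Pw, h2, h3]
  simp only [map_mul, map_pow, map_prod, Th_inl, Th_inr, h7]
  rw [mul_pow] at h8
  generalize (∏ c', Th n c k d α (Lw c hk (d j1 - 1) (α j1) c') ^ f c') = Lp at *
  generalize (∏ l, mdet (J l).1 : MvPolynomial (Fin n × Fin k) (EE n c d α)) = Mp at *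
  generalize (∏ p : Fin n × Fin k, X p ^ μ p : MvPolynomial (Fin n × Fin k) (EE n c d α)) = Z at *
  generalize (∏ b : Fin n, C (xi n c d α (some (Fin.castAdd c b))) ^ i b :
    MvPolynomial (Fin n × Fin k) (EE n c d α)) = I at *
  generalize (C (xi n c d α none) : MvPolynomial (Fin n × Fin k) (EE n c d α)) ^ r = x0 at *
  generalize (C (yy n c d α) : MvPolynomial (Fin n × Fin k) (EE n c d α)) ^ t = a1 at *
  generalize (C (yi n c d α) : MvPolynomial (Fin n × Fin k) (EE n c d α)) ^ t = b1 at *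
  generalize (C (xi n c d α (vc n c j1)) : MvPolynomial (Fin n × Fin k) (EE n c d α)) ^ ((d j1 - 1) * m) = u1 at *
  generalize (C (xinv n c d α j1) : MvPolynomial (Fin n × Fin k) (EE n c d α)) ^ ((d j1 - 1) * ∑ c', f c') = u2 at *
  generalize (C (xi n c d α (vc n c j1)) : MvPolynomial (Fin n × Fin k) (EE n c d α)) ^
    ((d j1 - 1) * (m - ∑ c', f c')) = u3 at *
  generalize (∏ j, (C (xi n c d α (vc n c j)) : MvPolynomial (Fin n × Fin k) (EE n c d α)) ^ ic j) = P1 at *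
  calc a1 * u1 * (b1 * Mp * (x0 * I * P1 * Z * (u2 * Lp))) =
      (a1 * b1) * (x0 * I * (P1 * (u1 * u2)) * Mp * Z * Lp) := by ring
    _ = x0 * I * (P1 * u3) * Mp * Z * Lp := by rw [h1, one_mul, h4]
    _ = _ := by rw [h8]; ring

end Pool.Agent.H80W
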